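import Mathlib

open scoped Pointwise

namespace R93.Scherk

/-- Scherk's theorem: if `0 ∈ A ∩ B` and `0 = a + b` only for `a = b = 0`, then
`|A| + |B| ≤ |A + B| + 1`. -/
theorem scherk_zero {G : Type*} [AddCommGroup G] [DecidableEq G] :
    ∀ (n : ℕ) (A B : Finset G), B.card = n → (0 : G) ∈ A → (0 : G) ∈ B →
      (∀ a ∈ A, ∀ b ∈ B, a + b = 0 → b = 0) → A.card + B.card ≤ (A + B).card + 1 := by
  intro n
  induction n using Nat.strong_induction_on with
  | _ n ih =>
  intro A B hn hA hB hu
  by_cases hB1 : B = {0}
  · subst hB1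
    simp
  · -- pick a nonzero `b`
    obtain ⟨b, hbB, hb0⟩ : ∃ b ∈ B, b ≠ 0 := by
      by_contra hcon
      push Not at hcon
      apply hB1
      ext x
      simp only [Finset.mem_singleton]
      exact ⟨fun hx => hcon x hx, fun hx => hx ▸ hB⟩
    obtain ⟨a, haA, hab⟩ : ∃ a ∈ A, a + b ∉ A := by
      by_contra hcon
      push Not at hcon
      have himg : A.image (fun x => x + b) = A := by
        apply Finset.eq_of_subset_of_card_le
        · intro x hx
          obtain ⟨y, hy, rfl⟩ := Finset.mem_image.1 hx
          exact hcon y hy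
        · rw [Finset.card_image_of_injective _ (add_left_injective b)]
      have h0 : (0 : G) ∈ A.image (fun x => x + b) := by rw [himg]; exact hA
      obtain ⟨y, hy, hyb⟩ := Finset.mem_image.1 h0
      exact hb0 (hu y hy b hbB hyb)
    set B1 : Finset G := B.filter (fun x => a + x ∉ A) with hB1def
    set B0 : Finset G := B.filter (fun x => a + x ∈ A) with hB0def
    have hcardB : B0.card + B1.card = B.card :=
      Finset.card_filter_add_card_filter_not (s := B) (fun x => a + x ∈ A)
    have hbB1 : b ∈ B1 := Finset.mem_filter.2 ⟨hbB, hab⟩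
    have hB1pos : 0 < B1.card := Finset.card_pos.2 ⟨b, hbB1⟩
    set A1 : Finset G := A ∪ B1.image (fun x => a + x) with hA1def
    have hdisj : Disjoint A (B1.image (fun x => a + x)) := by
      rw [Finset.disjoint_left]
      intro x hx hx'
      obtain ⟨y, hy, rfl⟩ := Finset.mem_image.1 hx'
      exact (Finset.mem_filter.1 hy).2 hx
    have hcardA : A1.card = A.card + B1.card := by
      rw [hA1def, Finset.card_union_of_disjoint hdisj,
        Finset.card_image_of_injective _ (add_right_injective a)]
    have h0B0 : (0 : G) ∈ B0 := Finset.mem_filter.2 ⟨hB, by simpa using haA⟩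
    have h0A1 : (0 : G) ∈ A1 := Finset.mem_union_left _ hA
    have hu1 : ∀ x ∈ A1, ∀ y ∈ B0, x + y = 0 → y = 0 := by
      intro x hx y hy hxy
      have hyB := (Finset.mem_filter.1 hy).1
      have hyA := (Finset.mem_filter.1 hy).2
      rcases Finset.mem_union.1 hx with hx | hx
      · exact hu x hx y hyB hxy
      · obtain ⟨z, hz, rfl⟩ := Finset.mem_image.1 hx
        have hzB := (Finset.mem_filter.1 hz).1
        have hzA := (Finset.mem_filter.1 hz).2
        have h1 : (a + y) + z = 0 := by rw [← hxy]; abel
        have h2 := hu _ hyA z hzB h1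
        subst h2
        exact absurd (by simpa using haA) hzA
    have hsub : A1 + B0 ⊆ A + B := by
      intro x hx
      obtain ⟨u, hu', v, hv, rfl⟩ := Finset.mem_add.1 hx
      have hvB := (Finset.mem_filter.1 hv).1
      have hvA := (Finset.mem_filter.1 hv).2
      rcases Finset.mem_union.1 hu' with hu'' | hu''
      · exact Finset.add_mem_add hu'' hvB
      · obtain ⟨z, hz, rfl⟩ := Finset.mem_image.1 hu''
        have hzB := (Finset.mem_filter.1 hz).1
        have : (a + z) + v = (a + v) + z := by abel
        rw [this]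
        exact Finset.add_mem_add hvA hzB
    have hind := ih B0.card (by omega) A1 B0 rfl h0A1 h0B0 hu1
    have hle := Finset.card_le_card hsub
    omega

/-- Scherk's theorem, general form: if `a₀ + b₀` has only one representation in `A + B`. -/
theorem scherk {G : Type*} [AddCommGroup G] [DecidableEq G] (A B : Finset G) (a₀ b₀ : G)
    (ha : a₀ ∈ A) (hb : b₀ ∈ B) (hu : ∀ a ∈ A, ∀ b ∈ B, a + b = a₀ + b₀ → b = b₀) :
    A.card + B.card ≤ (A + B).card + 1 := by
  have h := scherk_zero (B.image (fun x => x - b₀)).card (A.image (fun x => x - a₀))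
    (B.image (fun x => x - b₀)) rfl
    (Finset.mem_image.2 ⟨a₀, ha, sub_self _⟩) (Finset.mem_image.2 ⟨b₀, hb, sub_self _⟩)
    (by
      intro x hx y hy hxy
      obtain ⟨a, haA, rfl⟩ := Finset.mem_image.1 hx
      obtain ⟨b, hbB, rfl⟩ := Finset.mem_image.1 hy
      have h1 : a + b = a₀ + b₀ := by
        have : a - a₀ + (b - b₀) = (a + b) - (a₀ + b₀) := by abel
        rw [this] at hxy
        exact sub_eq_zero.1 hxy
      rw [hu a haA b hbB h1, sub_self])
  have e1 : (A.image (fun x => x - a₀)).card = A.card :=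
    Finset.card_image_of_injective _ (sub_left_injective)
  have e2 : (B.image (fun x => x - b₀)).card = B.card :=
    Finset.card_image_of_injective _ (sub_left_injective)
  have e3 : (A.image (fun x => x - a₀)) + (B.image (fun x => x - b₀))
      = (A + B).image (fun x => x - (a₀ + b₀)) := by
    ext x
    simp only [Finset.mem_add, Finset.mem_image]
    constructor
    · rintro ⟨_, ⟨a, haA, rfl⟩, _, ⟨b, hbB, rfl⟩, rfl⟩
      exact ⟨a + b, ⟨a, haA, b, hbB, rfl⟩, by abel⟩
    · rintro ⟨_, ⟨a, haA, b, hbB, rfl⟩, rfl⟩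
      exact ⟨a - a₀, ⟨a, haA, rfl⟩, b - b₀, ⟨b, hbB, rfl⟩, by abel⟩
  rw [e1, e2, e3, Finset.card_image_of_injective _ (sub_left_injective)] at h
  exact h

end R93.Scherk
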