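import Mathlib
import Pool.Agent.R93.Scherk

open scoped Pointwise

namespace R93.Avoid

open Classical in
/-- labels of the bases `N ≠ S` with `K ⊆ N ⊆ A ∪ S` -/
noncomputable def Lab {α Γ : Type*} [AddCommGroup Γ] (M : Matroid α) (ψ : α → Γ)
    (S A K : Finset α) : Finset Γ :=
  ((A ∪ S).powerset.filter (fun N : Finset α => M.IsBase (N : Set α) ∧ K ⊆ N ∧ N ≠ S)).image
    (fun N : Finset α => ∑ e ∈ N, ψ e)

open Classical in
lemma mem_Lab {α Γ : Type*} [AddCommGroup Γ] {M : Matroid α} {ψ : α → Γ}
    {S A K : Finset α} {x : Γ} : x ∈ Lab M ψ S A K ↔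
      ∃ N : Finset α, N ⊆ A ∪ S ∧ M.IsBase (N : Set α) ∧ K ⊆ N ∧ N ≠ S ∧ ∑ e ∈ N, ψ e = x := by
  unfold Lab
  simp only [Finset.mem_image, Finset.mem_filter, Finset.mem_powerset]
  constructor
  · rintro ⟨N, ⟨h1, h2, h3, h4⟩, h5⟩
    exact ⟨N, h1, h2, h3, h4, h5⟩
  · rintro ⟨N, h1, h2, h3, h4, h5⟩
    exact ⟨N, ⟨h1, h2, h3, h4⟩, h5⟩

/-- the rank of a set, as a natural number -/
noncomputable def rk {α : Type*} (M : Matroid α) (X : Set α) : ℕ := (M.eRk X).toNat

lemma coe_rk {α : Type*} (M : Matroid α) (X : Set α) (hX : X.Finite) :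
    (rk M X : ℕ∞) = M.eRk X := by
  unfold rk
  rw [ENat.natCast_toNat]
  exact ne_top_of_le_ne_top (Set.encard_ne_top_iff.2 hX) (M.eRk_le_encard X)

open Classical in
lemma rk_insert {α : Type*} (M : Matroid α) (X : Set α) (hX : X.Finite) {b : α} (hb : b ∈ M.E) :
    rk M (insert b X) + (if b ∈ M.closure X then 1 else 0) = rk M X + 1 := by
  have h1 := coe_rk M X hX
  have h2 := coe_rk M (insert b X) (hX.insert b)
  by_cases h : b ∈ M.closure X
  · rw [if_pos h]
    have : M.eRk (insert b X) = M.eRk X := by
      rw [← M.eRk_closure_eq (insert b X), M.closure_insert_eq_of_mem_closure h,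
        M.eRk_closure_eq]
    rw [this, ← h1] at h2
    have h3 : rk M (insert b X) = rk M X := by exact_mod_cast h2
    omega
  · rw [if_neg h]
    have : M.eRk (insert b X) = M.eRk X + 1 := M.eRk_insert_eq_add_one ⟨hb, h⟩
    rw [this, ← h1] at h2
    have h3 : rk M (insert b X) = rk M X + 1 := by exact_mod_cast h2
    omega

open Classical in
theorem core {α Γ : Type*} [AddCommGroup Γ] (M : Matroid α) (ψ : α → Γ)
    (S A : Finset α) (hS : M.IsBase (S : Set α)) (hA : (A : Set α) ⊆ M.E) (hdisj : Disjoint A S) :
    ∀ (n : ℕ) (K : Finset α), K ⊆ S → (S \ K).card = n → (∑ e ∈ S, ψ e) ∉ Lab M ψ S A K →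
      ∑ g ∈ A.image ψ, rk M (((A.filter (fun a => ψ a = g) : Finset α) : Set α) ∪ (K : Set α))
        ≤ (Lab M ψ S A K).card + (A.image ψ).card * K.card := by
  intro n
  induction n with
  | zero =>
    intro K hK hn _
    have hKS : K = S := by
      apply Finset.Subset.antisymm hK
      rw [Finset.card_eq_zero, Finset.sdiff_eq_empty_iff_subset] at hn
      exact hn
    subst hKS
    have : ∀ g ∈ A.image ψ,
        rk M (((A.filter (fun a => ψ a = g) : Finset α) : Set α) ∪ (K : Set α)) ≤ K.card := by
      intro g _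
      have h1 : M.eRk (((A.filter (fun a => ψ a = g) : Finset α) : Set α) ∪ (K : Set α))
          ≤ (K.card : ℕ∞) := by
        calc _ ≤ M.eRank := M.eRk_le_eRank _
          _ = (K : Set α).encard := hS.encard_eq_eRank.symm
          _ = _ := Set.encard_coe_eq_coe_finsetCard K
      have h2 := coe_rk M (((A.filter (fun a => ψ a = g) : Finset α) : Set α) ∪ (K : Set α))
        (((A.filter (fun a => ψ a = g)).finite_toSet).union K.finite_toSet)
      rw [← h2] at h1
      exact_mod_cast h1
    calc _ ≤ ∑ g ∈ A.image ψ, K.card := Finset.sum_le_sum this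
      _ = (A.image ψ).card * K.card := by rw [Finset.sum_const, smul_eq_mul]
      _ ≤ _ := Nat.le_add_left _ _
  | succ n ih =>
    intro K hK hn hc
    obtain ⟨b, hb⟩ : (S \ K).Nonempty := by
      rw [← Finset.card_pos]; omega
    have hbS : b ∈ S := (Finset.mem_sdiff.1 hb).1
    have hbK : b ∉ K := (Finset.mem_sdiff.1 hb).2
    have hbE : b ∈ M.E := hS.subset_ground (Finset.mem_coe.2 hbS)
    have hK1 : insert b K ⊆ S := Finset.insert_subset hbS hK
    have hn1 : (S \ insert b K).card = n := by
      have : S \ insert b K = (S \ K).erase b := by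
        ext x; simp only [Finset.mem_sdiff, Finset.mem_insert, Finset.mem_erase]; tauto
      rw [this, Finset.card_erase_of_mem hb, hn]; rfl
    have hsubLab : Lab M ψ S A (insert b K) ⊆ Lab M ψ S A K := by
      intro x hx
      obtain ⟨N, h1, h2, h3, h4, h5⟩ := mem_Lab.1 hx
      exact mem_Lab.2 ⟨N, h1, h2, (Finset.subset_insert b K).trans h3, h4, h5⟩
    have hc1 : (∑ e ∈ S, ψ e) ∉ Lab M ψ S A (insert b K) := fun h => hc (hsubLab h)
    have hind := ih (insert b K) hK1 hn1 hc1
    set c : Γ := ∑ e ∈ S, ψ e with hcdef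
    set W : Finset Γ := (A.image ψ).filter
      (fun g => b ∈ M.closure (((A.filter (fun a => ψ a = g) : Finset α) : Set α) ∪ (K : Set α)))
      with hWdef
    -- the exchange
    have hexch : ∀ N : Finset α, N ⊆ A ∪ S → M.IsBase (N : Set α) → insert b K ⊆ N → ∀ g ∈ W,
        (∑ e ∈ N, ψ e) - ψ b + g ∈ Lab M ψ S A K := by
      intro N hNU hN hKN g hg
      have hgW := (Finset.mem_filter.1 hg).2
      have hbN : b ∈ N := hKN (Finset.mem_insert_self b K)
      have hKNb : (K : Set α) ⊆ (N : Set α) \ {b} := by
        intro x hx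
        refine ⟨hKN (Finset.mem_insert_of_mem hx), ?_⟩
        rintro rfl
        exact hbK hx
      have hbcl : b ∉ M.closure ((N : Set α) \ {b}) :=
        hN.indep.notMem_closure_sdiff_of_mem hbN
      obtain ⟨x, hxA, hxcl⟩ : ∃ x ∈ A.filter (fun a => ψ a = g),
          x ∉ M.closure ((N : Set α) \ {b}) := by
        by_contra hcon
        push Not at hcon
        apply hbcl
        have hsub : ((A.filter (fun a => ψ a = g) : Finset α) : Set α) ∪ (K : Set α)
            ⊆ M.closure ((N : Set α) \ {b}) := by
          apply Set.union_subset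
          · intro y hy; exact hcon y hy
          · exact hKNb.trans (M.subset_closure _ (Set.sdiff_subset.trans hN.subset_ground))
        have := M.closure_subset_closure_of_subset_closure hsub
        exact this hgW
      obtain ⟨hxA', hxg⟩ := Finset.mem_filter.1 hxA
      have hxE : x ∈ M.E := hA (Finset.mem_coe.2 hxA')
      have hbase : M.IsBase (insert x ((N : Set α) \ {b})) :=
        hN.exchange_base_of_notMem_closure hbN hxcl hxE
      have hxS : x ∉ S := Finset.disjoint_left.1 hdisj hxA'
      have hxNb : x ∉ N.erase b := by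
        intro hx
        apply hxcl
        apply M.subset_closure _ (Set.sdiff_subset.trans hN.subset_ground)
        rw [Finset.mem_erase] at hx
        exact ⟨hx.2, hx.1⟩
      refine mem_Lab.2 ⟨insert x (N.erase b), ?_, ?_, ?_, ?_, ?_⟩
      · apply Finset.insert_subset (Finset.mem_union_left _ hxA')
        exact (Finset.erase_subset _ _).trans hNU
      · have : ((insert x (N.erase b) : Finset α) : Set α) = insert x ((N : Set α) \ {b}) := by
          push_cast; rfl
        rw [this]; exact hbase
      · intro y hy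
        apply Finset.mem_insert_of_mem
        rw [Finset.mem_erase]
        refine ⟨?_, hKN (Finset.mem_insert_of_mem hy)⟩
        rintro rfl
        exact hbK hy
      · intro h
        apply hxS
        rw [← h]
        exact Finset.mem_insert_self _ _
      · rw [Finset.sum_insert hxNb, hxg, ← Finset.add_sum_erase N ψ hbN]
        abel
    -- Scherk
    set L1 : Finset Γ := insert c (Lab M ψ S A (insert b K)) with hL1def
    set X : Finset Γ := L1.image (fun l => l - ψ b) with hXdef
    set Y : Finset Γ := insert (ψ b) W with hYdef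
    have hL1 : ∀ l ∈ L1, ∃ N : Finset α, N ⊆ A ∪ S ∧ M.IsBase (N : Set α) ∧ insert b K ⊆ N ∧
        ∑ e ∈ N, ψ e = l := by
      intro l hl
      rcases Finset.mem_insert.1 hl with rfl | hl
      · exact ⟨S, Finset.subset_union_right, hS, hK1, rfl⟩
      · obtain ⟨N, h1, h2, h3, h4, h5⟩ := mem_Lab.1 hl
        exact ⟨N, h1, h2, h3, h5⟩
    have hbW : ψ b ∉ W := by
      intro h
      have := hexch S Finset.subset_union_right hS hK1 (ψ b) h
      rw [sub_add_cancel] at this
      exact hc this
    have hXY : X + Y ⊆ insert c (Lab M ψ S A K) := by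
      intro z hz
      obtain ⟨x, hx, y, hy, rfl⟩ := Finset.mem_add.1 hz
      obtain ⟨l, hl, rfl⟩ := Finset.mem_image.1 hx
      rcases Finset.mem_insert.1 hy with rfl | hy
      · rw [sub_add_cancel]
        rcases Finset.mem_insert.1 hl with rfl | hl
        · exact Finset.mem_insert_self _ _
        · exact Finset.mem_insert_of_mem (hsubLab hl)
      · obtain ⟨N, h1, h2, h3, h5⟩ := hL1 l hl
        apply Finset.mem_insert_of_mem
        rw [← h5]
        exact hexch N h1 h2 h3 y hy
    have hsch := R93.Scherk.scherk X Y (c - ψ b) (ψ b)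
      (Finset.mem_image.2 ⟨c, Finset.mem_insert_self _ _, rfl⟩) (Finset.mem_insert_self _ _)
      (by
        intro x hx y hy hxy
        rcases Finset.mem_insert.1 hy with rfl | hy
        · rfl
        · exfalso
          obtain ⟨l, hl, rfl⟩ := Finset.mem_image.1 hx
          obtain ⟨N, h1, h2, h3, h5⟩ := hL1 l hl
          have := hexch N h1 h2 h3 y hy
          rw [h5, hxy, sub_add_cancel] at this
          exact hc this)
    have hXcard : X.card = (Lab M ψ S A (insert b K)).card + 1 := by
      rw [hXdef, Finset.card_image_of_injective _ sub_left_injective, hL1def,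
        Finset.card_insert_of_notMem hc1]
    have hYcard : Y.card = W.card + 1 := Finset.card_insert_of_notMem hbW
    have hXYcard : (X + Y).card ≤ (Lab M ψ S A K).card + 1 :=
      (Finset.card_le_card hXY).trans (Finset.card_insert_le _ _)
    -- ranks
    have hrank : ∑ g ∈ A.image ψ,
          rk M (((A.filter (fun a => ψ a = g) : Finset α) : Set α) ∪ ((insert b K : Finset α) : Set α))
          + W.card
        = ∑ g ∈ A.image ψ,
          rk M (((A.filter (fun a => ψ a = g) : Finset α) : Set α) ∪ (K : Set α))
          + (A.image ψ).card := by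
      have hW : W.card = ∑ g ∈ A.image ψ, (if b ∈ M.closure
          (((A.filter (fun a => ψ a = g) : Finset α) : Set α) ∪ (K : Set α)) then 1 else 0) := by
        rw [hWdef, Finset.card_filter]
      rw [hW, ← Finset.sum_add_distrib, Finset.card_eq_sum_ones, ← Finset.sum_add_distrib]
      apply Finset.sum_congr rfl
      intro g _
      have := rk_insert M (((A.filter (fun a => ψ a = g) : Finset α) : Set α) ∪ (K : Set α))
        (((A.filter (fun a => ψ a = g)).finite_toSet).union K.finite_toSet) hbE
      rw [← this]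
      congr 2
      rw [Finset.coe_insert, Set.union_insert]
    have hKcard : (insert b K).card = K.card + 1 := Finset.card_insert_of_notMem hbK
    rw [hKcard] at hind
    have hmul : (A.image ψ).card * (K.card + 1) = (A.image ψ).card * K.card + (A.image ψ).card := by
      ring
    rw [hmul] at hind
    omega

open Classical in
/-- If the base `S` is the only base in between `B ∩ S` and `B ∪ S` with its label, then the other
such bases have at least `|B \ S|` labels. -/
theorem card_le_Lab {α Γ : Type*} [AddCommGroup Γ] (M : Matroid α) (ψ : α → Γ)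
    (S B : Finset α) (hS : M.IsBase (S : Set α)) (hB : M.IsBase (B : Set α))
    (hc : (∑ e ∈ S, ψ e) ∉ Lab M ψ S (B \ S) (B ∩ S)) :
    (B \ S).card ≤ (Lab M ψ S (B \ S) (B ∩ S)).card := by
  have hA : ((B \ S : Finset α) : Set α) ⊆ M.E :=
    (Finset.coe_subset.2 Finset.sdiff_subset).trans hB.subset_ground
  have h := core M ψ S (B \ S) hS hA Finset.sdiff_disjoint _ (B ∩ S) Finset.inter_subset_right rfl hc
  have hr : ∀ g ∈ (B \ S).image ψ, rk M ((((B \ S).filter (fun a => ψ a = g) : Finset α) : Set α) ∪
      ((B ∩ S : Finset α) : Set α)) = ((B \ S).filter (fun a => ψ a = g)).card + (B ∩ S).card := by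
    intro g _
    rw [← Finset.coe_union]
    have hind : M.Indep (((B \ S).filter (fun a => ψ a = g) ∪ (B ∩ S) : Finset α) : Set α) := by
      apply hB.indep.subset
      rw [Finset.coe_subset]
      exact Finset.union_subset ((Finset.filter_subset _ _).trans Finset.sdiff_subset)
        Finset.inter_subset_left
    have h1 := coe_rk M _ (((B \ S).filter (fun a => ψ a = g) ∪ (B ∩ S)).finite_toSet)
    rw [hind.eRk_eq_encard, Set.encard_coe_eq_coe_finsetCard] at h1
    have h2 : rk M (((B \ S).filter (fun a => ψ a = g) ∪ (B ∩ S) : Finset α) : Set α)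
        = ((B \ S).filter (fun a => ψ a = g) ∪ (B ∩ S)).card := by exact_mod_cast h1
    rw [h2]
    apply Finset.card_union_of_disjoint
    rw [Finset.disjoint_left]
    intro x hx hx'
    exact (Finset.mem_sdiff.1 (Finset.mem_filter.1 hx).1).2 (Finset.mem_inter.1 hx').2
  rw [Finset.sum_congr rfl hr, Finset.sum_add_distrib, Finset.sum_const, smul_eq_mul] at h
  have hcard : (B \ S).card = ∑ g ∈ (B \ S).image ψ, ((B \ S).filter (fun a => ψ a = g)).card :=
    Finset.card_eq_sum_card_image ψ (B \ S)
  omega

end R93.Avoid
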