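import Mathlib

namespace R93.Cyc

/-- zigzag: even positions `A, A+1, A+2, …`, odd positions `B, B+1, …` -/
def z (A B : ℤ) (i : ℕ) : ℤ := if i % 2 = 0 then A + ((i / 2 : ℕ) : ℤ) else B + ((i / 2 : ℕ) : ℤ)

lemma z_even (A B : ℤ) (j : ℕ) : z A B (2 * j) = A + j := by
  unfold z; rw [if_pos (by omega)]; congr 2; omega

lemma z_odd (A B : ℤ) (j : ℕ) : z A B (2 * j + 1) = B + j := by
  unfold z; rw [if_neg (by omega)]; congr 2; omega

lemma sum_z_even (A B : ℤ) (m : ℕ) :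
    ∑ i ∈ Finset.range (2 * m), z A B i = m * (A + B) + m * (m - 1) := by
  induction m with
  | zero => simp
  | succ n ih =>
    rw [show 2 * (n + 1) = 2 * n + 1 + 1 by ring, Finset.sum_range_succ, Finset.sum_range_succ, ih,
      z_even, z_odd]
    push_cast; ring

lemma sum_z_odd (A B : ℤ) (m : ℕ) :
    ∑ i ∈ Finset.range (2 * m + 1), z A B i = m * (A + B) + m * (m - 1) + A + m := by
  rw [Finset.sum_range_succ, sum_z_even, z_even]; ring

/-- the residue class of `a` (up to sign) is hit by a term or by a cyclically consecutive sum -/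
def Hit (k : ℕ) (X : ℕ → ℤ) (a : ℕ) : Prop := ∃ i, i < k ∧ ∃ c : ℤ,
    X i = a + c * (4 * k + 1) ∨ X i = -a + c * (4 * k + 1) ∨
    X i + (if i + 1 = k then X 0 else X (i + 1)) = a + c * (4 * k + 1) ∨
    X i + (if i + 1 = k then X 0 else X (i + 1)) = -a + c * (4 * k + 1)

lemma hit_v {k : ℕ} {X : ℕ → ℤ} {a : ℕ} (i : ℕ) (hi : i < k) {u : ℤ} (hu : X i = u) (c : ℤ)
    (h : u = a + c * (4 * k + 1) ∨ u = -a + c * (4 * k + 1)) : Hit k X a := by
  refine ⟨i, hi, c, ?_⟩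
  rw [hu]
  tauto

lemma hit_s {k : ℕ} {X : ℕ → ℤ} {a : ℕ} (i j : ℕ) (hi : i + 1 < k) (hj : j = i + 1) {u v : ℤ}
    (hu : X i = u) (hv : X j = v) (c : ℤ)
    (h : u + v = a + c * (4 * k + 1) ∨ u + v = -a + c * (4 * k + 1)) : Hit k X a := by
  subst hj
  refine ⟨i, by omega, c, ?_⟩
  rw [if_neg (by omega), hu, hv]
  tauto

lemma hit_w {k : ℕ} {X : ℕ → ℤ} {a : ℕ} (i : ℕ) (hi : i + 1 = k) {u v : ℤ}
    (hu : X i = u) (hv : X 0 = v) (c : ℤ)
    (h : u + v = a + c * (4 * k + 1) ∨ u + v = -a + c * (4 * k + 1)) : Hit k X a := by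
  refine ⟨i, by omega, c, ?_⟩
  rw [if_pos hi, hu, hv]
  tauto

/-- the covering and coprimality conditions for an integer sequence -/
structure Good (k : ℕ) (X : ℕ → ℤ) : Prop where
  cov : ∀ a : ℕ, 1 ≤ a → a ≤ 2 * k → Hit k X a
  cop : IsCoprime (∑ i ∈ Finset.range k, X i) (4 * k + 1 : ℤ)

/-! ### `k = 4 l` -/

/-- family for `k = 4 l` -/
def X0 (l : ℕ) (i : ℕ) : ℤ :=
  if i < 2 * l - 2 then z (7 * l + 1) (-5 * l + 1) i
  else if i = 2 * l - 2 then -4 * l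
  else if i < 4 * l - 2 then z (6 * l + 1) (-6 * l) (i - (2 * l - 1))
  else if i = 4 * l - 2 then -2 * l
  else 4 * l - 1

lemma X0_a {l j : ℕ} (h : j + 1 < l) : X0 l (2 * j) = 7 * l + 1 + j := by
  unfold X0; rw [if_pos (by omega), z_even]

lemma X0_b {l j : ℕ} (h : j + 1 < l) : X0 l (2 * j + 1) = -5 * l + 1 + j := by
  unfold X0; rw [if_pos (by omega), z_odd]

lemma X0_c {l : ℕ} : X0 l (2 * l - 2) = -4 * l := by
  unfold X0; rw [if_neg (by omega), if_pos rfl]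

lemma X0_d {l j : ℕ} (h : j < l) : X0 l (2 * l - 1 + 2 * j) = 6 * l + 1 + j := by
  unfold X0
  rw [if_neg (by omega), if_neg (by omega), if_pos (by omega),
    show 2 * l - 1 + 2 * j - (2 * l - 1) = 2 * j by omega, z_even]

lemma X0_e {l j : ℕ} (h : j + 1 < l) : X0 l (2 * l - 1 + (2 * j + 1)) = -6 * l + j := by
  unfold X0
  rw [if_neg (by omega), if_neg (by omega), if_pos (by omega),
    show 2 * l - 1 + (2 * j + 1) - (2 * l - 1) = 2 * j + 1 by omega, z_odd]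

lemma X0_f {l : ℕ} (h : 2 ≤ l) : X0 l (4 * l - 2) = -2 * l := by
  unfold X0
  rw [if_neg (by omega), if_neg (by omega), if_neg (by omega), if_pos rfl]

lemma X0_g {l : ℕ} (h : 2 ≤ l) : X0 l (4 * l - 1) = 4 * l - 1 := by
  unfold X0
  rw [if_neg (by omega), if_neg (by omega), if_neg (by omega), if_neg (by omega)]

lemma cov0 (l : ℕ) (hl : 2 ≤ l) (a : ℕ) (ha1 : 1 ≤ a) (ha2 : a ≤ 2 * (4 * l)) :
    Hit (4 * l) (X0 l) a := by
  by_cases h1 : a ≤ 2 * l - 2
  · rcases Nat.even_or_odd' a with ⟨j, rfl | rfl⟩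
    · exact hit_s (2 * l - 1 + (2 * (j - 1) + 1)) (2 * l - 1 + 2 * j) (by omega) (by omega)
        (X0_e (by omega)) (X0_d (by omega)) 0 (by omega)
    · exact hit_s (2 * l - 1 + 2 * j) (2 * l - 1 + (2 * j + 1)) (by omega) (by omega)
        (X0_d (by omega)) (X0_e (by omega)) 0 (by omega)
  by_cases h2 : a = 2 * l - 1
  · exact hit_s (4 * l - 2) (4 * l - 1) (by omega) (by omega) (X0_f hl) (X0_g hl) 0 (by omega)
  by_cases h3 : a = 2 * l
  · exact hit_v (4 * l - 2) (by omega) (X0_f hl) 0 (by omega)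
  by_cases h4 : a = 2 * l + 1
  · exact hit_s (2 * l - 2) (2 * l - 1 + 2 * 0) (by omega) (by omega) X0_c (X0_d (by omega)) 0
      (by omega)
  by_cases h5 : a ≤ 4 * l - 2
  · obtain ⟨b, rfl⟩ : ∃ b, a = 2 * l + 2 + b := ⟨a - (2 * l + 2), by omega⟩
    rcases Nat.even_or_odd' b with ⟨j, rfl | rfl⟩
    · exact hit_s (2 * j) (2 * j + 1) (by omega) (by omega) (X0_a (by omega)) (X0_b (by omega)) 0
        (by omega)
    · exact hit_s (2 * j + 1) (2 * (j + 1)) (by omega) (by omega) (X0_b (by omega))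
        (X0_a (by omega)) 0 (by omega)
  by_cases h6 : a = 4 * l - 1
  · exact hit_v (4 * l - 1) (by omega) (X0_g hl) 0 (by omega)
  by_cases h7 : a = 4 * l
  · exact hit_v (2 * l - 2) (by omega) X0_c 0 (by omega)
  by_cases h8 : a ≤ 5 * l - 1
  · exact hit_v (2 * (5 * l - 1 - a) + 1) (by omega) (X0_b (by omega)) 0 (by omega)
  by_cases h9 : a = 5 * l
  · exact hit_s (2 * l - 1 + 2 * (l - 1)) (4 * l - 2) (by omega) (by omega) (X0_d (by omega))
      (X0_f hl) 0 (by omega)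
  by_cases h10 : a = 5 * l + 1
  · exact hit_w (4 * l - 1) (by omega) (X0_g hl) (X0_a (j := 0) (by omega)) 1 (by omega)
  by_cases h11 : a ≤ 6 * l
  · exact hit_v (2 * l - 1 + (2 * (6 * l - a) + 1)) (by omega) (X0_e (by omega)) 0 (by omega)
  by_cases h12 : a ≤ 7 * l
  · exact hit_v (2 * l - 1 + 2 * (a - 6 * l - 1)) (by omega) (X0_d (by omega)) 0 (by omega)
  by_cases h13 : a ≤ 8 * l - 1
  · exact hit_v (2 * (a - 7 * l - 1)) (by omega) (X0_a (by omega)) 0 (by omega)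
  · exact hit_s (2 * (l - 2) + 1) (2 * l - 2) (by omega) (by omega) (X0_b (by omega)) X0_c (-1)
      (by omega)

lemma sum0 (l : ℕ) (hl : 2 ≤ l) : ∑ i ∈ Finset.range (4 * l), X0 l i = 4 * (l : ℤ) ^ 2 := by
  obtain ⟨m, rfl⟩ : ∃ m, l = m + 1 := ⟨l - 1, by omega⟩
  have hm : 1 ≤ m := by omega
  rw [show 4 * (m + 1) = 2 * m + (1 + ((2 * m + 1) + 2)) by ring,
    Finset.sum_range_add, Finset.sum_range_add, Finset.sum_range_add]
  have e1 : ∑ x ∈ Finset.range (2 * m), X0 (m + 1) x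
      = ∑ x ∈ Finset.range (2 * m), z (7 * ((m + 1 : ℕ) : ℤ) + 1) (-5 * ((m + 1 : ℕ) : ℤ) + 1) x := by
    apply Finset.sum_congr rfl
    intro x hx
    rw [Finset.mem_range] at hx
    unfold X0
    rw [if_pos (by omega)]
  have e2 : ∑ x ∈ Finset.range (2 * m + 1), X0 (m + 1) (2 * m + (1 + x))
      = ∑ x ∈ Finset.range (2 * m + 1), z (6 * ((m + 1 : ℕ) : ℤ) + 1) (-6 * ((m + 1 : ℕ) : ℤ)) x := by
    apply Finset.sum_congr rfl
    intro x hx
    rw [Finset.mem_range] at hx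
    unfold X0
    rw [if_neg (by omega), if_neg (by omega), if_pos (by omega)]
    congr 1
    omega
  have e3 : X0 (m + 1) (2 * m) = -4 * ((m + 1 : ℕ) : ℤ) := X0_c (l := m + 1)
  have e4 : X0 (m + 1) (2 * m + (1 + (2 * m + 1))) = -2 * ((m + 1 : ℕ) : ℤ) := by
    have := X0_f (l := m + 1) hl
    rwa [show 4 * (m + 1) - 2 = 2 * m + (1 + (2 * m + 1)) by omega] at this
  have e5 : X0 (m + 1) (2 * m + (1 + (2 * m + 1 + 1))) = 4 * ((m + 1 : ℕ) : ℤ) - 1 := by
    have := X0_g (l := m + 1) hl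
    rwa [show 4 * (m + 1) - 1 = 2 * m + (1 + (2 * m + 1 + 1)) by omega] at this
  rw [e1, e2, sum_z_even, sum_z_odd]
  simp only [Finset.sum_range_succ, Finset.sum_range_zero, add_zero, zero_add, e3, e4, e5]
  push_cast
  ring

lemma good0 (l : ℕ) (hl : 2 ≤ l) : Good (4 * l) (X0 l) := by
  refine ⟨cov0 l hl, ?_⟩
  rw [sum0 l hl]
  refine ⟨64, 1 - 16 * l, ?_⟩
  push_cast
  ring

/-! ### `k = 4 l + 1` -/

/-- family for `k = 4 l + 1` -/
def X1 (l : ℕ) (i : ℕ) : ℤ :=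
  if i < 2 * l - 2 then z (4 * l + 3) (-8 * l - 2) i
  else if i < 4 * l - 4 then z (-7 * l) (5 * l + 2) (i - (2 * l - 2))
  else if i = 4 * l - 4 then -2 * l
  else if i = 4 * l - 3 then -7 * l - 2
  else if i = 4 * l - 2 then -2 * l - 2
  else if i = 4 * l - 1 then -2 * l + 1
  else -4 * l - 2

lemma X1_a {l j : ℕ} (h : j + 1 < l) : X1 l (2 * j) = 4 * l + 3 + j := by
  unfold X1; rw [if_pos (by omega), z_even]

lemma X1_b {l j : ℕ} (h : j + 1 < l) : X1 l (2 * j + 1) = -8 * l - 2 + j := by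
  unfold X1; rw [if_pos (by omega), z_odd]

lemma X1_c {l j : ℕ} (h : j + 1 < l) : X1 l (2 * l - 2 + 2 * j) = -7 * l + j := by
  unfold X1
  rw [if_neg (by omega), if_pos (by omega),
    show 2 * l - 2 + 2 * j - (2 * l - 2) = 2 * j by omega, z_even]

lemma X1_d {l j : ℕ} (h : j + 1 < l) : X1 l (2 * l - 2 + (2 * j + 1)) = 5 * l + 2 + j := by
  unfold X1
  rw [if_neg (by omega), if_pos (by omega),
    show 2 * l - 2 + (2 * j + 1) - (2 * l - 2) = 2 * j + 1 by omega, z_odd]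

lemma X1_e {l : ℕ} (h : 2 ≤ l) : X1 l (4 * l - 4) = -2 * l := by
  unfold X1
  rw [if_neg (by omega), if_neg (by omega), if_pos rfl]

lemma X1_f {l : ℕ} (h : 2 ≤ l) : X1 l (4 * l - 3) = -7 * l - 2 := by
  unfold X1
  rw [if_neg (by omega), if_neg (by omega), if_neg (by omega), if_pos rfl]

lemma X1_g {l : ℕ} (h : 2 ≤ l) : X1 l (4 * l - 2) = -2 * l - 2 := by
  unfold X1
  rw [if_neg (by omega), if_neg (by omega), if_neg (by omega), if_neg (by omega), if_pos rfl]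

lemma X1_h {l : ℕ} (h : 2 ≤ l) : X1 l (4 * l - 1) = -2 * l + 1 := by
  unfold X1
  rw [if_neg (by omega), if_neg (by omega), if_neg (by omega), if_neg (by omega),
    if_neg (by omega), if_pos rfl]

lemma X1_i {l : ℕ} (h : 2 ≤ l) : X1 l (4 * l) = -4 * l - 2 := by
  unfold X1
  rw [if_neg (by omega), if_neg (by omega), if_neg (by omega), if_neg (by omega),
    if_neg (by omega), if_neg (by omega)]

lemma cov1 (l : ℕ) (hl : 2 ≤ l) (a : ℕ) (ha1 : 1 ≤ a) (ha2 : a ≤ 2 * (4 * l + 1)) :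
    Hit (4 * l + 1) (X1 l) a := by
  by_cases h0 : a = 1
  · exact hit_w (4 * l) (by omega) (X1_i hl) (X1_a (j := 0) (by omega)) 0 (by omega)
  by_cases h1 : a ≤ 2 * l - 2
  · obtain ⟨b, hb⟩ : ∃ b, b + a = 2 * l - 2 := ⟨2 * l - 2 - a, by omega⟩
    rcases Nat.even_or_odd' b with ⟨j, rfl | rfl⟩
    · exact hit_s (2 * l - 2 + 2 * j) (2 * l - 2 + (2 * j + 1)) (by omega) (by omega)
        (X1_c (by omega)) (X1_d (by omega)) 0 (by omega)
    · exact hit_s (2 * l - 2 + (2 * j + 1)) (2 * l - 2 + 2 * (j + 1)) (by omega) (by omega)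
        (X1_d (by omega)) (X1_c (by omega)) 0 (by omega)
  by_cases h2 : a = 2 * l - 1
  · exact hit_v (4 * l - 1) (by omega) (X1_h hl) 0 (by omega)
  by_cases h3 : a = 2 * l
  · exact hit_v (4 * l - 4) (by omega) (X1_e hl) 0 (by omega)
  by_cases h4 : a = 2 * l + 1
  · exact hit_s (2 * (l - 2) + 1) (2 * l - 2 + 2 * 0) (by omega) (by omega) (X1_b (by omega))
      (X1_c (by omega)) (-1) (by omega)
  by_cases h5 : a = 2 * l + 2
  · exact hit_v (4 * l - 2) (by omega) (X1_g hl) 0 (by omega)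
  by_cases h6 : a ≤ 4 * l - 1
  · obtain ⟨b, hb⟩ : ∃ b, b + a = 4 * l - 1 := ⟨4 * l - 1 - a, by omega⟩
    rcases Nat.even_or_odd' b with ⟨j, rfl | rfl⟩
    · exact hit_s (2 * j) (2 * j + 1) (by omega) (by omega) (X1_a (by omega)) (X1_b (by omega)) 0
        (by omega)
    · exact hit_s (2 * j + 1) (2 * (j + 1)) (by omega) (by omega) (X1_b (by omega))
        (X1_a (by omega)) 0 (by omega)
  by_cases h7 : a = 4 * l
  · exact hit_s (2 * l - 2 + (2 * (l - 2) + 1)) (4 * l - 4) (by omega) (by omega)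
      (X1_d (by omega)) (X1_e hl) 0 (by omega)
  by_cases h8 : a = 4 * l + 1
  · exact hit_s (4 * l - 2) (4 * l - 1) (by omega) (by omega) (X1_g hl) (X1_h hl) 0 (by omega)
  by_cases h9 : a = 4 * l + 2
  · exact hit_v (4 * l) (by omega) (X1_i hl) 0 (by omega)
  by_cases h10 : a ≤ 5 * l + 1
  · exact hit_v (2 * (a - 4 * l - 3)) (by omega) (X1_a (by omega)) 0 (by omega)
  by_cases h11 : a ≤ 6 * l
  · exact hit_v (2 * l - 2 + (2 * (a - 5 * l - 2) + 1)) (by omega) (X1_d (by omega)) 0 (by omega)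
  by_cases h12 : a = 6 * l + 1
  · exact hit_s (4 * l - 1) (4 * l) (by omega) (by omega) (X1_h hl) (X1_i hl) 0 (by omega)
  by_cases h13 : a ≤ 7 * l
  · exact hit_v (2 * l - 2 + 2 * (7 * l - a)) (by omega) (X1_c (by omega)) 0 (by omega)
  by_cases h14 : a = 7 * l + 1
  · exact hit_s (4 * l - 3) (4 * l - 2) (by omega) (by omega) (X1_f hl) (X1_g hl) (-1) (by omega)
  by_cases h15 : a = 7 * l + 2
  · exact hit_v (4 * l - 3) (by omega) (X1_f hl) 0 (by omega)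
  by_cases h16 : a = 7 * l + 3
  · exact hit_s (4 * l - 4) (4 * l - 3) (by omega) (by omega) (X1_e hl) (X1_f hl) (-1) (by omega)
  · exact hit_v (2 * (8 * l + 2 - a) + 1) (by omega) (X1_b (by omega)) 0 (by omega)

lemma sum1 (l : ℕ) (hl : 2 ≤ l) :
    ∑ i ∈ Finset.range (4 * l + 1), X1 l i = -4 * (l : ℤ) ^ 2 - 14 * l - 4 := by
  obtain ⟨m, rfl⟩ : ∃ m, l = m + 1 := ⟨l - 1, by omega⟩
  have hm : 1 ≤ m := by omega
  rw [show 4 * (m + 1) + 1 = 2 * m + (2 * m + 5) by ring,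
    Finset.sum_range_add, Finset.sum_range_add]
  have e1 : ∑ x ∈ Finset.range (2 * m), X1 (m + 1) x
      = ∑ x ∈ Finset.range (2 * m), z (4 * ((m + 1 : ℕ) : ℤ) + 3) (-8 * ((m + 1 : ℕ) : ℤ) - 2) x := by
    apply Finset.sum_congr rfl
    intro x hx
    rw [Finset.mem_range] at hx
    unfold X1
    rw [if_pos (by omega)]
  have e2 : ∑ x ∈ Finset.range (2 * m), X1 (m + 1) (2 * m + x)
      = ∑ x ∈ Finset.range (2 * m), z (-7 * ((m + 1 : ℕ) : ℤ)) (5 * ((m + 1 : ℕ) : ℤ) + 2) x := by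
    apply Finset.sum_congr rfl
    intro x hx
    rw [Finset.mem_range] at hx
    unfold X1
    rw [if_neg (by omega), if_pos (by omega)]
    congr 1
    omega
  have e3 : X1 (m + 1) (2 * m + (2 * m)) = -2 * ((m + 1 : ℕ) : ℤ) := by
    have := X1_e (l := m + 1) hl
    rwa [show 4 * (m + 1) - 4 = 2 * m + (2 * m) by omega] at this
  have e4 : X1 (m + 1) (2 * m + (2 * m + 1)) = -7 * ((m + 1 : ℕ) : ℤ) - 2 := by
    have := X1_f (l := m + 1) hl
    rwa [show 4 * (m + 1) - 3 = 2 * m + (2 * m + 1) by omega] at this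
  have e5 : X1 (m + 1) (2 * m + (2 * m + 2)) = -2 * ((m + 1 : ℕ) : ℤ) - 2 := by
    have := X1_g (l := m + 1) hl
    rwa [show 4 * (m + 1) - 2 = 2 * m + (2 * m + 2) by omega] at this
  have e6 : X1 (m + 1) (2 * m + (2 * m + 3)) = -2 * ((m + 1 : ℕ) : ℤ) + 1 := by
    have := X1_h (l := m + 1) hl
    rwa [show 4 * (m + 1) - 1 = 2 * m + (2 * m + 3) by omega] at this
  have e7 : X1 (m + 1) (2 * m + (2 * m + 4)) = -4 * ((m + 1 : ℕ) : ℤ) - 2 := by
    have := X1_i (l := m + 1) hl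
    rwa [show 4 * (m + 1) = 2 * m + (2 * m + 4) by omega] at this
  rw [e1, e2, sum_z_even, sum_z_even]
  simp only [Finset.sum_range_succ, Finset.sum_range_zero, add_zero, zero_add, e3, e4, e5, e6, e7]
  push_cast
  ring

lemma good1 (l : ℕ) (hl : 2 ≤ l) : Good (4 * l + 1) (X1 l) := by
  refine ⟨cov1 l hl, ?_⟩
  rw [sum1 l hl]
  refine ⟨-64, -(16 * l + 51), ?_⟩
  push_cast
  ring

/-! ### `k = 4 l + 2` -/

/-- family for `k = 4 l + 2` -/
def X2 (l : ℕ) (i : ℕ) : ℤ :=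
  if i < 2 * l - 1 then z (6 * l + 4) (-6 * l - 2) i
  else if i < 4 * l - 1 then z (4 * l + 3) (-8 * l - 4) (i - (2 * l - 1))
  else if i = 4 * l - 1 then 1
  else if i = 4 * l then -2 * l - 2
  else 4 * l + 2

lemma X2_a {l j : ℕ} (h : j < l) : X2 l (2 * j) = 6 * l + 4 + j := by
  unfold X2; rw [if_pos (by omega), z_even]

lemma X2_b {l j : ℕ} (h : j + 1 < l) : X2 l (2 * j + 1) = -6 * l - 2 + j := by
  unfold X2; rw [if_pos (by omega), z_odd]

lemma X2_c {l j : ℕ} (h : j < l) : X2 l (2 * l - 1 + 2 * j) = 4 * l + 3 + j := by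
  unfold X2
  rw [if_neg (by omega), if_pos (by omega),
    show 2 * l - 1 + 2 * j - (2 * l - 1) = 2 * j by omega, z_even]

lemma X2_d {l j : ℕ} (h : j < l) : X2 l (2 * l - 1 + (2 * j + 1)) = -8 * l - 4 + j := by
  unfold X2
  rw [if_neg (by omega), if_pos (by omega),
    show 2 * l - 1 + (2 * j + 1) - (2 * l - 1) = 2 * j + 1 by omega, z_odd]

lemma X2_e {l : ℕ} (h : 1 ≤ l) : X2 l (4 * l - 1) = 1 := by
  unfold X2
  rw [if_neg (by omega), if_neg (by omega), if_pos rfl]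

lemma X2_f {l : ℕ} (h : 1 ≤ l) : X2 l (4 * l) = -2 * l - 2 := by
  unfold X2
  rw [if_neg (by omega), if_neg (by omega), if_neg (by omega), if_pos rfl]

lemma X2_g {l : ℕ} (h : 1 ≤ l) : X2 l (4 * l + 1) = 4 * l + 2 := by
  unfold X2
  rw [if_neg (by omega), if_neg (by omega), if_neg (by omega), if_neg (by omega)]

lemma cov2 (l : ℕ) (hl : 1 ≤ l) (a : ℕ) (ha1 : 1 ≤ a) (ha2 : a ≤ 2 * (4 * l + 2)) :
    Hit (4 * l + 2) (X2 l) a := by
  by_cases h0 : a = 1
  · exact hit_v (4 * l - 1) (by omega) (X2_e hl) 0 (by omega)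
  by_cases h1 : a ≤ 2 * l - 1
  · obtain ⟨b, rfl⟩ : ∃ b, a = 2 + b := ⟨a - 2, by omega⟩
    rcases Nat.even_or_odd' b with ⟨j, rfl | rfl⟩
    · exact hit_s (2 * j) (2 * j + 1) (by omega) (by omega) (X2_a (by omega)) (X2_b (by omega)) 0
        (by omega)
    · exact hit_s (2 * j + 1) (2 * (j + 1)) (by omega) (by omega) (X2_b (by omega))
        (X2_a (by omega)) 0 (by omega)
  by_cases h2 : a = 2 * l
  · exact hit_s (4 * l) (4 * l + 1) (by omega) (by omega) (X2_f hl) (X2_g hl) 0 (by omega)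
  by_cases h3 : a = 2 * l + 1
  · exact hit_s (4 * l - 1) (4 * l) (by omega) (by omega) (X2_e hl) (X2_f hl) 0 (by omega)
  by_cases h4 : a = 2 * l + 2
  · exact hit_v (4 * l) (by omega) (X2_f hl) 0 (by omega)
  by_cases h5 : a ≤ 4 * l + 1
  · obtain ⟨b, hb⟩ : ∃ b, b + a = 4 * l + 1 := ⟨4 * l + 1 - a, by omega⟩
    rcases Nat.even_or_odd' b with ⟨j, rfl | rfl⟩
    · exact hit_s (2 * l - 1 + 2 * j) (2 * l - 1 + (2 * j + 1)) (by omega) (by omega)
        (X2_c (by omega)) (X2_d (by omega)) 0 (by omega)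
    · exact hit_s (2 * l - 1 + (2 * j + 1)) (2 * l - 1 + 2 * (j + 1)) (by omega) (by omega)
        (X2_d (by omega)) (X2_c (by omega)) 0 (by omega)
  by_cases h6 : a = 4 * l + 2
  · exact hit_v (4 * l + 1) (by omega) (X2_g hl) 0 (by omega)
  by_cases h7 : a ≤ 5 * l + 2
  · exact hit_v (2 * l - 1 + 2 * (a - 4 * l - 3)) (by omega) (X2_c (by omega)) 0 (by omega)
  by_cases h8 : a = 5 * l + 3
  · exact hit_s (2 * (l - 1)) (2 * l - 1 + 2 * 0) (by omega) (by omega) (X2_a (by omega))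
      (X2_c (by omega)) 1 (by omega)
  by_cases h9 : a ≤ 6 * l + 2
  · exact hit_v (2 * (6 * l + 2 - a) + 1) (by omega) (X2_b (by omega)) 0 (by omega)
  by_cases h10 : a = 6 * l + 3
  · exact hit_w (4 * l + 1) (by omega) (X2_g hl) (X2_a (j := 0) (by omega)) 1 (by omega)
  by_cases h11 : a ≤ 7 * l + 3
  · exact hit_v (2 * (a - 6 * l - 4)) (by omega) (X2_a (by omega)) 0 (by omega)
  by_cases h12 : a = 7 * l + 4
  · exact hit_s (2 * l - 1 + (2 * (l - 1) + 1)) (4 * l - 1) (by omega) (by omega)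
      (X2_d (by omega)) (X2_e hl) 0 (by omega)
  · exact hit_v (2 * l - 1 + (2 * (8 * l + 4 - a) + 1)) (by omega) (X2_d (by omega)) 0 (by omega)

lemma sum2 (l : ℕ) (hl : 1 ≤ l) :
    ∑ i ∈ Finset.range (4 * l + 2), X2 l i = -2 * (l : ℤ) ^ 2 + 6 * l + 4 := by
  obtain ⟨m, rfl⟩ : ∃ m, l = m + 1 := ⟨l - 1, by omega⟩
  rw [show 4 * (m + 1) + 2 = (2 * m + 1) + (2 * (m + 1) + 3) by ring,
    Finset.sum_range_add _ (2 * m + 1) (2 * (m + 1) + 3), Finset.sum_range_add _ (2 * (m + 1)) 3]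
  have e1 : ∑ x ∈ Finset.range (2 * m + 1), X2 (m + 1) x
      = ∑ x ∈ Finset.range (2 * m + 1),
        z (6 * ((m + 1 : ℕ) : ℤ) + 4) (-6 * ((m + 1 : ℕ) : ℤ) - 2) x := by
    apply Finset.sum_congr rfl
    intro x hx
    rw [Finset.mem_range] at hx
    unfold X2
    rw [if_pos (by omega)]
  have e2 : ∑ x ∈ Finset.range (2 * (m + 1)), X2 (m + 1) (2 * m + 1 + x)
      = ∑ x ∈ Finset.range (2 * (m + 1)),
        z (4 * ((m + 1 : ℕ) : ℤ) + 3) (-8 * ((m + 1 : ℕ) : ℤ) - 4) x := by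
    apply Finset.sum_congr rfl
    intro x hx
    rw [Finset.mem_range] at hx
    unfold X2
    rw [if_neg (by omega), if_pos (by omega)]
    congr 1
    omega
  have e3 : X2 (m + 1) (2 * m + 1 + (2 * (m + 1))) = 1 := by
    have := X2_e (l := m + 1) hl
    rwa [show 4 * (m + 1) - 1 = 2 * m + 1 + (2 * (m + 1)) by omega] at this
  have e4 : X2 (m + 1) (2 * m + 1 + (2 * (m + 1) + 1)) = -2 * ((m + 1 : ℕ) : ℤ) - 2 := by
    have := X2_f (l := m + 1) hl
    rwa [show 4 * (m + 1) = 2 * m + 1 + (2 * (m + 1) + 1) by omega] at this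
  have e5 : X2 (m + 1) (2 * m + 1 + (2 * (m + 1) + 2)) = 4 * ((m + 1 : ℕ) : ℤ) + 2 := by
    have := X2_g (l := m + 1) hl
    rwa [show 4 * (m + 1) + 1 = 2 * m + 1 + (2 * (m + 1) + 2) by omega] at this
  rw [e1, e2, sum_z_even, sum_z_odd]
  simp only [Finset.sum_range_succ, Finset.sum_range_zero, add_zero, zero_add, e3, e4, e5]
  push_cast
  ring

lemma good2 (l : ℕ) (hl : 1 ≤ l) : Good (4 * l + 2) (X2 l) := by
  refine ⟨cov2 l hl, ?_⟩
  rw [sum2 l hl]
  refine ⟨-128, 57 - 16 * l, ?_⟩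
  push_cast
  ring

/-! ### `k = 4 l + 3` -/

/-- family for `k = 4 l + 3` -/
def X3 (l : ℕ) (i : ℕ) : ℤ :=
  if i < 2 * l + 1 then z (3 * l + 2) (-5 * l - 3) i
  else if i < 4 * l then z (7 * l + 7) (2 * l + 2) (i - (2 * l + 1))
  else if i = 4 * l then -5 * l - 5
  else if i = 4 * l + 1 then -1
  else -7 * l - 5

lemma X3_a {l j : ℕ} (h : j < l + 1) : X3 l (2 * j) = 3 * l + 2 + j := by
  unfold X3; rw [if_pos (by omega), z_even]

lemma X3_b {l j : ℕ} (h : j < l) : X3 l (2 * j + 1) = -5 * l - 3 + j := by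
  unfold X3; rw [if_pos (by omega), z_odd]

lemma X3_c {l j : ℕ} (h : j < l) : X3 l (2 * l + 1 + 2 * j) = 7 * l + 7 + j := by
  unfold X3
  rw [if_neg (by omega), if_pos (by omega),
    show 2 * l + 1 + 2 * j - (2 * l + 1) = 2 * j by omega, z_even]

lemma X3_d {l j : ℕ} (h : j + 1 < l) : X3 l (2 * l + 1 + (2 * j + 1)) = 2 * l + 2 + j := by
  unfold X3
  rw [if_neg (by omega), if_pos (by omega),
    show 2 * l + 1 + (2 * j + 1) - (2 * l + 1) = 2 * j + 1 by omega, z_odd]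

lemma X3_e {l : ℕ} (h : 1 ≤ l) : X3 l (4 * l) = -5 * l - 5 := by
  unfold X3
  rw [if_neg (by omega), if_neg (by omega), if_pos rfl]

lemma X3_f {l : ℕ} (h : 1 ≤ l) : X3 l (4 * l + 1) = -1 := by
  unfold X3
  rw [if_neg (by omega), if_neg (by omega), if_neg (by omega), if_pos rfl]

lemma X3_g {l : ℕ} (h : 1 ≤ l) : X3 l (4 * l + 2) = -7 * l - 5 := by
  unfold X3
  rw [if_neg (by omega), if_neg (by omega), if_neg (by omega), if_neg (by omega)]

lemma cov3 (l : ℕ) (hl : 1 ≤ l) (a : ℕ) (ha1 : 1 ≤ a) (ha2 : a ≤ 2 * (4 * l + 3)) :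
    Hit (4 * l + 3) (X3 l) a := by
  by_cases h0 : a = 1
  · exact hit_v (4 * l + 1) (by omega) (X3_f hl) 0 (by omega)
  by_cases h1 : a ≤ 2 * l + 1
  · obtain ⟨b, hb⟩ : ∃ b, b + a = 2 * l + 1 := ⟨2 * l + 1 - a, by omega⟩
    rcases Nat.even_or_odd' b with ⟨j, rfl | rfl⟩
    · exact hit_s (2 * j) (2 * j + 1) (by omega) (by omega) (X3_a (by omega)) (X3_b (by omega)) 0
        (by omega)
    · exact hit_s (2 * j + 1) (2 * (j + 1)) (by omega) (by omega) (X3_b (by omega))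
        (X3_a (by omega)) 0 (by omega)
  by_cases h2 : a ≤ 3 * l
  · exact hit_v (2 * l + 1 + (2 * (a - 2 * l - 2) + 1)) (by omega) (X3_d (by omega)) 0 (by omega)
  by_cases h3 : a = 3 * l + 1
  · exact hit_s (2 * l + 1 + 2 * (l - 1)) (4 * l) (by omega) (by omega) (X3_c (by omega))
      (X3_e hl) 0 (by omega)
  by_cases h4 : a ≤ 4 * l + 2
  · exact hit_v (2 * (a - 3 * l - 2)) (by omega) (X3_a (by omega)) 0 (by omega)
  by_cases h5 : a = 4 * l + 3
  · exact hit_w (4 * l + 2) (by omega) (X3_g hl) (X3_a (j := 0) (by omega)) 0 (by omega)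
  by_cases h6 : a ≤ 5 * l + 3
  · exact hit_v (2 * (5 * l + 3 - a) + 1) (by omega) (X3_b (by omega)) 0 (by omega)
  by_cases h7 : a = 5 * l + 4
  · exact hit_s (2 * l) (2 * l + 1 + 2 * 0) (by omega) (by omega) (X3_a (by omega))
      (X3_c (by omega)) 1 (by omega)
  by_cases h8 : a = 5 * l + 5
  · exact hit_v (4 * l) (by omega) (X3_e hl) 0 (by omega)
  by_cases h9 : a = 5 * l + 6
  · exact hit_s (4 * l) (4 * l + 1) (by omega) (by omega) (X3_e hl) (X3_f hl) 0 (by omega)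
  by_cases h10 : a ≤ 7 * l + 4
  · obtain ⟨b, hb⟩ : ∃ b, b + a = 7 * l + 4 := ⟨7 * l + 4 - a, by omega⟩
    rcases Nat.even_or_odd' b with ⟨j, rfl | rfl⟩
    · exact hit_s (2 * l + 1 + 2 * j) (2 * l + 1 + (2 * j + 1)) (by omega) (by omega)
        (X3_c (by omega)) (X3_d (by omega)) 1 (by omega)
    · exact hit_s (2 * l + 1 + (2 * j + 1)) (2 * l + 1 + 2 * (j + 1)) (by omega) (by omega)
        (X3_d (by omega)) (X3_c (by omega)) 1 (by omega)
  by_cases h11 : a = 7 * l + 5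
  · exact hit_v (4 * l + 2) (by omega) (X3_g hl) 0 (by omega)
  by_cases h12 : a = 7 * l + 6
  · exact hit_s (4 * l + 1) (4 * l + 2) (by omega) (by omega) (X3_f hl) (X3_g hl) 0 (by omega)
  · exact hit_v (2 * l + 1 + 2 * (a - 7 * l - 7)) (by omega) (X3_c (by omega)) 0 (by omega)

lemma sum3 (l : ℕ) (hl : 1 ≤ l) :
    ∑ i ∈ Finset.range (4 * l + 3), X3 l i = 9 * (l : ℤ) ^ 2 - 5 * l - 10 := by
  obtain ⟨m, rfl⟩ : ∃ m, l = m + 1 := ⟨l - 1, by omega⟩
  rw [show 4 * (m + 1) + 3 = (2 * (m + 1) + 1) + ((2 * m + 1) + 3) by ring,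
    Finset.sum_range_add _ (2 * (m + 1) + 1) (2 * m + 1 + 3),
    Finset.sum_range_add _ (2 * m + 1) 3]
  have e1 : ∑ x ∈ Finset.range (2 * (m + 1) + 1), X3 (m + 1) x
      = ∑ x ∈ Finset.range (2 * (m + 1) + 1),
        z (3 * ((m + 1 : ℕ) : ℤ) + 2) (-5 * ((m + 1 : ℕ) : ℤ) - 3) x := by
    apply Finset.sum_congr rfl
    intro x hx
    rw [Finset.mem_range] at hx
    unfold X3
    rw [if_pos (by omega)]
  have e2 : ∑ x ∈ Finset.range (2 * m + 1), X3 (m + 1) (2 * (m + 1) + 1 + x)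
      = ∑ x ∈ Finset.range (2 * m + 1),
        z (7 * ((m + 1 : ℕ) : ℤ) + 7) (2 * ((m + 1 : ℕ) : ℤ) + 2) x := by
    apply Finset.sum_congr rfl
    intro x hx
    rw [Finset.mem_range] at hx
    unfold X3
    rw [if_neg (by omega), if_pos (by omega)]
    congr 1
    omega
  have e3 : X3 (m + 1) (2 * (m + 1) + 1 + (2 * m + 1)) = -5 * ((m + 1 : ℕ) : ℤ) - 5 := by
    have := X3_e (l := m + 1) hl
    rwa [show 4 * (m + 1) = 2 * (m + 1) + 1 + (2 * m + 1) by omega] at this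
  have e4 : X3 (m + 1) (2 * (m + 1) + 1 + (2 * m + 1 + 1)) = -1 := by
    have := X3_f (l := m + 1) hl
    rwa [show 4 * (m + 1) + 1 = 2 * (m + 1) + 1 + (2 * m + 1 + 1) by omega] at this
  have e5 : X3 (m + 1) (2 * (m + 1) + 1 + (2 * m + 1 + 2)) = -7 * ((m + 1 : ℕ) : ℤ) - 5 := by
    have := X3_g (l := m + 1) hl
    rwa [show 4 * (m + 1) + 2 = 2 * (m + 1) + 1 + (2 * m + 1 + 2) by omega] at this
  rw [e1, e2, sum_z_odd, sum_z_odd]
  simp only [Finset.sum_range_succ, Finset.sum_range_zero, add_zero, zero_add, e3, e4, e5]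
  push_cast
  ring

lemma good3 (l : ℕ) (hl : 1 ≤ l) : Good (4 * l + 3) (X3 l) := by
  refine ⟨cov3 l hl, ?_⟩
  rw [sum3 l hl]
  refine ⟨256, 197 - 144 * l, ?_⟩
  push_cast
  ring

/-! ### the small cases and the conclusion -/

lemma good_three : Good 3 (fun i => if i = 0 then 1 else if i = 1 then 2 else 4) := by
  refine ⟨?_, ?_⟩
  · intro a ha1 ha2
    interval_cases a
    · exact hit_v 0 (by omega) rfl 0 (by norm_num)
    · exact hit_v 1 (by omega) rfl 0 (by norm_num)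
    · exact hit_s 0 1 (by omega) rfl rfl rfl 0 (by norm_num)
    · exact hit_v 2 (by omega) rfl 0 (by norm_num)
    · exact hit_w 2 (by omega) rfl rfl 0 (by norm_num)
    · exact hit_s 1 2 (by omega) rfl rfl rfl 0 (by norm_num)
  · refine ⟨2, -1, ?_⟩
    simp [Finset.sum_range_succ]

lemma good_four : Good 4
    (fun i => if i = 0 then 1 else if i = 1 then 2 else if i = 2 then 6 else 4) := by
  refine ⟨?_, ?_⟩
  · intro a ha1 ha2
    interval_cases a
    · exact hit_v 0 (by omega) rfl 0 (by norm_num)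
    · exact hit_v 1 (by omega) rfl 0 (by norm_num)
    · exact hit_s 0 1 (by omega) rfl rfl rfl 0 (by norm_num)
    · exact hit_v 3 (by omega) rfl 0 (by norm_num)
    · exact hit_w 3 (by omega) rfl rfl 0 (by norm_num)
    · exact hit_v 2 (by omega) rfl 0 (by norm_num)
    · exact hit_s 2 3 (by omega) rfl rfl rfl 1 (by norm_num)
    · exact hit_s 1 2 (by omega) rfl rfl rfl 0 (by norm_num)
  · refine ⟨4, -3, ?_⟩
    simp [Finset.sum_range_succ]

lemma good_five : Good 5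
    (fun i => if i = 0 then 1 else if i = 1 then 2 else if i = 2 then 7 else if i = 3 then 6
      else 4) := by
  refine ⟨?_, ?_⟩
  · intro a ha1 ha2
    interval_cases a
    · exact hit_v 0 (by omega) rfl 0 (by norm_num)
    · exact hit_v 1 (by omega) rfl 0 (by norm_num)
    · exact hit_s 0 1 (by omega) rfl rfl rfl 0 (by norm_num)
    · exact hit_v 4 (by omega) rfl 0 (by norm_num)
    · exact hit_w 4 (by omega) rfl rfl 0 (by norm_num)
    · exact hit_v 3 (by omega) rfl 0 (by norm_num)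
    · exact hit_v 2 (by omega) rfl 0 (by norm_num)
    · exact hit_s 2 3 (by omega) rfl rfl rfl 1 (by norm_num)
    · exact hit_s 1 2 (by omega) rfl rfl rfl 0 (by norm_num)
    · exact hit_s 3 4 (by omega) rfl rfl rfl 0 (by norm_num)
  · refine ⟨-1, 1, ?_⟩
    simp [Finset.sum_range_succ]

theorem exists_good (k : ℕ) (hk : 2 < k) : ∃ X : ℕ → ℤ, Good k X := by
  by_cases h3 : k = 3
  · subst h3; exact ⟨_, good_three⟩
  by_cases h4 : k = 4
  · subst h4; exact ⟨_, good_four⟩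
  by_cases h5 : k = 5
  · subst h5; exact ⟨_, good_five⟩
  have hmod : k % 4 = 0 ∨ k % 4 = 1 ∨ k % 4 = 2 ∨ k % 4 = 3 := by omega
  rcases hmod with h | h | h | h
  · obtain ⟨l, rfl⟩ : ∃ l, k = 4 * l := ⟨k / 4, by omega⟩
    exact ⟨_, good0 l (by omega)⟩
  · obtain ⟨l, rfl⟩ : ∃ l, k = 4 * l + 1 := ⟨k / 4, by omega⟩
    exact ⟨_, good1 l (by omega)⟩
  · obtain ⟨l, rfl⟩ : ∃ l, k = 4 * l + 2 := ⟨k / 4, by omega⟩
    exact ⟨_, good2 l (by omega)⟩
  · obtain ⟨l, rfl⟩ : ∃ l, k = 4 * l + 3 := ⟨k / 4, by omega⟩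
    exact ⟨_, good3 l (by omega)⟩

end R93.Cyc
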