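import Pool.Agent.R956.K1

/-!
# Doubling: a nearly convex sequence `h` with `h (2 k) - 2 h k` small along sparse `k` is small
-/

set_option autoImplicit false
set_option linter.unusedVariables false

namespace Pool.Agent.R93.Dbl

open Filter Topology Pool.Agent.R956.K1

/-- near convexity from `N` on -/
def NC (h : ℕ → ℝ) (D : ℝ) (N : ℕ) : Prop :=
  ∀ k, N ≤ k → 2 * h (k + 1) ≤ h k + h (k + 2) + D / k

variable {h : ℕ → ℝ} {D : ℝ} {N : ℕ}

lemma inc_mono (hD : 0 ≤ D) (hc : NC h D N) {m : ℕ} (hm : N + 1 ≤ m) {a : ℕ} (ha : m ≤ a) (j : ℕ) :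
    h (a + 1) - h a ≤ h (a + j + 1) - h (a + j) + j * (D / m) := by
  have hm0 : (0 : ℝ) < m := by exact_mod_cast (show 0 < m by omega)
  induction j with
  | zero => simp
  | succ j ih =>
    have h1 := hc (a + j) (by omega)
    have h2 : D / ((a + j : ℕ) : ℝ) ≤ D / m := by
      apply div_le_div_of_nonneg_left hD hm0
      exact_mod_cast (show m ≤ a + j by omega)
    rw [show a + (j + 1) + 1 = a + j + 2 by ring, show a + (j + 1) = a + j + 1 by ring]
    push_cast
    linarith

/-- upper bound for an increment by a lever of length `J` to the right -/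
lemma inc_up (hD : 0 ≤ D) (hc : NC h D N) {m : ℕ} (hm : N + 1 ≤ m) {a : ℕ} (ha : m ≤ a) (J : ℕ) :
    J * (h (a + 1) - h a) ≤ h (a + J) - h a + J * (J * (D / m)) := by
  have hm0 : (0 : ℝ) < m := by exact_mod_cast (show 0 < m by omega)
  have key : ∀ t : ℕ, t ≤ J → t * (h (a + 1) - h a) ≤ h (a + t) - h a + t * (J * (D / m)) := by
    intro t
    induction t with
    | zero => intro _; simp
    | succ t ih =>
      intro ht
      have h1 := ih (by omega)
      have h2 := inc_mono hD hc hm ha t
      have h3 : (t : ℝ) * (D / m) ≤ J * (D / m) := by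
        apply mul_le_mul_of_nonneg_right _ (by positivity)
        exact_mod_cast (show t ≤ J by omega)
      rw [show a + (t + 1) = a + t + 1 by ring]
      push_cast
      linarith
  exact key J le_rfl

/-- lower bound for an increment by a lever of length `J` to the left -/
lemma inc_dn (hD : 0 ≤ D) (hc : NC h D N) {m : ℕ} (hm : N + 1 ≤ m) {a : ℕ} (J : ℕ)
    (ha : m + J ≤ a) :
    h a - h (a - J) ≤ J * (h (a + 1) - h a) + J * (J * (D / m)) := by
  obtain ⟨b, rfl⟩ : ∃ b, a = b + J := ⟨a - J, by omega⟩
  have hb : m ≤ b := by omega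
  rw [Nat.add_sub_cancel]
  have hm0 : (0 : ℝ) < m := by exact_mod_cast (show 0 < m by omega)
  have key : ∀ t : ℕ, t ≤ J → h (b + t) - h b ≤
      t * (h (b + J + 1) - h (b + J)) + t * (J * (D / m)) := by
    intro t
    induction t with
    | zero => intro _; simp
    | succ t ih =>
      intro ht
      have h1 := ih (by omega)
      have h2 := inc_mono hD hc hm (show m ≤ b + t by omega) (J - t)
      rw [show b + t + (J - t) = b + J by omega] at h2
      have h3 : ((J - t : ℕ) : ℝ) * (D / m) ≤ J * (D / m) := by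
        apply mul_le_mul_of_nonneg_right _ (by positivity)
        exact_mod_cast Nat.sub_le J t
      rw [show b + (t + 1) = b + t + 1 by ring]
      push_cast
      linarith
  exact key J le_rfl

/-- **oscillation** over `t` steps, when `|h| ≤ X` on `[m, a + t + J]`, `m + J ≤ a` -/
lemma osc (hD : 0 ≤ D) (hc : NC h D N) {m a t J : ℕ} (hm : N + 1 ≤ m) (hJ : 1 ≤ J)
    (ha : m + J ≤ a) {X : ℝ} (hX : ∀ i, m ≤ i → i ≤ a + t + J → |h i| ≤ X) :
    |h (a + t) - h a| ≤ t * (2 * X / J + J * (D / m)) := by
  have hJ0 : (0 : ℝ) < J := by exact_mod_cast hJ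
  have hinc : ∀ i, i < t → |h (a + i + 1) - h (a + i)| ≤ 2 * X / J + J * (D / m) := by
    intro i hi
    have h1 := inc_up hD hc hm (show m ≤ a + i by omega) J
    have h2 := inc_dn hD hc hm J (show m + J ≤ a + i by omega)
    have x1 := abs_le.1 (hX (a + i) (by omega) (by omega))
    have x2 := abs_le.1 (hX (a + i + J) (by omega) (by omega))
    have x3 := abs_le.1 (hX (a + i - J) (by omega) (by omega))
    have e : 2 * X / J + J * (D / m) = (2 * X + J * (J * (D / m))) / J := by
      field_simp
    rw [e, abs_le]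
    constructor
    · rw [neg_le, ← sub_nonneg]
      have e2 : (2 * X + J * (J * (D / m))) / J - -(h (a + i + 1) - h (a + i)) =
          (2 * X + J * (J * (D / m)) + J * (h (a + i + 1) - h (a + i))) / J := by
        field_simp
        ring
      rw [e2]
      apply div_nonneg _ hJ0.le
      linarith [x1.1, x1.2, x3.1, x3.2]
    · rw [le_div_iff₀ hJ0]
      linarith [x1.1, x1.2, x2.1, x2.2]
  have key : ∀ s : ℕ, s ≤ t → |h (a + s) - h a| ≤ s * (2 * X / J + J * (D / m)) := by
    intro s
    induction s with
    | zero => intro _; simp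
    | succ s ih =>
      intro hs
      have h1 := ih (by omega)
      have h2 := hinc s (by omega)
      have h3 := abs_add_le (h (a + s) - h a) (h (a + s + 1) - h (a + s))
      rw [show h (a + s) - h a + (h (a + s + 1) - h (a + s)) = h (a + (s + 1)) - h a by
        rw [show a + (s + 1) = a + s + 1 by ring]; ring] at h3
      push_cast
      linarith
  exact key t le_rfl

end Pool.Agent.R93.Dbl
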