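import Pool.Agent.R93.Dbl

/-!
# Doubling: the main estimate
-/

set_option autoImplicit false
set_option linter.unusedVariables false

namespace Pool.Agent.R93.Dbl

open Filter Topology Pool.Agent.R956.K1

variable {h : ℕ → ℝ} {D : ℝ} {N : ℕ}

lemma rp1 : ((17 / 8 : ℝ)) ^ (3 / 4 : ℝ) ≤ 1.77 := by
  have h1 : ((17 / 8 : ℝ)) ^ (3 / 4 : ℝ) = (((17 / 8 : ℝ)) ^ 3) ^ (1 / 4 : ℝ) := by
    rw [← Real.rpow_natCast, ← Real.rpow_mul (by norm_num)]
    norm_num
  have h2 : (1.77 : ℝ) = ((1.77 : ℝ) ^ 4) ^ (1 / 4 : ℝ) := by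
    rw [← Real.rpow_natCast, ← Real.rpow_mul (by norm_num)]
    norm_num
  rw [h1, h2]
  exact Real.rpow_le_rpow (by norm_num) (by norm_num) (by norm_num)

lemma rp2 : (2 : ℝ) ^ (3 / 4 : ℝ) ≤ 1.69 := by
  have h1 : (2 : ℝ) ^ (3 / 4 : ℝ) = ((2 : ℝ) ^ 3) ^ (1 / 4 : ℝ) := by
    rw [← Real.rpow_natCast, ← Real.rpow_mul (by norm_num)]
    norm_num
  have h2 : (1.69 : ℝ) = ((1.69 : ℝ) ^ 4) ^ (1 / 4 : ℝ) := by
    rw [← Real.rpow_natCast, ← Real.rpow_mul (by norm_num)]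
    norm_num
  rw [h1, h2]
  exact Real.rpow_le_rpow (by norm_num) (by norm_num) (by norm_num)

/-- **the bootstrap**: if `|h (2 k) - 2 h k| ≤ b E` somewhere in each `[m, m + δ √(m E)]` then
`|h| ≤ (2 b + 400 D δ²) E + C` -/
theorem boot (hD : 0 ≤ D) (hc : NC h D N) {E : ℕ → ℝ} (hE : Sc E)
    (hsl : ∀ᶠ m : ℕ in atTop, E (4 * m) ≤ 9 / 8 * E m) {C0 : ℝ}
    (hap : ∀ᶠ m : ℕ in atTop, |h m| ≤ C0 * (m : ℝ) ^ (3 / 4 : ℝ)) {δ b : ℝ} (hδ : 0 < δ)
    (hb : 0 ≤ b)
    (hS : ∀ᶠ m : ℕ in atTop, ∃ k : ℕ, m ≤ k ∧ (k : ℝ) ≤ m + δ * √(m * E m) ∧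
      |h (2 * k) - 2 * h k| ≤ b * E k) :
    ∃ C : ℝ, 0 ≤ C ∧ ∀ᶠ m : ℕ in atTop, |h m| ≤ (2 * b + 400 * D * δ ^ 2) * E m + C := by
  -- smallness of the windows
  have ev1 : ∀ᶠ m : ℕ in atTop, E m / m < (1 / (256 * δ)) ^ 2 :=
    hE.small.eventually_lt_const (by positivity)
  have ev2 : ∀ᶠ m : ℕ in atTop, (1 / (32 * δ)) ^ 2 ≤ (m : ℝ) :=
    tendsto_natCast_atTop_atTop.eventually_ge_atTop _
  obtain ⟨M, hM⟩ := eventually_atTop.1 (hsl.and (hap.and (hS.and (ev1.and ev2))))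
  obtain ⟨A, hA⟩ : ∃ A : ℕ, A = M + 2 * N + 8 := ⟨_, rfl⟩
  obtain ⟨C3, hC3⟩ : ∃ C3 : ℝ, C3 = ∑ i ∈ Finset.range (2 * A + 1), |h i| := ⟨_, rfl⟩
  have hC30 : 0 ≤ C3 := by rw [hC3]; exact Finset.sum_nonneg fun i _ => abs_nonneg _
  have hfin : ∀ m, m ≤ 2 * A → |h m| ≤ C3 := by
    intro m hm
    rw [hC3]
    exact Finset.single_le_sum (f := fun i => |h i|) (fun i _ => abs_nonneg _)
      (Finset.mem_range.mpr (by omega))
  obtain ⟨C1, hC1⟩ : ∃ C1 : ℝ, C1 = 2 * b + 400 * D * δ ^ 2 := ⟨_, rfl⟩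
  have hC10 : 0 ≤ C1 := by rw [hC1]; positivity
  have hC00 : 0 ≤ |C0| := abs_nonneg _
  have key : ∀ j : ℕ, ∀ m : ℕ, A ≤ m →
      |h m| ≤ C1 * E m + C3 + |C0| * 0.995 ^ j * (m : ℝ) ^ (3 / 4 : ℝ) := by
    intro j
    induction j with
    | zero =>
      intro m hm
      have h1 := (hM m (by omega)).2.1
      have h2 := hE.one_le m (by omega)
      have h3 : (0 : ℝ) ≤ (m : ℝ) ^ (3 / 4 : ℝ) := by positivity
      have h4 : C0 * (m : ℝ) ^ (3 / 4 : ℝ) ≤ |C0| * (m : ℝ) ^ (3 / 4 : ℝ) :=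
        mul_le_mul_of_nonneg_right (le_abs_self _) h3
      have h5 : 0 ≤ C1 * E m := by positivity
      rw [pow_zero, mul_one]
      linarith
    | succ j ih =>
      intro m hm
      have hE1 := hE.one_le m (by omega)
      have hm0 : (0 : ℝ) < m := by exact_mod_cast (show 0 < m by omega)
      have hg0 : (0 : ℝ) ≤ (m : ℝ) ^ (3 / 4 : ℝ) := by positivity
      rcases Nat.lt_or_ge (2 * A) m with hm2 | hm2
      swap
      · have h1 := hfin m hm2
        have h2 : 0 ≤ C1 * E m := by positivity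
        have h3 : 0 ≤ |C0| * 0.995 ^ (j + 1) * (m : ℝ) ^ (3 / 4 : ℝ) := by positivity
        linarith
      obtain ⟨g1, g2, g3, g4, g5⟩ := hM m (by omega)
      obtain ⟨k, hk1, hk2, hk3⟩ := g3
      obtain ⟨w, hw⟩ : ∃ w : ℝ, w = √(m * E m) := ⟨_, rfl⟩
      rw [← hw] at hk2
      have hw2 : w ^ 2 = m * E m := by rw [hw, Real.sq_sqrt (by positivity)]
      have hw0 : 0 < w := by rw [hw]; exact Real.sqrt_pos.2 (by positivity)
      -- `w ≤ m / (256 δ)`
      have hw3 : w * (256 * δ) ≤ m := by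
        have h1 : w ^ 2 ≤ (1 / (256 * δ)) ^ 2 * (m * m) := by
          rw [hw2]
          rw [div_lt_iff₀ hm0] at g4
          have h9 := mul_le_mul_of_nonneg_left g4.le hm0.le
          linarith
        have h2 : w ≤ 1 / (256 * δ) * m := by
          refine le_of_sq_le_sq ?_ (by positivity)
          rw [mul_pow, sq (m : ℝ)]
          exact h1
        rw [div_mul_eq_mul_div, one_mul, le_div_iff₀ (by positivity)] at h2
        exact h2
      -- `1 ≤ 32 δ w`
      have hw4 : 1 ≤ 32 * δ * w := by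
        have h1 : (1 / (32 * δ)) ^ 2 ≤ w ^ 2 := by
          rw [hw2]
          have h9 := mul_le_mul_of_nonneg_left hE1 hm0.le
          linarith
        have h2 : 1 / (32 * δ) ≤ w := le_of_sq_le_sq h1 hw0.le
        rw [div_le_iff₀ (by positivity)] at h2
        linarith
      obtain ⟨J, hJ⟩ : ∃ J : ℕ, J = ⌈32 * δ * w⌉₊ := ⟨_, rfl⟩
      have hJ1 : 32 * δ * w ≤ J := by rw [hJ]; exact Nat.le_ceil _
      have hJ2 : (J : ℝ) < 32 * δ * w + 1 := by
        rw [hJ]; exact Nat.ceil_lt_add_one (by positivity)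
      have hJ3 : (J : ℝ) ≤ 64 * δ * w := by linarith
      have hJ4 : 4 * (J : ℝ) ≤ m := by linarith
      have hJ5 : 4 * J ≤ m := by exact_mod_cast hJ4
      have hJ6 : 1 ≤ J := by
        have : (1 : ℝ) ≤ J := hw4.trans hJ1
        exact_mod_cast this
      obtain ⟨t, rfl⟩ : ∃ t, k = m + t := ⟨k - m, by omega⟩
      have ht : (t : ℝ) ≤ δ * w := by
        push_cast at hk2
        linarith
      have ht2 : 256 * (t : ℝ) ≤ m := by linarith
      have ht3 : 256 * t ≤ m := by exact_mod_cast ht2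
      -- the bound on the window
      obtain ⟨a, ha⟩ : ∃ a : ℕ, a = (m + 1) / 2 := ⟨_, rfl⟩
      have haA : A ≤ a := by omega
      have ha2 : (m : ℝ) ≤ 2 * a := by exact_mod_cast (show m ≤ 2 * a by omega)
      obtain ⟨q, hq⟩ : ∃ q : ℝ, q = |C0| * 0.995 ^ j * (m : ℝ) ^ (3 / 4 : ℝ) := ⟨_, rfl⟩
      have hq0 : 0 ≤ q := by rw [hq]; positivity
      have hcoef : 0 ≤ |C0| * (0.995 : ℝ) ^ j := by positivity
      have hwin : ∀ i, a ≤ i → i ≤ m + t + J → |h i| ≤ 9 / 8 * C1 * E m + C3 + 1.69 * q := by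
        intro i hi1 hi2
        have h1 := ih i (by omega)
        have h2 : E i ≤ 9 / 8 * E m := (hE.mono (show i ≤ 4 * m by omega)).trans g1
        have h3 : (i : ℝ) ^ (3 / 4 : ℝ) ≤ 1.69 * (m : ℝ) ^ (3 / 4 : ℝ) := by
          have hi3 : (i : ℝ) ≤ 2 * m := by exact_mod_cast (show i ≤ 2 * m by omega)
          calc (i : ℝ) ^ (3 / 4 : ℝ) ≤ (2 * m : ℝ) ^ (3 / 4 : ℝ) :=
                Real.rpow_le_rpow (by positivity) hi3 (by norm_num)
            _ = 2 ^ (3 / 4 : ℝ) * (m : ℝ) ^ (3 / 4 : ℝ) := Real.mul_rpow (by norm_num) hm0.le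
            _ ≤ _ := mul_le_mul_of_nonneg_right rp2 hg0
        have h4 := mul_le_mul_of_nonneg_left h3 hcoef
        have h5 := mul_le_mul_of_nonneg_left h2 hC10
        rw [hq]
        linarith
      have hosc := osc hD hc (m := a) (a := m) (t := t) (J := J) (by omega) hJ6 (by omega) hwin
      obtain ⟨X, hX⟩ : ∃ X : ℝ, X = 9 / 8 * C1 * E m + C3 + 1.69 * q := ⟨_, rfl⟩
      rw [← hX] at hosc
      have hX0 : 0 ≤ X := by
        rw [hX]
        have : 0 ≤ C1 * E m := by positivity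
        linarith
      have hJ0 : (0 : ℝ) < J := by linarith
      have ha0 : (0 : ℝ) < a := by exact_mod_cast (show 0 < a by omega)
      have o1 : (t : ℝ) * (2 * X / J) ≤ X / 16 := by
        rw [mul_div_assoc', div_le_div_iff₀ hJ0 (by norm_num)]
        have h9 : (t : ℝ) * 32 ≤ J := by linarith
        have h10 := mul_le_mul_of_nonneg_right h9 hX0
        linarith
      have o2 : (t : ℝ) * (J * (D / a)) ≤ 128 * D * δ ^ 2 * E m := by
        have h1 : (t : ℝ) * (J * (D / a)) = D * (t * J) / a := by field_simp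
        rw [h1, div_le_iff₀ ha0]
        have h2 : (t : ℝ) * J ≤ 64 * δ ^ 2 * (m * E m) := by
          rw [← hw2]
          calc (t : ℝ) * J ≤ (δ * w) * (64 * δ * w) :=
                mul_le_mul ht hJ3 hJ0.le (by positivity)
            _ = 64 * δ ^ 2 * w ^ 2 := by ring
        have h3 : 64 * δ ^ 2 * (m * E m) ≤ 128 * δ ^ 2 * E m * a := by
          have h9 : 0 ≤ 64 * δ ^ 2 * E m := by positivity
          have h10 := mul_le_mul_of_nonneg_left ha2 h9
          linarith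
        have h4 := mul_le_mul_of_nonneg_left (h2.trans h3) hD
        linarith
      have hosc2 : |h (m + t) - h m| ≤ X / 16 + 128 * D * δ ^ 2 * E m := by
        refine hosc.trans ?_
        rw [mul_add]
        linarith
      -- the doubled point
      have hd := ih (2 * (m + t)) (by omega)
      have hd1 : E (2 * (m + t)) ≤ 9 / 8 * E m :=
        (hE.mono (show 2 * (m + t) ≤ 4 * m by omega)).trans g1
      have hd1' : E (m + t) ≤ 9 / 8 * E m :=
        (hE.mono (show m + t ≤ 4 * m by omega)).trans g1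
      have hd2 : ((2 * (m + t) : ℕ) : ℝ) ^ (3 / 4 : ℝ) ≤ 1.77 * (m : ℝ) ^ (3 / 4 : ℝ) := by
        have hi3 : ((2 * (m + t) : ℕ) : ℝ) ≤ 17 / 8 * m := by
          push_cast
          linarith
        calc ((2 * (m + t) : ℕ) : ℝ) ^ (3 / 4 : ℝ) ≤ (17 / 8 * m : ℝ) ^ (3 / 4 : ℝ) :=
              Real.rpow_le_rpow (by positivity) hi3 (by norm_num)
          _ = (17 / 8) ^ (3 / 4 : ℝ) * (m : ℝ) ^ (3 / 4 : ℝ) := Real.mul_rpow (by norm_num) hm0.le
          _ ≤ _ := mul_le_mul_of_nonneg_right rp1 hg0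
      have hd3 : |h (2 * (m + t))| ≤ 9 / 8 * C1 * E m + C3 + 1.77 * q := by
        have h4 := mul_le_mul_of_nonneg_left hd2 hcoef
        have h5 := mul_le_mul_of_nonneg_left hd1 hC10
        rw [hq]
        linarith
      have hk4 : |h (2 * (m + t)) - 2 * h (m + t)| ≤ 9 / 8 * b * E m := by
        refine hk3.trans ?_
        have := mul_le_mul_of_nonneg_left hd1' hb
        linarith
      have f1 := abs_le.1 hk4
      have f2 := abs_le.1 hd3
      have f3 := abs_le.1 hosc2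
      have goal : |h m| ≤ (9 / 8 * C1 * E m + C3 + 1.77 * q) / 2 + 9 / 16 * b * E m + X / 16 +
          128 * D * δ ^ 2 * E m := by
        rw [abs_le]
        constructor
        · linarith [f1.1, f1.2, f2.1, f2.2, f3.1, f3.2]
        · linarith [f1.1, f1.2, f2.1, f2.2, f3.1, f3.2]
      refine goal.trans ?_
      rw [hX]
      have hfin2 : (9 / 16 + 9 / 128) * (C1 * E m) + 9 / 16 * b * E m + 128 * D * δ ^ 2 * E m ≤
          C1 * E m := by
        have h1 : 9 / 16 * b + 128 * D * δ ^ 2 ≤ (47 / 128) * C1 := by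
          rw [hC1]
          have : 0 ≤ D * δ ^ 2 := by positivity
          linarith
        have h2 := mul_le_mul_of_nonneg_right h1 (show 0 ≤ E m by linarith)
        linarith
      have hq2 : |C0| * 0.995 ^ (j + 1) * (m : ℝ) ^ (3 / 4 : ℝ) = 0.995 * q := by
        rw [hq, pow_succ]
        ring
      rw [hq2]
      linarith
  refine ⟨C3, hC30, ?_⟩
  filter_upwards [eventually_ge_atTop A] with m hm
  rw [← hC1]
  have ht : Tendsto (fun j : ℕ => C1 * E m + C3 + |C0| * 0.995 ^ j * (m : ℝ) ^ (3 / 4 : ℝ)) atTop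
      (𝓝 (C1 * E m + C3 + |C0| * 0 * (m : ℝ) ^ (3 / 4 : ℝ))) :=
    (((tendsto_pow_atTop_nhds_zero_of_lt_one (by norm_num) (by norm_num)).const_mul _).mul_const
      _).const_add _
  rw [mul_zero, zero_mul, add_zero] at ht
  exact ge_of_tendsto ht (Eventually.of_forall fun j => key j m hm)

end Pool.Agent.R93.Dbl
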