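import Pool.Agent.R93.Dbl2

/-!
# Doubling: limits, bounds, exponents
-/

set_option autoImplicit false
set_option linter.unusedVariables false

namespace Pool.Agent.R93.Dbl

open Filter Topology Pool.Agent.R956.K1

variable {h : ℕ → ℝ} {D : ℝ} {N : ℕ}

/-- the second difference of the logarithm -/
lemma log_second {k : ℕ} (hk : 1 ≤ k) :
    |2 * Real.log ((k + 1 : ℕ) : ℝ) - Real.log (k : ℝ) - Real.log ((k + 2 : ℕ) : ℝ)| ≤ 1 / k := by
  have hk0 : (0 : ℝ) < k := by exact_mod_cast hk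
  have hk1 : (0 : ℝ) < ((k + 1 : ℕ) : ℝ) := by positivity
  have hk2 : (0 : ℝ) < ((k + 2 : ℕ) : ℝ) := by positivity
  have e : 2 * Real.log ((k + 1 : ℕ) : ℝ) - Real.log (k : ℝ) - Real.log ((k + 2 : ℕ) : ℝ) =
      Real.log (((k + 1 : ℕ) : ℝ) ^ 2 / ((k : ℝ) * ((k + 2 : ℕ) : ℝ))) := by
    rw [Real.log_div (by positivity) (by positivity), Real.log_pow,
      Real.log_mul hk0.ne' hk2.ne']
    push_cast
    ring
  have e2 : ((k + 1 : ℕ) : ℝ) ^ 2 / ((k : ℝ) * ((k + 2 : ℕ) : ℝ)) =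
      1 + 1 / ((k : ℝ) * ((k + 2 : ℕ) : ℝ)) := by
    push_cast
    field_simp
    ring
  have h3 : 0 < 1 / ((k : ℝ) * ((k + 2 : ℕ) : ℝ)) := by positivity
  rw [e, e2, abs_of_nonneg (Real.log_nonneg (by linarith))]
  have h4 := Real.log_le_sub_one_of_pos (show 0 < 1 + 1 / ((k : ℝ) * ((k + 2 : ℕ) : ℝ)) by
    linarith)
  refine h4.trans ?_
  rw [add_sub_cancel_left]
  apply div_le_div_of_nonneg_left one_pos.le hk0
  push_cast
  nlinarith

lemma nc_of_kc {y : ℕ → ℝ} (K : Kc y D) (a : ℝ) :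
    ∃ N, NC (fun k => Real.log (y k) - a * Real.log k) (D + |a|) N := by
  obtain ⟨N, hN⟩ := eventually_atTop.1 K.conv
  refine ⟨N + 1, fun k hk => ?_⟩
  have h1 := hN k (by omega)
  have h2 := log_second (show 1 ≤ k by omega)
  have h3 : |a * (2 * Real.log ((k + 1 : ℕ) : ℝ) - Real.log (k : ℝ) -
      Real.log ((k + 2 : ℕ) : ℝ))| ≤ |a| * (1 / k) := by
    rw [abs_mul]
    exact mul_le_mul_of_nonneg_left h2 (abs_nonneg a)
  have h4 := (abs_le.1 h3).1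
  have e : (D + |a|) / (k : ℝ) = D / k + |a| * (1 / k) := by ring
  rw [e]
  simp only
  linarith

lemma nc_add (c : ℝ) (hc : NC h D N) : NC (fun k => h k + c) D N := by
  intro k hk
  have := hc k hk
  simp only
  linarith

/-- an a priori bound from a bound for the increments -/
lemma apri {l : ℕ → ℝ} (h0 : ∀ k, 0 ≤ l k) {K : ℝ}
    (hl : ∀ᶠ k : ℕ in atTop, l (k + 1) ≤ l k + K * (k : ℝ) ^ (-(1 / 4) : ℝ)) :
    ∃ C : ℝ, ∀ᶠ k : ℕ in atTop, |l k| ≤ C * (k : ℝ) ^ (3 / 4 : ℝ) := by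
  obtain ⟨M, hM⟩ := eventually_atTop.1 (hl.and (eventually_ge_atTop 1))
  obtain ⟨C, hC⟩ : ∃ C : ℝ, C = 3 * |K| + l M := ⟨_, rfl⟩
  have hCK : K ≤ C / 3 := by
    have := le_abs_self K
    have := h0 M
    linarith
  have hC0 : 0 ≤ C := by
    have := abs_nonneg K
    have := h0 M
    linarith
  refine ⟨C, ?_⟩
  filter_upwards [eventually_ge_atTop M] with k hk
  rw [abs_of_nonneg (h0 k)]
  induction k, hk using Nat.le_induction with
  | base =>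
    have h1 : (1 : ℝ) ≤ (M : ℝ) ^ (3 / 4 : ℝ) :=
      Real.one_le_rpow (by exact_mod_cast (hM M le_rfl).2) (by norm_num)
    have h2 : l M ≤ C := by
      have := abs_nonneg K
      linarith
    nlinarith
  | succ k hk ih =>
    obtain ⟨g1, g2⟩ := hM k hk
    have hk0 : (0 : ℝ) < k := by exact_mod_cast g2
    have hm : (k : ℝ) ^ (-(1 / 4) : ℝ) = (k : ℝ) ^ (3 / 4 : ℝ) / k := by
      rw [eq_div_iff hk0.ne']
      nth_rewrite 2 [← Real.rpow_one (k : ℝ)]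
      rw [← Real.rpow_add hk0]
      norm_num
    have hq : (k : ℝ) ^ (3 / 4 : ℝ) * (1 + 1 / (3 * k)) ≤ ((k + 1 : ℕ) : ℝ) ^ (3 / 4 : ℝ) := by
      have e1 : ((k + 1 : ℕ) : ℝ) = k * (1 + 1 / k) := by
        push_cast
        field_simp
      have h1k : 1 / (k : ℝ) ≤ 1 := by
        rw [div_le_iff₀ hk0, one_mul]
        exact_mod_cast g2
      have h1k0 : 0 < 1 / (k : ℝ) := by positivity
      rw [e1, Real.mul_rpow hk0.le (by positivity)]
      refine mul_le_mul_of_nonneg_left ?_ (by positivity)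
      have h2 : (1 + 1 / (k : ℝ)) ^ (1 / 2 : ℝ) ≤ (1 + 1 / (k : ℝ)) ^ (3 / 4 : ℝ) :=
        Real.rpow_le_rpow_of_exponent_le (by linarith) (by norm_num)
      refine le_trans ?_ h2
      rw [← Real.sqrt_eq_rpow]
      refine Real.le_sqrt_of_sq_le ?_
      have e3 : 1 / (3 * (k : ℝ)) = (1 / k) / 3 := by field_simp
      rw [e3]
      nlinarith
    have hg : 0 ≤ (k : ℝ) ^ (3 / 4 : ℝ) / k := by positivity
    have h5 : K * (k : ℝ) ^ (-(1 / 4) : ℝ) ≤ C / 3 * ((k : ℝ) ^ (3 / 4 : ℝ) / k) := by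
      rw [hm]
      exact mul_le_mul_of_nonneg_right hCK hg
    have h6 := mul_le_mul_of_nonneg_left hq hC0
    have e4 : C * ((k : ℝ) ^ (3 / 4 : ℝ) * (1 + 1 / (3 * k))) =
        C * (k : ℝ) ^ (3 / 4 : ℝ) + C / 3 * ((k : ℝ) ^ (3 / 4 : ℝ) / k) := by
      field_simp
    linarith

/-- adding `a log k + c` to a sequence with an a priori bound -/
lemma apri_add {l : ℕ → ℝ} {C : ℝ} (hl : ∀ᶠ k : ℕ in atTop, |l k| ≤ C * (k : ℝ) ^ (3 / 4 : ℝ))
    (a c : ℝ) : ∃ C' : ℝ, ∀ᶠ k : ℕ in atTop, |l k - a * Real.log k + c| ≤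
      C' * (k : ℝ) ^ (3 / 4 : ℝ) := by
  refine ⟨C + |a| * 2 + |c|, ?_⟩
  filter_upwards [hl, eventually_ge_atTop 1] with k hk hk1
  have hk0 : (1 : ℝ) ≤ k := by exact_mod_cast hk1
  have h1 : (1 : ℝ) ≤ (k : ℝ) ^ (3 / 4 : ℝ) := Real.one_le_rpow hk0 (by norm_num)
  have h2 : Real.log (k : ℝ) ≤ (k : ℝ) ^ (3 / 4 : ℝ) / (3 / 4) :=
    Real.log_le_rpow_div (by linarith) (by norm_num)
  have h3 := Real.log_nonneg hk0
  have h4 : |a * Real.log k| ≤ |a| * 2 * (k : ℝ) ^ (3 / 4 : ℝ) := by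
    rw [abs_mul, abs_of_nonneg h3, mul_assoc]
    refine mul_le_mul_of_nonneg_left ?_ (abs_nonneg a)
    linarith
  have h5 : |c| ≤ |c| * (k : ℝ) ^ (3 / 4 : ℝ) := le_mul_of_one_le_right (abs_nonneg c) h1
  have h6 := abs_add_le (l k - a * Real.log k) c
  have h7 := abs_sub (l k) (a * Real.log k)
  have e : (C + |a| * 2 + |c|) * (k : ℝ) ^ (3 / 4 : ℝ) = C * (k : ℝ) ^ (3 / 4 : ℝ) +
      |a| * 2 * (k : ℝ) ^ (3 / 4 : ℝ) + |c| * (k : ℝ) ^ (3 / 4 : ℝ) := by ring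
  rw [e]
  linarith

/-- increments of a bounded nearly convex sequence -/
lemma osc_bdd (hD : 0 ≤ D) (hc : NC h D N) {X : ℝ} (hX0 : 0 ≤ X)
    (hX : ∀ᶠ m : ℕ in atTop, |h m| ≤ X) :
    ∀ᶠ m : ℕ in atTop, ∀ t : ℕ, |h (m + t) - h m| ≤ t * ((2 * X + 4 * D) / √(m : ℝ)) := by
  obtain ⟨M, hM⟩ := eventually_atTop.1 hX
  filter_upwards [eventually_ge_atTop (2 * M + 2 * N + 64)] with m hm t
  have hm0 : (64 : ℝ) ≤ m := by exact_mod_cast (show 64 ≤ m by omega)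
  have hs0 : 0 < √(m : ℝ) := Real.sqrt_pos.2 (by linarith)
  have hs2 : √(m : ℝ) ^ 2 = m := Real.sq_sqrt (by linarith)
  have hs8 : 8 ≤ √(m : ℝ) := by
    refine Real.le_sqrt_of_sq_le ?_
    linarith
  obtain ⟨J, hJ⟩ : ∃ J : ℕ, J = ⌈√(m : ℝ)⌉₊ := ⟨_, rfl⟩
  have hJ1 : √(m : ℝ) ≤ J := by rw [hJ]; exact Nat.le_ceil _
  have hJ2 : (J : ℝ) < √(m : ℝ) + 1 := by rw [hJ]; exact Nat.ceil_lt_add_one hs0.le
  have hJ3 : (J : ℝ) ≤ 2 * √(m : ℝ) := by linarith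
  have hJ4 : 4 * (J : ℝ) ≤ m := by nlinarith
  have hJ5 : 4 * J ≤ m := by exact_mod_cast hJ4
  have hJ0 : (0 : ℝ) < J := by linarith
  have hJ6 : 1 ≤ J := by
    have : (1 : ℝ) ≤ J := by linarith
    exact_mod_cast this
  obtain ⟨a, ha⟩ : ∃ a : ℕ, a = (m + 1) / 2 := ⟨_, rfl⟩
  have ha2 : (m : ℝ) ≤ 2 * a := by exact_mod_cast (show m ≤ 2 * a by omega)
  have ha0 : (0 : ℝ) < a := by linarith
  have h1 := osc hD hc (m := a) (a := m) (t := t) (J := J) (by omega) hJ6 (by omega) (X := X)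
    (fun i hi _ => hM i (by omega))
  refine h1.trans (mul_le_mul_of_nonneg_left ?_ (Nat.cast_nonneg t))
  have h2 : 2 * X / J ≤ 2 * X / √(m : ℝ) := div_le_div_of_nonneg_left (by linarith) hs0 hJ1
  have h3 : (J : ℝ) * (D / a) ≤ 4 * D / √(m : ℝ) := by
    rw [mul_div_assoc', div_le_div_iff₀ ha0 hs0]
    have h4 : (J : ℝ) * √(m : ℝ) ≤ 4 * a := by
      have := mul_le_mul_of_nonneg_right hJ3 hs0.le
      nlinarith
    have h5 := mul_le_mul_of_nonneg_left h4 hD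
    linarith
  rw [add_div]
  linarith

/-- a bounded sequence with `e (2 m) - 2 e m → 0` tends to `0` -/
lemma double_zero {e : ℕ → ℝ} {X : ℝ} (hX : ∀ᶠ m : ℕ in atTop, |e m| ≤ X)
    (hd : ∀ ε : ℝ, 0 < ε → ∀ᶠ m : ℕ in atTop, |e (2 * m) - 2 * e m| ≤ ε) :
    Tendsto e atTop (𝓝 0) := by
  rw [Metric.tendsto_atTop]
  intro ε hε
  obtain ⟨M, hM⟩ := eventually_atTop.1 (hX.and (hd (ε / 2) (by positivity)))
  refine ⟨M, fun m hm => ?_⟩
  rw [Real.dist_eq, sub_zero]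
  have key : ∀ j : ℕ, ∀ m : ℕ, M ≤ m → |e m| ≤ X * (1 / 2) ^ j + ε / 2 := by
    intro j
    induction j with
    | zero =>
      intro m hm
      have := (hM m hm).1
      rw [pow_zero, mul_one]
      linarith
    | succ j ih =>
      intro m hm
      have h1 := abs_le.1 (hM m hm).2
      have h2 := abs_le.1 (ih (2 * m) (by omega))
      rw [pow_succ, abs_le]
      constructor
      · linarith [h1.1, h1.2, h2.1, h2.2]
      · linarith [h1.1, h1.2, h2.1, h2.2]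
  have ht : Tendsto (fun j : ℕ => X * (1 / 2 : ℝ) ^ j + ε / 2) atTop (𝓝 (X * 0 + ε / 2)) :=
    ((tendsto_pow_atTop_nhds_zero_of_lt_one (by norm_num) (by norm_num)).const_mul _).add_const _
  rw [mul_zero, zero_add] at ht
  have := ge_of_tendsto ht (Eventually.of_forall fun j => key j m hm)
  linarith

/-- **bounds** -/
theorem bdd (hD : 0 ≤ D) (hc : NC h D N) {C0 : ℝ}
    (hap : ∀ᶠ m : ℕ in atTop, |h m| ≤ C0 * (m : ℝ) ^ (3 / 4 : ℝ)) {δ b : ℝ} (hδ : 0 < δ)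
    (hS : ∀ᶠ m : ℕ in atTop, ∃ k : ℕ, m ≤ k ∧ (k : ℝ) ≤ m + δ * √(m : ℝ) ∧
      |h (2 * k) - 2 * h k| ≤ b) :
    ∃ X : ℝ, 0 ≤ X ∧ ∀ᶠ m : ℕ in atTop, |h m| ≤ X := by
  obtain ⟨C, hC0, hC⟩ := boot hD hc sc_one (Eventually.of_forall fun m => by norm_num) hap hδ
    (abs_nonneg b) (by
      filter_upwards [hS] with m hm
      obtain ⟨k, h1, h2, h3⟩ := hm
      refine ⟨k, h1, by simpa using h2, ?_⟩
      rw [mul_one]
      exact h3.trans (le_abs_self b))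
  refine ⟨(2 * |b| + 400 * D * δ ^ 2) * 1 + C, by positivity, hC⟩

/-- **limits** -/
theorem lim (hD : 0 ≤ D) (hc : NC h D N) {C0 : ℝ} (c : ℝ)
    (hap : ∀ᶠ m : ℕ in atTop, |h m + c| ≤ C0 * (m : ℝ) ^ (3 / 4 : ℝ))
    (hS : ∀ ε δ : ℝ, 0 < ε → 0 < δ → ∀ᶠ m : ℕ in atTop, ∃ k : ℕ, m ≤ k ∧
      (k : ℝ) ≤ m + δ * √(m : ℝ) ∧ |h (2 * k) - 2 * h k - c| ≤ ε) :
    Tendsto h atTop (𝓝 (-c)) := by
  have hc' := nc_add c hc
  have hS' : ∀ ε δ : ℝ, 0 < ε → 0 < δ → ∀ᶠ m : ℕ in atTop, ∃ k : ℕ, m ≤ k ∧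
      (k : ℝ) ≤ m + δ * √(m : ℝ) ∧ |(h (2 * k) + c) - 2 * (h k + c)| ≤ ε := by
    intro ε δ hε hδ
    filter_upwards [hS ε δ hε hδ] with m hm
    obtain ⟨k, h1, h2, h3⟩ := hm
    refine ⟨k, h1, h2, ?_⟩
    rwa [show (h (2 * k) + c) - 2 * (h k + c) = h (2 * k) - 2 * h k - c by ring]
  obtain ⟨X, hX0, hX⟩ := bdd hD hc' hap one_pos (hS' 1 1 one_pos one_pos)
  have ho := osc_bdd hD hc' hX0 hX
  obtain ⟨B, hB⟩ : ∃ B : ℝ, B = 2 * X + 4 * D := ⟨_, rfl⟩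
  rw [← hB] at ho
  have hB0 : 0 ≤ B := by rw [hB]; positivity
  have h2m : Tendsto (fun m : ℕ => 2 * m) atTop atTop :=
    tendsto_atTop_mono (fun m => by simp only [id]; omega) tendsto_id
  have hd : ∀ ε : ℝ, 0 < ε → ∀ᶠ m : ℕ in atTop, |(h (2 * m) + c) - 2 * (h m + c)| ≤ ε := by
    intro ε hε
    obtain ⟨δ, hδ⟩ : ∃ δ : ℝ, δ = ε / (8 * (B + 1)) := ⟨_, rfl⟩
    have hδ0 : 0 < δ := by rw [hδ]; positivity
    filter_upwards [hS' (ε / 2) δ (by positivity) hδ0, ho, h2m.eventually ho,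
      eventually_ge_atTop 1] with m g1 g2 g3 hm
    obtain ⟨k, k1, k2, k3⟩ := g1
    obtain ⟨t, rfl⟩ : ∃ t, k = m + t := ⟨k - m, by omega⟩
    have hm0 : (0 : ℝ) < m := by exact_mod_cast (show 0 < m by omega)
    have hs0 : 0 < √(m : ℝ) := Real.sqrt_pos.2 hm0
    have ht : (t : ℝ) ≤ δ * √(m : ℝ) := by
      push_cast at k2
      linarith
    have a1 : |(h (m + t) + c) - (h m + c)| ≤ δ * B := by
      refine (g2 t).trans ?_
      rw [mul_div_assoc', div_le_iff₀ hs0]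
      have := mul_le_mul_of_nonneg_right ht hB0
      linarith
    have a2 : |(h (2 * m + 2 * t) + c) - (h (2 * m) + c)| ≤ 2 * (δ * B) := by
      refine (g3 (2 * t)).trans ?_
      have hs1 : √(m : ℝ) ≤ √((2 * m : ℕ) : ℝ) :=
        Real.sqrt_le_sqrt (by push_cast; linarith)
      have hs2 : 0 < √((2 * m : ℕ) : ℝ) := lt_of_lt_of_le hs0 hs1
      rw [mul_div_assoc', div_le_iff₀ hs2]
      push_cast
      have h1 := mul_le_mul_of_nonneg_right ht hB0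
      have h2 := mul_le_mul_of_nonneg_left hs1 (show 0 ≤ δ * B by positivity)
      push_cast at h2
      linarith
    have hδB : 4 * (δ * B) ≤ ε / 2 := by
      rw [hδ, div_mul_eq_mul_div, mul_div_assoc', div_le_div_iff₀ (by positivity) (by norm_num)]
      nlinarith
    rw [show 2 * (m + t) = 2 * m + 2 * t by ring] at k3
    have b1 := abs_le.1 a1
    have b2 := abs_le.1 a2
    have b3 := abs_le.1 k3
    rw [abs_le]
    constructor
    · linarith [b1.1, b1.2, b2.1, b2.2, b3.1, b3.2]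
    · linarith [b1.1, b1.2, b2.1, b2.2, b3.1, b3.2]
  have h1 := double_zero hX hd
  have h2 := h1.add_const (-c)
  rw [zero_add] at h2
  refine h2.congr fun m => ?_
  ring

lemma slow_log : ∀ᶠ m : ℕ in atTop, (fun n : ℕ => 1 + Real.log (n : ℝ)) (4 * m) ≤
    9 / 8 * (fun n : ℕ => 1 + Real.log (n : ℝ)) m := by
  have h1 : Tendsto (fun k : ℕ => Real.log (k : ℝ)) atTop atTop :=
    Real.tendsto_log_atTop.comp tendsto_natCast_atTop_atTop
  filter_upwards [h1.eventually_ge_atTop (8 * Real.log 4), eventually_ge_atTop 1] with m hm hm1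
  have hm0 : (0 : ℝ) < m := by exact_mod_cast hm1
  show 1 + Real.log ((4 * m : ℕ) : ℝ) ≤ 9 / 8 * (1 + Real.log (m : ℝ))
  push_cast
  rw [Real.log_mul (by norm_num) hm0.ne']
  linarith

/-- **exponents** -/
theorem expo (hD : 0 ≤ D) (hc : NC h D N) {C0 : ℝ}
    (hap : ∀ᶠ m : ℕ in atTop, |h m| ≤ C0 * (m : ℝ) ^ (3 / 4 : ℝ))
    (hS : ∀ ε δ : ℝ, 0 < ε → 0 < δ → ∀ᶠ m : ℕ in atTop, ∃ k : ℕ, m ≤ k ∧
      (k : ℝ) ≤ m + δ * √(m * Real.log m) ∧ |h (2 * k) - 2 * h k| ≤ ε * (1 + Real.log k)) :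
    ∀ ε : ℝ, 0 < ε → ∀ᶠ m : ℕ in atTop, |h m| ≤ ε * Real.log m := by
  intro ε hε
  obtain ⟨δ, hδ0, hδ⟩ : ∃ δ : ℝ, 0 < δ ∧ 400 * D * δ ^ 2 ≤ ε / 8 := by
    refine ⟨√(ε / (3200 * (D + 1))), Real.sqrt_pos.2 (by positivity), ?_⟩
    rw [Real.sq_sqrt (by positivity), mul_div_assoc', div_le_div_iff₀ (by positivity)
      (by norm_num)]
    nlinarith
  obtain ⟨C, hC0, hC⟩ := boot hD hc sc_log slow_log hap hδ0 (b := ε / 16) (by positivity) (by
      filter_upwards [hS (ε / 16) δ (by positivity) hδ0, eventually_ge_atTop 1] with m hm hm1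
      obtain ⟨k, h1, h2, h3⟩ := hm
      refine ⟨k, h1, h2.trans ?_, h3⟩
      have : √((m : ℝ) * Real.log m) ≤ √((m : ℝ) * (1 + Real.log m)) := by
        refine Real.sqrt_le_sqrt (mul_le_mul_of_nonneg_left (by linarith) (Nat.cast_nonneg m))
      have := mul_le_mul_of_nonneg_left this hδ0.le
      linarith)
  have h1 : Tendsto (fun k : ℕ => Real.log (k : ℝ)) atTop atTop :=
    Real.tendsto_log_atTop.comp tendsto_natCast_atTop_atTop
  filter_upwards [hC, h1.eventually_ge_atTop (4 * C / ε), h1.eventually_ge_atTop 1]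
    with m g1 g2 g3
  refine g1.trans ?_
  rw [div_le_iff₀ hε] at g2
  have h5 : (2 * (ε / 16) + 400 * D * δ ^ 2) * (1 + Real.log m) ≤
      (ε / 4) * (2 * Real.log m) := by
    refine mul_le_mul (by linarith) (by linarith) (by linarith) (by positivity)
  have h6 : 4 * C ≤ Real.log m * ε := g2
  linarith

end Pool.Agent.R93.Dbl
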