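import Pool.Agent.R93.Dbl3
import Pool.Agent.R956.K4

/-!
# Doubling for numbers of self-avoiding walks: `c (2 n) / c n ^ 2` along sparse lengths
-/

set_option autoImplicit false
set_option linter.unusedVariables false

namespace Pool.Agent.R93.Dbl

open Filter Topology Pool.Agent.R956.K1
open Pool.Agent.Y943.SL (Wk)

variable {c : ℕ → ℝ} {μ : ℝ}

/-- slow growth of the normalised numbers at even lengths -/
def Slow (c : ℕ → ℝ) (μ : ℝ) : Prop :=
  ∃ K : ℝ, ∀ᶠ k : ℕ in atTop, Real.log (c (2 * (k + 1)) / μ ^ (2 * (k + 1))) ≤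
    Real.log (c (2 * k) / μ ^ (2 * k)) + K * (k : ℝ) ^ (-(1 / 4) : ℝ)

lemma slow_of_rate (W : Wk c μ) {K : ℝ} (hr : ∀ n : ℕ, 2 ≤ n →
    |c (n + 2) / μ ^ (n + 2) / (c n / μ ^ n) - 1| ≤ K * (Real.log n / √(n : ℝ))) : Slow c μ := by
  refine ⟨4 * |K|, ?_⟩
  filter_upwards [eventually_ge_atTop 1] with k hk
  have hk0 : (0 : ℝ) < k := by exact_mod_cast (show 0 < k by omega)
  have h2k : (0 : ℝ) < ((2 * k : ℕ) : ℝ) := by push_cast; linarith
  have h1 := hr (2 * k) (by omega)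
  have p0 := W.pos (2 * k)
  have p1 := W.pos (2 * k + 2)
  rw [show 2 * (k + 1) = 2 * k + 2 by ring]
  have h2 : Real.log (c (2 * k + 2) / μ ^ (2 * k + 2)) - Real.log (c (2 * k) / μ ^ (2 * k)) ≤
      K * (Real.log ((2 * k : ℕ) : ℝ) / √((2 * k : ℕ) : ℝ)) := by
    rw [← Real.log_div p1.ne' p0.ne']
    refine (Real.log_le_sub_one_of_pos (div_pos p1 p0)).trans ?_
    exact (le_abs_self _).trans h1
  have h3 : Real.log ((2 * k : ℕ) : ℝ) / √((2 * k : ℕ) : ℝ) ≤ 4 * (k : ℝ) ^ (-(1 / 4) : ℝ) := by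
    have g1 : Real.log ((2 * k : ℕ) : ℝ) ≤ ((2 * k : ℕ) : ℝ) ^ (1 / 4 : ℝ) / (1 / 4) :=
      Real.log_le_rpow_div h2k.le (by norm_num)
    have g2 : √((2 * k : ℕ) : ℝ) = ((2 * k : ℕ) : ℝ) ^ (1 / 4 : ℝ) *
        ((2 * k : ℕ) : ℝ) ^ (1 / 4 : ℝ) := by
      rw [← Real.rpow_add h2k, Real.sqrt_eq_rpow]
      norm_num
    have hx : 0 < ((2 * k : ℕ) : ℝ) ^ (1 / 4 : ℝ) := by positivity
    have hy : 0 < (k : ℝ) ^ (1 / 4 : ℝ) := by positivity
    have hxy : (k : ℝ) ^ (1 / 4 : ℝ) ≤ ((2 * k : ℕ) : ℝ) ^ (1 / 4 : ℝ) :=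
      Real.rpow_le_rpow hk0.le (by push_cast; linarith) (by norm_num)
    rw [Real.rpow_neg hk0.le, g2, div_le_iff₀ (by positivity)]
    refine g1.trans ?_
    rw [← div_eq_mul_inv, div_mul_eq_mul_div, le_div_iff₀ hy]
    have h9 := mul_le_mul_of_nonneg_left hxy hx.le
    linarith
  have h4 : K * (Real.log ((2 * k : ℕ) : ℝ) / √((2 * k : ℕ) : ℝ)) ≤
      |K| * (4 * (k : ℝ) ^ (-(1 / 4) : ℝ)) := by
    have h5 : 0 ≤ Real.log ((2 * k : ℕ) : ℝ) / √((2 * k : ℕ) : ℝ) :=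
      div_nonneg (Real.log_natCast_nonneg _) (Real.sqrt_nonneg _)
    exact (mul_le_mul_of_nonneg_right (le_abs_self K) h5).trans
      (mul_le_mul_of_nonneg_left h3 (abs_nonneg K))
  linarith

/-- `h k = log (r (2 k)) - α log k` -/
noncomputable def hh (c : ℕ → ℝ) (μ α : ℝ) (k : ℕ) : ℝ :=
  Real.log (c (2 * k) / μ ^ (2 * k)) - α * Real.log k

lemma hh_nc (W : Wk c μ) (α : ℝ) : ∃ (D : ℝ) (N : ℕ), 0 ≤ D ∧ NC (hh c μ α) D N := by
  obtain ⟨D, K⟩ := Pool.Agent.R956.K3.kc W (show 0 ≤ 1 by norm_num)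
  simp only [add_zero] at K
  obtain ⟨N, hN⟩ := nc_of_kc K α
  exact ⟨D + |α|, N, add_nonneg K.D0 (abs_nonneg _), hN⟩

lemma hh_ap (W : Wk c μ) (hs : Slow c μ) (α b : ℝ) :
    ∃ C : ℝ, ∀ᶠ k : ℕ in atTop, |hh c μ α k + b| ≤ C * (k : ℝ) ^ (3 / 4 : ℝ) := by
  obtain ⟨K, hK⟩ := hs
  obtain ⟨C, hC⟩ := apri (l := fun k => Real.log (c (2 * k) / μ ^ (2 * k)))
    (fun k => Real.log_nonneg (W.one_le _)) hK
  exact apri_add hC α b

lemma hh_dbl (W : Wk c μ) (α : ℝ) {k : ℕ} (hk : 1 ≤ k) :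
    hh c μ α (2 * k) - 2 * hh c μ α k = Real.log (c (2 * (2 * k)) / c (2 * k) ^ 2) +
      α * Real.log ((2 * k : ℕ) : ℝ) - 2 * α * Real.log 2 := by
  have hk0 : (0 : ℝ) < k := by exact_mod_cast hk
  rw [W.log_ratio (2 * k)]
  unfold hh
  have e : Real.log ((2 * k : ℕ) : ℝ) = Real.log 2 + Real.log k := by
    push_cast
    rw [Real.log_mul (by norm_num) hk0.ne']
  rw [e]
  ring

lemma sqrt_two_le (x : ℝ) : √(2 * x) ≤ 2 * √x := by
  rw [Real.sqrt_mul (by norm_num)]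
  refine mul_le_mul_of_nonneg_right ?_ (Real.sqrt_nonneg _)
  rw [Real.sqrt_le_left (by norm_num)]
  norm_num

lemma two_tend : Tendsto (fun m : ℕ => 2 * m) atTop atTop :=
  tendsto_atTop_mono (fun m => by simp only [id]; omega) tendsto_id

/-- comparison of `P` at the length `s` and at the even length `2 ⌊s/2⌋` -/
lemma near_even (W : Wk c μ) (α : ℝ) : ∃ B : ℝ, 0 ≤ B ∧ ∀ s : ℕ, 2 ≤ s →
    |(Real.log (c (2 * (2 * (s / 2))) / c (2 * (s / 2)) ^ 2) +
      α * Real.log ((2 * (s / 2) : ℕ) : ℝ)) -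
      (Real.log (c (2 * s) / c s ^ 2) + α * Real.log (s : ℝ))| ≤ B := by
  obtain ⟨B0, hB0⟩ := W.par
  have hB00 : 0 ≤ B0 := (abs_nonneg _).trans (hB0 1 le_rfl)
  have hl2 : 0 < Real.log 2 := Real.log_pos (by norm_num)
  refine ⟨4 * B0 + |α| * Real.log 2, by positivity, fun s hs => ?_⟩
  rcases Nat.even_or_odd' s with ⟨k, rfl | rfl⟩
  · rw [show 2 * k / 2 = k by omega, sub_self, abs_zero]
    positivity
  · rw [show (2 * k + 1) / 2 = k by omega]
    have hk : 1 ≤ k := by omega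
    have hk0 : (1 : ℝ) ≤ k := by exact_mod_cast hk
    rw [W.log_ratio, W.log_ratio]
    have h1 := abs_le.1 (hB0 (2 * k) (by omega))
    have h2 := abs_le.1 (hB0 (2 * (2 * k)) (by omega))
    have h3 := abs_le.1 (hB0 (2 * (2 * k) + 1) (by omega))
    rw [show 2 * (2 * k) + 1 + 1 = 2 * (2 * k + 1) by ring] at h3
    have h4 : |α * Real.log ((2 * k + 1 : ℕ) : ℝ) - α * Real.log ((2 * k : ℕ) : ℝ)| ≤
        |α| * Real.log 2 := by
      rw [← mul_sub, abs_mul]
      refine mul_le_mul_of_nonneg_left ?_ (abs_nonneg α)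
      have p1 : (0 : ℝ) < ((2 * k : ℕ) : ℝ) := by push_cast; linarith
      have p2 : (0 : ℝ) < ((2 * k + 1 : ℕ) : ℝ) := by positivity
      rw [← Real.log_div p2.ne' p1.ne']
      have q1 : (1 : ℝ) ≤ ((2 * k + 1 : ℕ) : ℝ) / ((2 * k : ℕ) : ℝ) := by
        rw [one_le_div p1]
        push_cast
        linarith
      rw [abs_of_nonneg (Real.log_nonneg q1)]
      refine Real.log_le_log (by positivity) ?_
      rw [div_le_iff₀ p1]
      push_cast
      linarith
    have h5 := abs_le.1 h4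
    rw [abs_le]
    constructor
    · linarith [h1.1, h1.2, h2.1, h2.2, h3.1, h3.2, h5.1, h5.2]
    · linarith [h1.1, h1.2, h2.1, h2.2, h3.1, h3.2, h5.1, h5.2]

/-- **form along gaps `o(√n)`, even lengths** -/
theorem form (W : Wk c μ) (hs : Slow c μ) {S : Set ℕ} (hev : ∀ m ∈ S, m % 2 = 0)
    (hS : ∀ δ : ℝ, 0 < δ → ∀ᶠ n : ℕ in atTop, ∃ m ∈ S, n ≤ m ∧ (m : ℝ) ≤ n + δ * √(n : ℝ))
    {α B : ℝ} (hB : 0 < B)
    (h : Tendsto (fun n : ℕ => c (2 * n) / c n ^ 2 * (n : ℝ) ^ α) (atTop ⊓ 𝓟 S) (𝓝 B)) :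
    Tendsto (fun n : ℕ => c n / μ ^ n / (n : ℝ) ^ α) (atTop ⊓ 𝓟 {n | n % 2 = 0})
      (𝓝 (2 ^ α / B)) := by
  obtain ⟨D, N, hD, hc⟩ := hh_nc W α
  obtain ⟨b, hb⟩ : ∃ b : ℝ, b = Real.log B - 2 * α * Real.log 2 := ⟨_, rfl⟩
  obtain ⟨C, hC⟩ := hh_ap W hs α b
  have hlim := lim hD hc b hC (by
    intro ε δ hε hδ
    have h2 : Tendsto (fun n : ℕ => Real.log (c (2 * n) / c n ^ 2 * (n : ℝ) ^ α)) (atTop ⊓ 𝓟 S)
        (𝓝 (Real.log B)) := (Real.continuousAt_log hB.ne').tendsto.comp h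
    have h3 := Metric.tendsto_nhds.mp h2 ε hε
    rw [eventually_inf_principal, eventually_atTop] at h3
    obtain ⟨M, hM⟩ := h3
    filter_upwards [two_tend.eventually (hS δ hδ), eventually_ge_atTop (M + 1)] with m hm hm1
    obtain ⟨s, hsS, hs1, hs2⟩ := hm
    have hsev := hev s hsS
    obtain ⟨k, rfl⟩ : ∃ k, s = 2 * k := ⟨s / 2, by omega⟩
    refine ⟨k, by omega, ?_, ?_⟩
    · have h5 := mul_le_mul_of_nonneg_left (sqrt_two_le (m : ℝ)) hδ.le
      push_cast at hs2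
      linarith
    · have h6 := hM (2 * k) (by omega) hsS
      have hk0 : (0 : ℝ) < ((2 * k : ℕ) : ℝ) := by exact_mod_cast (show 0 < 2 * k by omega)
      have hp1 := W.cpos (2 * (2 * k))
      have hp2 := W.cpos (2 * k)
      rw [Real.dist_eq, Real.log_mul (by positivity) (by positivity), Real.log_rpow hk0] at h6
      rw [hh_dbl W α (show 1 ≤ k by omega), hb]
      rw [show Real.log (c (2 * (2 * k)) / c (2 * k) ^ 2) + α * Real.log ((2 * k : ℕ) : ℝ) -
        2 * α * Real.log 2 - (Real.log B - 2 * α * Real.log 2) =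
        Real.log (c (2 * (2 * k)) / c (2 * k) ^ 2) + α * Real.log ((2 * k : ℕ) : ℝ) -
          Real.log B by ring]
      exact h6.le)
  rw [Pool.Agent.R956.K3.par_iff (show 0 ≤ 1 by norm_num)]
  simp only [add_zero]
  have h3 : Tendsto (fun k : ℕ => Real.exp (hh c μ α k - α * Real.log 2)) atTop
      (𝓝 (Real.exp (-b - α * Real.log 2))) :=
    (Real.continuous_exp.tendsto _).comp (hlim.sub_const _)
  have e1 : Real.exp (-b - α * Real.log 2) = 2 ^ α / B := by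
    rw [hb, show -(Real.log B - 2 * α * Real.log 2) - α * Real.log 2 =
      Real.log 2 * α - Real.log B by ring, Real.exp_sub, Real.exp_log hB,
      Real.rpow_def_of_pos (by norm_num)]
  rw [e1] at h3
  refine h3.congr' ?_
  filter_upwards [eventually_ge_atTop 1] with k hk
  have hk0 : (0 : ℝ) < k := by exact_mod_cast hk
  have hr := W.pos (2 * k)
  unfold hh
  rw [show Real.log (c (2 * k) / μ ^ (2 * k)) - α * Real.log k - α * Real.log 2 =
    Real.log (c (2 * k) / μ ^ (2 * k)) - Real.log ((2 * k : ℕ) : ℝ) * α by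
      push_cast
      rw [Real.log_mul (by norm_num) hk0.ne']
      ring, Real.exp_sub, Real.exp_log hr,
    ← Real.rpow_def_of_pos (show (0 : ℝ) < ((2 * k : ℕ) : ℝ) by push_cast; linarith)]

lemma evens_gap (δ : ℝ) (hδ : 0 < δ) : ∀ᶠ n : ℕ in atTop, ∃ m ∈ {m : ℕ | m % 2 = 0}, n ≤ m ∧
    (m : ℝ) ≤ n + δ * √(n : ℝ) := by
  have h1 : Tendsto (fun n : ℕ => √(n : ℝ)) atTop atTop :=
    Real.tendsto_sqrt_atTop.comp tendsto_natCast_atTop_atTop
  filter_upwards [h1.eventually_ge_atTop (1 / δ)] with n hn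
  rw [div_le_iff₀ hδ] at hn
  refine ⟨n + n % 2, ?_, by omega, ?_⟩
  · show (n + n % 2) % 2 = 0
    omega
  · have : ((n % 2 : ℕ) : ℝ) ≤ 1 := by exact_mod_cast (show n % 2 ≤ 1 by omega)
    push_cast at this ⊢
    linarith

lemma P_form (W : Wk c μ) (α : ℝ) {n : ℕ} (hn : 1 ≤ n) :
    c (2 * n) / c n ^ 2 * (n : ℝ) ^ α = (c (2 * n) / μ ^ (2 * n) / ((2 * n : ℕ) : ℝ) ^ α) /
      (c n / μ ^ n / (n : ℝ) ^ α) ^ 2 * 2 ^ α := by
  have hn0 : (0 : ℝ) < n := by exact_mod_cast hn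
  have h1 := W.cpos n
  have h2 := pow_pos W.hμ n
  have h3 : (0 : ℝ) < (n : ℝ) ^ α := by positivity
  have h4 : (0 : ℝ) < (2 : ℝ) ^ α := by positivity
  have h5 : ((2 * n : ℕ) : ℝ) ^ α = 2 ^ α * (n : ℝ) ^ α := by
    push_cast
    rw [Real.mul_rpow (by norm_num) hn0.le]
  rw [h5, show 2 * n = n + n by ring, pow_add]
  field_simp

/-- **two-sided bounds along gaps `O(√n)` of any parities** -/
theorem bounds (W : Wk c μ) (hs : Slow c μ) {S : Set ℕ} {δ : ℝ} (hδ : 0 < δ)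
    (hS : ∀ᶠ n : ℕ in atTop, ∃ m ∈ S, n ≤ m ∧ (m : ℝ) ≤ n + δ * √(n : ℝ)) {α A B : ℝ}
    (hA : 0 < A)
    (h : ∀ᶠ n : ℕ in atTop, n ∈ S → A ≤ c (2 * n) / c n ^ 2 * (n : ℝ) ^ α ∧
      c (2 * n) / c n ^ 2 * (n : ℝ) ^ α ≤ B) :
    ∃ A' B' : ℝ, 0 < A' ∧ 0 < B' ∧ ∀ᶠ n : ℕ in atTop,
      (A' ≤ c (2 * n) / c n ^ 2 * (n : ℝ) ^ α ∧ c (2 * n) / c n ^ 2 * (n : ℝ) ^ α ≤ B') ∧
      A' ≤ c n / μ ^ n / (n : ℝ) ^ α ∧ c n / μ ^ n / (n : ℝ) ^ α ≤ B' := by
  obtain ⟨D, N, hD, hc⟩ := hh_nc W α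
  obtain ⟨C, hC⟩ := hh_ap W hs α 0
  simp only [add_zero] at hC
  obtain ⟨B1, hB10, hB1⟩ := near_even W α
  obtain ⟨M, hM⟩ := eventually_atTop.1 h
  obtain ⟨X, hX0, hX⟩ := bdd (b := |Real.log A| + |Real.log B| + B1 + |2 * α * Real.log 2|)
    hD hc hC hδ (by
    filter_upwards [two_tend.eventually hS, eventually_ge_atTop (M + 2)] with m hm hm1
    obtain ⟨s, hsS, hs1, hs2⟩ := hm
    have hk2 : 2 * ((s / 2 : ℕ) : ℝ) ≤ s := by exact_mod_cast (show 2 * (s / 2) ≤ s by omega)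
    refine ⟨s / 2, by omega, ?_, ?_⟩
    · have h5 := mul_le_mul_of_nonneg_left (sqrt_two_le (m : ℝ)) hδ.le
      push_cast at hs2
      linarith
    · obtain ⟨g1, g2⟩ := hM s (by omega) hsS
      have hs0 : (0 : ℝ) < s := by exact_mod_cast (show 0 < s by omega)
      have p1 := W.cpos (2 * s)
      have p2 := W.cpos s
      have g3 := Real.log_le_log hA g1
      have g4 := Real.log_le_log (lt_of_lt_of_le hA g1) g2
      rw [Real.log_mul (by positivity) (by positivity), Real.log_rpow hs0] at g3 g4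
      have g5 := abs_le.1 (hB1 s (by omega))
      rw [hh_dbl W α (show 1 ≤ s / 2 by omega)]
      have b1 := neg_abs_le (Real.log A)
      have b2 := le_abs_self (Real.log B)
      have b3 := abs_nonneg (Real.log A)
      have b4 := abs_nonneg (Real.log B)
      have b5 := neg_abs_le (2 * α * Real.log 2)
      have b6 := le_abs_self (2 * α * Real.log 2)
      rw [abs_le]
      constructor
      · linarith [g5.1, g5.2]
      · linarith [g5.1, g5.2])
  -- bounds at even lengths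
  obtain ⟨A2, hA2⟩ : ∃ A2 : ℝ, A2 = Real.exp (-X - |α| * Real.log 2) := ⟨_, rfl⟩
  obtain ⟨B2, hB2⟩ : ∃ B2 : ℝ, B2 = Real.exp (X + |α| * Real.log 2) := ⟨_, rfl⟩
  have hl2 : 0 < Real.log 2 := Real.log_pos (by norm_num)
  have heven : ∀ᶠ n : ℕ in atTop, n ∈ {m : ℕ | m % 2 = 0} → A2 ≤ c n / μ ^ n / (n : ℝ) ^ α ∧
      c n / μ ^ n / (n : ℝ) ^ α ≤ B2 := by
    obtain ⟨M2, hM2⟩ := eventually_atTop.1 hX
    filter_upwards [eventually_ge_atTop (2 * M2 + 2)] with n hn hn2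
    have hn3 : n % 2 = 0 := hn2
    obtain ⟨k, rfl⟩ : ∃ k, n = 2 * k := ⟨n / 2, by omega⟩
    have hk0 : (0 : ℝ) < k := by exact_mod_cast (show 0 < k by omega)
    have h1 := abs_le.1 (hM2 k (by omega))
    unfold hh at h1
    have hp := W.pos (2 * k)
    have hq : (0 : ℝ) < ((2 * k : ℕ) : ℝ) := by push_cast; linarith
    have e : c (2 * k) / μ ^ (2 * k) / ((2 * k : ℕ) : ℝ) ^ α =
        Real.exp (Real.log (c (2 * k) / μ ^ (2 * k)) - α * Real.log k - α * Real.log 2) := by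
      rw [show Real.log (c (2 * k) / μ ^ (2 * k)) - α * Real.log k - α * Real.log 2 =
        Real.log (c (2 * k) / μ ^ (2 * k)) - Real.log ((2 * k : ℕ) : ℝ) * α by
          push_cast
          rw [Real.log_mul (by norm_num) hk0.ne']
          ring, Real.exp_sub, Real.exp_log hp, ← Real.rpow_def_of_pos hq]
    have b5 := mul_le_mul_of_nonneg_right (neg_abs_le α) hl2.le
    have b6 := mul_le_mul_of_nonneg_right (le_abs_self α) hl2.le
    rw [e, hA2, hB2, Real.exp_le_exp, Real.exp_le_exp]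
    constructor
    · linarith [h1.1, h1.2]
    · linarith [h1.1, h1.2]
  obtain ⟨A3, B3, hA3, hB3, h3⟩ := Pool.Agent.R956.K3.bounds W one_pos (evens_gap 1 one_pos)
    (show 0 < A2 by rw [hA2]; exact Real.exp_pos _) heven
  have h2a : (0 : ℝ) < 2 ^ α := by positivity
  refine ⟨min A3 (A3 / B3 ^ 2 * 2 ^ α), max B3 (B3 / A3 ^ 2 * 2 ^ α),
    lt_min hA3 (by positivity), lt_of_lt_of_le hB3 (le_max_left _ _), ?_⟩
  filter_upwards [h3, two_tend.eventually h3, eventually_ge_atTop 1] with n g1 g2 hn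
  obtain ⟨u1, u2⟩ := g1
  obtain ⟨v1, v2⟩ := g2
  refine ⟨⟨(min_le_right _ _).trans ?_, le_trans ?_ (le_max_right _ _)⟩,
    (min_le_left _ _).trans u1, u2.trans (le_max_left _ _)⟩
  · rw [P_form W α hn]
    refine mul_le_mul_of_nonneg_right ?_ h2a.le
    refine div_le_div₀ (hA3.le.trans v1) v1 (pow_pos (lt_of_lt_of_le hA3 u1) 2) ?_
    exact pow_le_pow_left₀ (hA3.le.trans u1) u2 2
  · rw [P_form W α hn]
    refine mul_le_mul_of_nonneg_right ?_ h2a.le
    refine div_le_div₀ hB3.le v2 (pow_pos hA3 2) ?_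
    exact pow_le_pow_left₀ hA3.le u1 2

/-- **exponents along gaps `o(√(n log n))`** -/
theorem expoP (W : Wk c μ) (hs : Slow c μ) {S : Set ℕ}
    (hS : ∀ δ : ℝ, 0 < δ → ∀ᶠ n : ℕ in atTop, ∃ m ∈ S, n ≤ m ∧
      (m : ℝ) ≤ n + δ * √(n * Real.log n)) {α : ℝ}
    (h : Tendsto (fun n : ℕ => Real.log (c (2 * n) / c n ^ 2) / Real.log n) (atTop ⊓ 𝓟 S)
      (𝓝 (-α))) :
    Tendsto (fun n : ℕ => Real.log (c n / μ ^ n) / Real.log n) atTop (𝓝 α) := by
  obtain ⟨D, N, hD, hc⟩ := hh_nc W α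
  obtain ⟨C, hC⟩ := hh_ap W hs α 0
  simp only [add_zero] at hC
  obtain ⟨B1, hB10, hB1⟩ := near_even W α
  have hlt : Tendsto (fun k : ℕ => Real.log (k : ℝ)) atTop atTop :=
    Real.tendsto_log_atTop.comp tendsto_natCast_atTop_atTop
  have hex := expo hD hc hC (by
    intro ε δ hε hδ
    have h3 := Metric.tendsto_nhds.mp h (ε / 4) (by positivity)
    rw [eventually_inf_principal] at h3
    obtain ⟨M, hM⟩ := eventually_atTop.1 (h3.and (hlt.eventually_ge_atTop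
      (4 * (B1 + |2 * α * Real.log 2|) / ε + 1 + 2 * Real.log 4)))
    filter_upwards [two_tend.eventually (hS (δ / 2) (by positivity)),
      eventually_ge_atTop (M + 4)] with m hm hm1
    obtain ⟨s, hsS, hs1, hs2⟩ := hm
    have hk2 : 2 * ((s / 2 : ℕ) : ℝ) ≤ s := by exact_mod_cast (show 2 * (s / 2) ≤ s by omega)
    have hm0 : (4 : ℝ) ≤ m := by exact_mod_cast (show 4 ≤ m by omega)
    refine ⟨s / 2, by omega, ?_, ?_⟩
    · have h5 : √(((2 * m : ℕ) : ℝ) * Real.log ((2 * m : ℕ) : ℝ)) ≤ 4 * √(m * Real.log m) := by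
        have h6 : Real.log ((2 * m : ℕ) : ℝ) ≤ 2 * Real.log m := by
          push_cast
          rw [Real.log_mul (by norm_num) (by linarith)]
          have := Real.log_le_log (by norm_num) (show (2 : ℝ) ≤ m by linarith)
          linarith
        have hlm : 0 ≤ Real.log (m : ℝ) := Real.log_natCast_nonneg m
        have e16 : √(16 * ((m : ℝ) * Real.log m)) = 4 * √((m : ℝ) * Real.log m) := by
          rw [Real.sqrt_mul (show (0 : ℝ) ≤ 16 by norm_num), show (16 : ℝ) = 4 ^ 2 by norm_num,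
            Real.sqrt_sq (show (0 : ℝ) ≤ 4 by norm_num)]
        rw [← e16]
        refine Real.sqrt_le_sqrt ?_
        have h7 : ((2 * m : ℕ) : ℝ) * Real.log ((2 * m : ℕ) : ℝ) ≤
            (2 * (m : ℝ)) * (2 * Real.log m) := by
          push_cast at h6 ⊢
          exact mul_le_mul_of_nonneg_left h6 (by positivity)
        refine h7.trans ?_
        have : 0 ≤ (m : ℝ) * Real.log m := by positivity
        linarith
      have h8 := mul_le_mul_of_nonneg_left h5 (show 0 ≤ δ / 2 by positivity)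
      push_cast at hs2 h8
      linarith
    · obtain ⟨g1, g2⟩ := hM s (by omega)
      have g3 := g1 hsS
      have hls : 0 < Real.log (s : ℝ) := Real.log_pos (by
        exact_mod_cast (show 1 < s by omega))
      rw [Real.dist_eq, sub_neg_eq_add] at g3
      have g4 : |Real.log (c (2 * s) / c s ^ 2) + α * Real.log (s : ℝ)| ≤
          ε / 4 * Real.log (s : ℝ) := by
        have e : Real.log (c (2 * s) / c s ^ 2) + α * Real.log (s : ℝ) =
            (Real.log (c (2 * s) / c s ^ 2) / Real.log s + α) * Real.log s := by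
          field_simp
        rw [e, abs_mul, abs_of_pos hls]
        exact mul_le_mul_of_nonneg_right g3.le hls.le
      have g5 := abs_le.1 (hB1 s (by omega))
      have g6 := abs_le.1 g4
      have hk1 : (1 : ℝ) ≤ ((s / 2 : ℕ) : ℝ) := by exact_mod_cast (show 1 ≤ s / 2 by omega)
      have g7 : Real.log (s : ℝ) ≤ Real.log 4 + Real.log ((s / 2 : ℕ) : ℝ) := by
        rw [← Real.log_mul (by norm_num) (by linarith)]
        refine Real.log_le_log (by exact_mod_cast (show 0 < s by omega)) ?_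
        exact_mod_cast (show s ≤ 4 * (s / 2) by omega)
      have hl4 : 0 < Real.log 4 := Real.log_pos (by norm_num)
      have g8 : B1 + |2 * α * Real.log 2| ≤ ε / 4 * (Real.log s - 2 * Real.log 4) := by
        have g9 : 4 * (B1 + |2 * α * Real.log 2|) / ε ≤ Real.log s - 2 * Real.log 4 := by
          linarith
        rw [div_le_iff₀ hε] at g9
        linarith
      rw [hh_dbl W α (show 1 ≤ s / 2 by omega)]
      have b5 := neg_abs_le (2 * α * Real.log 2)
      have b6 := le_abs_self (2 * α * Real.log 2)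
      have g10 : ε / 4 * Real.log (s : ℝ) ≤ ε / 4 * (Real.log 4 + Real.log ((s / 2 : ℕ) : ℝ)) :=
        mul_le_mul_of_nonneg_left g7 (by positivity)
      have g11 : 0 ≤ ε * Real.log 4 := by positivity
      have g12 : 0 ≤ ε * Real.log ((s / 2 : ℕ) : ℝ) :=
        mul_nonneg hε.le (Real.log_nonneg hk1)
      rw [abs_le]
      constructor
      · linarith [g5.1, g5.2, g6.1, g6.2]
      · linarith [g5.1, g5.2, g6.1, g6.2])
  -- the exponent along the even lengths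
  refine W.expo {m : ℕ | m % 2 = 0} (fun δ hδ => ?_) α ?_
  · filter_upwards [evens_gap δ hδ, hlt.eventually_ge_atTop 1] with n hn hl
    obtain ⟨m, h1, h2, h3⟩ := hn
    refine ⟨m, h1, h2, h3.trans ?_⟩
    have : √(n : ℝ) ≤ √(n * Real.log n) :=
      Real.sqrt_le_sqrt (le_mul_of_one_le_right (Nat.cast_nonneg n) hl)
    have := mul_le_mul_of_nonneg_left this hδ.le
    linarith
  · rw [Pool.Agent.R956.K3.par_iff (show 0 ≤ 1 by norm_num)]
    simp only [add_zero]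
    have h1 : Tendsto (fun k : ℕ => hh c μ α k / Real.log k) atTop (𝓝 0) := by
      rw [Metric.tendsto_nhds]
      intro ε hε
      filter_upwards [hex (ε / 2) (by positivity), hlt.eventually_ge_atTop 1] with k g1 g2
      rw [Real.dist_eq, sub_zero, abs_div, abs_of_pos (show 0 < Real.log (k : ℝ) by linarith),
        div_lt_iff₀ (by linarith)]
      nlinarith
    have h2 := Pool.Agent.R956.K3.log_two_tend 0
    simp only [add_zero] at h2
    have h3 := (h1.add_const α).div h2 one_ne_zero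
    rw [zero_add, div_one] at h3
    refine h3.congr' ?_
    filter_upwards [hlt.eventually_ge_atTop 1] with k g2
    have hl : Real.log (k : ℝ) ≠ 0 := by linarith
    show (hh c μ α k / Real.log k + α) / (Real.log ((2 * k : ℕ) : ℝ) / Real.log k) = _
    unfold hh
    rw [div_add' _ _ _ hl, div_div_div_cancel_right₀ hl]
    congr 1
    ring

end Pool.Agent.R93.Dbl
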