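import Pool.Agent.R956.K2

/-!
# Averages over windows of length of order `√n` for sequences with Kesten's inequality
(the lemmas on averages are those of `Pool.Agent.R475.SP`, for arbitrary sequences)
-/

set_option autoImplicit false

namespace Pool.Agent.R93.KM

open Filter Topology Pool.Agent.R956.K1 TH966.KS

/-- the average of `u` over the numbers between `n` and `n + δ √n` -/
noncomputable def avg (u : ℕ → ℝ) (δ : ℝ) (n : ℕ) : ℝ :=
  (∑ j ∈ Finset.range (⌊δ * √(n : ℝ)⌋₊ + 1), u (n + j)) / ((⌊δ * √(n : ℝ)⌋₊ : ℝ) + 1)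

lemma avg_le {u : ℕ → ℝ} {δ : ℝ} {n : ℕ} {b : ℝ}
    (h : ∀ j, j ≤ ⌊δ * √(n : ℝ)⌋₊ → u (n + j) ≤ b) : avg u δ n ≤ b := by
  unfold avg
  rw [div_le_iff₀ (by positivity)]
  have h1 := Finset.sum_le_card_nsmul (Finset.range (⌊δ * √(n : ℝ)⌋₊ + 1)) (fun j => u (n + j)) b
    (fun j hj => h j (by rw [Finset.mem_range] at hj; omega))
  rw [Finset.card_range, nsmul_eq_mul] at h1
  push_cast at h1
  linarith

lemma le_avg {u : ℕ → ℝ} {δ : ℝ} {n : ℕ} {b : ℝ}
    (h : ∀ j, j ≤ ⌊δ * √(n : ℝ)⌋₊ → b ≤ u (n + j)) : b ≤ avg u δ n := by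
  unfold avg
  rw [le_div_iff₀ (by positivity)]
  have h1 := Finset.card_nsmul_le_sum (Finset.range (⌊δ * √(n : ℝ)⌋₊ + 1)) (fun j => u (n + j)) b
    (fun j hj => h j (by rw [Finset.mem_range] at hj; omega))
  rw [Finset.card_range, nsmul_eq_mul] at h1
  push_cast at h1
  linarith

lemma avg_tend {u : ℕ → ℝ} {A : ℝ} (δ : ℝ) (h : Tendsto u atTop (𝓝 A)) :
    Tendsto (avg u δ) atTop (𝓝 A) := by
  rw [Metric.tendsto_atTop] at h ⊢
  intro ε hε
  obtain ⟨N, hN⟩ := h (ε / 2) (by positivity)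
  refine ⟨N, fun n hn => ?_⟩
  have h1 : avg u δ n ≤ A + ε / 2 := avg_le fun j _ => by
    have := hN (n + j) (by omega)
    rw [Real.dist_eq, abs_lt] at this
    linarith [this.2]
  have h2 : A - ε / 2 ≤ avg u δ n := le_avg fun j _ => by
    have := hN (n + j) (by omega)
    rw [Real.dist_eq, abs_lt] at this
    linarith [this.1]
  rw [Real.dist_eq, abs_lt]
  constructor <;> linarith

/-- if the averages are near `A` then so is some value -/
lemma meets {u : ℕ → ℝ} (hpos : ∀ᶠ k in atTop, 0 < u k)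
    (hr : Tendsto (fun k => u (k + 1) / u k) atTop (𝓝 1)) {A ε δ : ℝ} (hA : 0 < A) (hε : 0 < ε)
    (hδ : 0 < δ) (h : Tendsto (avg u δ) atTop (𝓝 A)) :
    ∀ᶠ n : ℕ in atTop, ∃ k ∈ {k | |u k - A| ≤ ε}, n ≤ k ∧ (k : ℝ) ≤ n + δ * √(n : ℝ) := by
  obtain ⟨N1, hN1⟩ := eventually_atTop.1 hpos
  obtain ⟨N2, hN2⟩ := Metric.tendsto_atTop.1 hr (ε / (A + ε)) (by positivity)
  obtain ⟨N3, hN3⟩ := Metric.tendsto_atTop.1 h ε hε
  filter_upwards [eventually_ge_atTop (N1 + N2 + N3)] with n hn
  by_contra hcon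
  push Not at hcon
  have hT : ∀ j, j ≤ ⌊δ * √(n : ℝ)⌋₊ → ε < |u (n + j) - A| := by
    intro j hj
    by_contra hj2
    push Not at hj2
    have h1 := hcon (n + j) hj2 (by omega)
    have h2 : (j : ℝ) ≤ δ * √(n : ℝ) :=
      (Nat.cast_le.2 hj).trans (Nat.floor_le (by positivity))
    push_cast at h1
    linarith
  have hrat : ∀ k, n ≤ k → u k * (A / (A + ε)) ≤ u (k + 1) ∧
      u (k + 1) ≤ u k * ((A + 2 * ε) / (A + ε)) := by
    intro k hk
    have p0 := hN1 k (by omega)
    have h2 := hN2 k (by omega)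
    rw [Real.dist_eq, abs_lt] at h2
    obtain ⟨h3, h4⟩ := h2
    have e1 : A / (A + ε) = 1 - ε / (A + ε) := by field_simp; ring
    have e2 : (A + 2 * ε) / (A + ε) = 1 + ε / (A + ε) := by field_simp; ring
    have h5 : u (k + 1) = u k * (u (k + 1) / u k) := by field_simp
    constructor
    · rw [h5, e1]
      exact mul_le_mul_of_nonneg_left (by linarith) p0.le
    · rw [h5, e2]
      exact mul_le_mul_of_nonneg_left (by linarith) p0.le
  have h3 := hN3 n (by omega)
  rw [Real.dist_eq, abs_lt] at h3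
  rcases lt_abs.1 (hT 0 (by omega)) with h0 | h0
  · -- all values are large
    have hall : ∀ j, j ≤ ⌊δ * √(n : ℝ)⌋₊ → A + ε < u (n + j) := by
      intro j
      induction j with
      | zero => intro _; linarith
      | succ j ih =>
        intro hj
        have h4 := ih (by omega)
        have h5 := (hrat (n + j) (by omega)).1
        have h6 : A < u (n + j) * (A / (A + ε)) := by
          rw [mul_div_assoc', lt_div_iff₀ (by positivity)]
          nlinarith
        rcases lt_abs.1 (hT (j + 1) hj) with h7 | h7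
        · linarith
        · rw [show n + (j + 1) = n + j + 1 by ring] at h7
          linarith
    have h4 := le_avg (fun j hj => (hall j hj).le)
    linarith [h3.2]
  · have hall : ∀ j, j ≤ ⌊δ * √(n : ℝ)⌋₊ → u (n + j) < A - ε := by
      intro j
      induction j with
      | zero => intro _; linarith
      | succ j ih =>
        intro hj
        have h4 := ih (by omega)
        have p0 := hN1 (n + j) (by omega)
        have h5 := (hrat (n + j) (by omega)).2
        have h6 : u (n + j) * ((A + 2 * ε) / (A + ε)) < A + ε := by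
          rw [mul_div_assoc', div_lt_iff₀ (by positivity)]
          nlinarith
        rcases lt_abs.1 (hT (j + 1) hj) with h7 | h7
        · rw [show n + (j + 1) = n + j + 1 by ring] at h7
          linarith
        · linarith
    have h4 := avg_le (fun j hj => (hall j hj).le)
    linarith [h3.1]

/-- if the averages are between `a` and `b` then some value is between `a / 2` and `2 b` -/
lemma meets2 {u : ℕ → ℝ} (hpos : ∀ᶠ k in atTop, 0 < u k)
    (hr : Tendsto (fun k => u (k + 1) / u k) atTop (𝓝 1)) {a b δ : ℝ} (ha : 0 < a)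
    (hδ : 0 < δ) (h : ∀ᶠ n : ℕ in atTop, a ≤ avg u δ n ∧ avg u δ n ≤ b) :
    ∀ᶠ n : ℕ in atTop, ∃ k ∈ {k | a / 2 ≤ u k ∧ u k ≤ 2 * b}, n ≤ k ∧
      (k : ℝ) ≤ n + δ * √(n : ℝ) := by
  obtain ⟨N1, hN1⟩ := eventually_atTop.1 hpos
  obtain ⟨N2, hN2⟩ := Metric.tendsto_atTop.1 hr (1 / 2) (by positivity)
  obtain ⟨N3, hN3⟩ := eventually_atTop.1 h
  filter_upwards [eventually_ge_atTop (N1 + N2 + N3)] with n hn
  by_contra hcon
  push Not at hcon
  obtain ⟨g1, g2⟩ := hN3 n (by omega)
  have hab : a ≤ b := g1.trans g2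
  have hT : ∀ j, j ≤ ⌊δ * √(n : ℝ)⌋₊ → u (n + j) < a / 2 ∨ 2 * b < u (n + j) := by
    intro j hj
    by_contra hj2
    push Not at hj2
    have h1 := hcon (n + j) hj2 (by omega)
    have h2 : (j : ℝ) ≤ δ * √(n : ℝ) :=
      (Nat.cast_le.2 hj).trans (Nat.floor_le (by positivity))
    push_cast at h1
    linarith
  have hrat : ∀ k, n ≤ k → u k * (1 / 2) ≤ u (k + 1) ∧ u (k + 1) ≤ u k * (3 / 2) := by
    intro k hk
    have p0 := hN1 k (by omega)
    have h2 := hN2 k (by omega)
    rw [Real.dist_eq, abs_lt] at h2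
    obtain ⟨h3, h4⟩ := h2
    have h5 : u (k + 1) = u k * (u (k + 1) / u k) := by field_simp
    constructor
    · rw [h5]
      exact mul_le_mul_of_nonneg_left (by linarith) p0.le
    · rw [h5]
      exact mul_le_mul_of_nonneg_left (by linarith) p0.le
  rcases hT 0 (by omega) with h0 | h0
  · have hall : ∀ j, j ≤ ⌊δ * √(n : ℝ)⌋₊ → u (n + j) < a / 2 := by
      intro j
      induction j with
      | zero => intro _; exact h0
      | succ j ih =>
        intro hj
        have h4 := ih (by omega)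
        have h5 := (hrat (n + j) (by omega)).2
        rcases hT (j + 1) hj with h7 | h7
        · exact h7
        · rw [show n + (j + 1) = n + j + 1 by ring] at h7
          linarith
    have h4 := avg_le (fun j hj => (hall j hj).le)
    linarith
  · have hall : ∀ j, j ≤ ⌊δ * √(n : ℝ)⌋₊ → 2 * b < u (n + j) := by
      intro j
      induction j with
      | zero => intro _; exact h0
      | succ j ih =>
        intro hj
        have h4 := ih (by omega)
        have h5 := (hrat (n + j) (by omega)).1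
        rcases hT (j + 1) hj with h7 | h7
        · rw [show n + (j + 1) = n + j + 1 by ring] at h7
          linarith
        · exact h7
    have h4 := le_avg (fun j hj => (hall j hj).le)
    linarith

variable {y : ℕ → ℝ} {D θ a : ℝ} {k0 : ℕ}

lemma u_ratio (hpos : ∀ᶠ k in atTop, 0 < y k)
    (hr : Tendsto (fun k => y (k + 1) / y k) atTop (𝓝 1)) (a : ℝ) :
    Tendsto (fun k : ℕ => (y (k + 1) / ((k + 1 : ℕ) : ℝ) ^ a) / (y k / (k : ℝ) ^ a)) atTop
      (𝓝 1) := by
  have h1 : Tendsto (fun k : ℕ => (((k + 1 : ℕ) : ℝ) / k) ^ (-a)) atTop (𝓝 1) := by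
    have h2 : Tendsto (fun k : ℕ => ((k + 1 : ℕ) : ℝ) / k) atTop (𝓝 1) := by
      have h3 : Tendsto (fun n : ℕ => (1 : ℝ) + 1 / n) atTop (𝓝 (1 + 0)) :=
        (tendsto_const_div_atTop_nhds_zero_nat (1 : ℝ)).const_add 1
      rw [add_zero] at h3
      refine h3.congr' ?_
      filter_upwards [eventually_gt_atTop 0] with n hn
      have : (n : ℝ) ≠ 0 := by exact_mod_cast (show n ≠ 0 by omega)
      push_cast
      field_simp
    have h4 := h2.rpow_const (p := -a) (Or.inl one_ne_zero)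
    rwa [Real.one_rpow] at h4
  have h5 := hr.mul h1
  rw [one_mul] at h5
  refine h5.congr' ?_
  filter_upwards [eventually_ge_atTop 2, hpos] with k hk a3
  have hk0 : (0 : ℝ) < k := by exact_mod_cast (show 0 < k by omega)
  have hk1 : (0 : ℝ) < ((k + 1 : ℕ) : ℝ) := by positivity
  rw [Real.div_rpow hk1.le hk0.le, Real.rpow_neg hk0.le, Real.rpow_neg hk1.le]
  have a1 := Real.rpow_pos_of_pos hk0 a
  have a2 := Real.rpow_pos_of_pos hk1 a
  field_simp

lemma u_pos (hpos : ∀ᶠ k in atTop, 0 < y k) (a : ℝ) :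
    ∀ᶠ k : ℕ in atTop, 0 < y k / (k : ℝ) ^ a := by
  filter_upwards [eventually_ge_atTop 1, hpos] with k hk h
  have hk0 : (0 : ℝ) < k := by exact_mod_cast (show 0 < k by omega)
  exact div_pos h (Real.rpow_pos_of_pos hk0 _)

/-- a polynomial bound from below and above gives subexponential decay at most -/
lemma sub_of_log {C : ℝ}
    (h : ∀ᶠ n : ℕ in atTop, 0 < y n ∧ |Real.log (y n) - (a * Real.log n + 0)| ≤
      C * (1 + Real.log n)) {q : ℝ} (hq0 : 0 < q) (hq1 : q < 1) :
    ∀ᶠ n : ℕ in atTop, q ^ (2 * n) ≤ y n := by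
  have hl : Real.log q < 0 := Real.log_neg hq0 hq1
  have hs := sc_log.small.const_mul (|a| + |C|)
  rw [mul_zero] at hs
  filter_upwards [h, hs.eventually_lt_const (show 0 < 2 * (-Real.log q) by linarith),
    eventually_ge_atTop 1] with n hn h1 hn1
  obtain ⟨h2, h3⟩ := hn
  have hn0 : (0 : ℝ) < n := by exact_mod_cast hn1
  have hln := Real.log_natCast_nonneg n
  rw [← mul_div_assoc, div_lt_iff₀ hn0] at h1
  have h4 := (abs_le.1 h3).1
  have h5 : C * (1 + Real.log n) ≤ |C| * (1 + Real.log n) :=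
    mul_le_mul_of_nonneg_right (le_abs_self C) (by linarith)
  have h6 : -(|a| * (1 + Real.log n)) ≤ a * Real.log n := by
    have h7 : -|a| * Real.log n ≤ a * Real.log n :=
      mul_le_mul_of_nonneg_right (neg_abs_le a) hln
    have := abs_nonneg a
    nlinarith
  have h8 : 2 * (n : ℝ) * Real.log q ≤ Real.log (y n) := by nlinarith
  rw [← Real.log_le_log_iff (by positivity) h2, Real.log_pow]
  push_cast
  exact h8

/-- bounds of the averages from both sides give polynomial bounds -/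
theorem poly (hK : Kes y D θ k0) (hy : ∀ k, 0 ≤ y k) (hD : 0 ≤ D) (hθ0 : 0 < θ) (hθ1 : θ < 1)
    {δ c B : ℝ} (hδ : 0 < δ) (hc : 0 < c)
    (h : ∀ᶠ n : ℕ in atTop, c ≤ avg (fun k => y k / (k : ℝ) ^ a) δ n ∧
      avg (fun k => y k / (k : ℝ) ^ a) δ n ≤ B) :
    ∃ C : ℝ, ∀ᶠ n : ℕ in atTop, 0 < y n ∧ |Real.log (y n) - (a * Real.log n + 0)| ≤
      C * (1 + Real.log n) := by
  obtain ⟨u, hu⟩ : ∃ u : ℕ → ℝ, u = fun k => y k / (k : ℝ) ^ a := ⟨_, rfl⟩
  rw [← hu] at h
  have hu0 : ∀ k, 0 ≤ u k := fun k => by rw [hu]; exact div_nonneg (hy k) (by positivity)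
  obtain ⟨n1, hn1⟩ := h.exists
  have hB : 0 < B := by linarith
  obtain ⟨τ, hτ⟩ : ∃ τ : ℝ, τ = |Real.log (c / 2)| + |Real.log (B * (δ + 1))| + 1 := ⟨_, rfl⟩
  have hτ0 : 0 < τ := by rw [hτ]; positivity
  have hS : ∀ᶠ n : ℕ in atTop, ∃ k ∈ {k | c / 2 < u k}, n ≤ k ∧
      (k : ℝ) ≤ n + δ * √(n * (1 + Real.log n)) := by
    filter_upwards [h] with n hn
    by_contra hcon
    push Not at hcon
    have h1 : ∀ j, j ≤ ⌊δ * √(n : ℝ)⌋₊ → u (n + j) ≤ c / 2 := by
      intro j hj
      by_contra hj2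
      have h2 := hcon (n + j) (not_le.1 hj2) (by omega)
      have h3 : (j : ℝ) ≤ δ * √(n : ℝ) :=
        (Nat.cast_le.2 hj).trans (Nat.floor_le (by positivity))
      have h4 : √(n : ℝ) ≤ √((n : ℝ) * (1 + Real.log n)) := by
        apply Real.sqrt_le_sqrt
        have := Real.log_natCast_nonneg n
        have : (0 : ℝ) ≤ n := Nat.cast_nonneg n
        nlinarith
      have h5 := mul_le_mul_of_nonneg_left h4 hδ.le
      push_cast at h2
      linarith
    have h6 := avg_le h1
    linarith [hn.1]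
  have hyS : ∀ᶠ k : ℕ in atTop, k ∈ {k | c / 2 < u k} → 0 < y k ∧
      |Real.log (y k) - (a * Real.log k + 0)| ≤ τ * (1 + Real.log k) := by
    filter_upwards [h, eventually_ge_atTop 1] with k hk hk1 hkS
    have hk0 : (0 : ℝ) < k := by exact_mod_cast hk1
    have hk1' : (1 : ℝ) ≤ k := by exact_mod_cast hk1
    have hkS' : c / 2 < u k := hkS
    have hp : 0 < u k := by linarith
    have hyk : 0 < y k := by
      rcases (hy k).lt_or_eq with h0 | h0
      · exact h0
      · rw [hu] at hp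
        simp only [← h0, zero_div, lt_self_iff_false] at hp
    have hlk := Real.log_natCast_nonneg k
    -- the upper bound
    have h1 : u k ≤ B * (δ + 1) * k := by
      have h2 := hk.2
      unfold avg at h2
      rw [div_le_iff₀ (by positivity)] at h2
      have h3 : u k ≤ ∑ j ∈ Finset.range (⌊δ * √(k : ℝ)⌋₊ + 1), u (k + j) := by
        have := Finset.single_le_sum (f := fun j => u (k + j)) (fun j _ => hu0 _)
          (Finset.mem_range.2 (Nat.succ_pos ⌊δ * √(k : ℝ)⌋₊))
        simpa using this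
      have h4 : (⌊δ * √(k : ℝ)⌋₊ : ℝ) ≤ δ * √(k : ℝ) := Nat.floor_le (by positivity)
      have h5 : √(k : ℝ) ≤ k := by
        rw [Real.sqrt_le_left hk0.le]
        nlinarith
      have h6 : (⌊δ * √(k : ℝ)⌋₊ : ℝ) + 1 ≤ (δ + 1) * k := by nlinarith
      calc u k ≤ B * ((⌊δ * √(k : ℝ)⌋₊ : ℝ) + 1) := h3.trans h2
        _ ≤ B * ((δ + 1) * k) := mul_le_mul_of_nonneg_left h6 hB.le
        _ = _ := by ring
    have h7 : Real.log (u k) = Real.log (y k) - a * Real.log k := by
      rw [hu]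
      exact log_form hk1 hyk a
    have h8 : Real.log (u k) ≤ Real.log (B * (δ + 1)) + Real.log k := by
      rw [← Real.log_mul (by positivity) hk0.ne']
      exact Real.log_le_log hp h1
    have h9 : Real.log (c / 2) ≤ Real.log (u k) := Real.log_le_log (by positivity) hkS'.le
    have b1 := neg_abs_le (Real.log (c / 2))
    have b2 := le_abs_self (Real.log (B * (δ + 1)))
    have b3 := abs_nonneg (Real.log (c / 2))
    have b4 := abs_nonneg (Real.log (B * (δ + 1)))
    refine ⟨hyk, ?_⟩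
    rw [show Real.log (y k) - (a * Real.log k + 0) = Real.log (u k) by rw [h7]; ring, abs_le, hτ]
    constructor
    · nlinarith
    · nlinarith
  have h1 := step (ψ := fun n => a * Real.log n + 0) (E := fun n => 1 + Real.log n)
    hK hy hD hθ0 hθ1 sc_log.one_le sc_log.mono sc_log.two sc_log.small hτ0 hδ (abs_nonneg a)
    (fun m n hm hmn => psi_diff a 0 hm hmn) (psi_zero a 0) hS hyS
  exact ⟨_, h1⟩

/-- Kesten's inequality without threshold -/
theorem kc_of (hK : Kes y D θ k0) (hy : ∀ k, 0 ≤ y k) (hD : 0 ≤ D) (hθ0 : 0 < θ) (hθ1 : θ < 1)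
    {C : ℝ} (h : ∀ᶠ n : ℕ in atTop, 0 < y n ∧ |Real.log (y n) - (a * Real.log n + 0)| ≤
      C * (1 + Real.log n)) : Kc y D := by
  refine ⟨hy, h.mono fun n hn => hn.1, hD, ?_⟩
  have h1 := (tendsto_add_atTop_nat 1).eventually (sub_of_log h hθ0 hθ1)
  filter_upwards [h1, eventually_ge_atTop k0] with k hk hk0
  exact hK k hk0 (by rw [show 2 * k + 2 = 2 * (k + 1) by ring]; exact hk)

theorem avg_bounds (K : Kc y D) (hr : Tendsto (fun k => y (k + 1) / y k) atTop (𝓝 1))
    {δ : ℝ} (hδ : 0 < δ) {A B : ℝ} (hA : 0 < A)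
    (h : ∀ᶠ n : ℕ in atTop, A ≤ avg (fun k => y k / (k : ℝ) ^ a) δ n ∧
      avg (fun k => y k / (k : ℝ) ^ a) δ n ≤ B) :
    ∃ A' B' : ℝ, 0 < A' ∧ 0 < B' ∧ ∀ᶠ k : ℕ in atTop,
      A' ≤ y k / (k : ℝ) ^ a ∧ y k / (k : ℝ) ^ a ≤ B' := by
  have h1 := meets2 (u_pos K.pos a) (u_ratio K.pos hr a) hA hδ h
  exact K.bounds hδ h1 (half_pos hA) (B := 2 * B) (Eventually.of_forall fun k hk => hk)

theorem local_avg (K : Kc y D) (hr : Tendsto (fun k => y (k + 1) / y k) atTop (𝓝 1))
    {A : ℝ} (hA : 0 < A)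
    (h : ∀ δ : ℝ, 0 < δ → Tendsto (avg (fun k => y k / (k : ℝ) ^ a) δ) atTop (𝓝 A)) :
    Tendsto (fun k => y k / (k : ℝ) ^ a) atTop (𝓝 A) := by
  have hD := K.D0
  have hpos := u_pos K.pos a
  have hr := u_ratio K.pos hr a
  refine K.form_of_log hA fun ε hε => ?_
  have hδ : 0 < √(ε / (2 * (384 * D + 1))) := Real.sqrt_pos.2 (by positivity)
  have hcont := (Real.continuousAt_log hA.ne')
  rw [Metric.continuousAt_iff] at hcont
  obtain ⟨ε', hε', hlog⟩ := hcont (ε / 18) (by positivity)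
  have hm := meets hpos hr hA (half_pos hε') hδ (h _ hδ)
  have h7 := K.samp sc_one (τ := ε / 18) (by positivity) hδ a (Real.log A)
    (by simpa only [mul_one] using hm) (by
    filter_upwards [hpos, K.pos, eventually_ge_atTop 1] with k g1 g2 g3 g4
    have g4' : |y k / (k : ℝ) ^ a - A| ≤ ε' / 2 := g4
    have g5 : dist (y k / (k : ℝ) ^ a) A < ε' := by
      rw [Real.dist_eq]
      linarith
    have g6 := hlog g5
    rw [Real.dist_eq, log_form g3 g2] at g6
    rw [mul_one, show Real.log (y k) - (a * Real.log k + Real.log A) =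
      Real.log (y k) - a * Real.log k - Real.log A by ring]
    exact g6.le)
  filter_upwards [h7] with n hn
  refine hn.trans ?_
  rw [Real.sq_sqrt (by positivity), mul_one]
  have h8 : 384 * D * (ε / (2 * (384 * D + 1))) ≤ ε / 2 := by
    rw [mul_div_assoc', div_le_div_iff₀ (by positivity) (by norm_num)]
    nlinarith
  linarith

end Pool.Agent.R93.KM
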