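import Pool.Agent.R93.Dbl4
import Pool.Agent.R93.KnotMean

/-!
# Doubling: the asymptotic form in the mean over short windows
-/

set_option autoImplicit false
set_option linter.unusedVariables false

namespace Pool.Agent.R93.Dbl

open Filter Topology Pool.Agent.R956.K1
open Pool.Agent.Y943.SL (Wk)

variable {c : ℕ → ℝ} {μ : ℝ}

/-- **form from values near `B` somewhere in all short windows, even lengths** -/
theorem form_near (W : Wk c μ) (hs : Slow c μ) {α B : ℝ} (hB : 0 < B)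
    (h : ∀ ε δ : ℝ, 0 < ε → 0 < δ → ∀ᶠ m : ℕ in atTop, ∃ k : ℕ, m ≤ k ∧
      (k : ℝ) ≤ m + δ * √(m : ℝ) ∧
      |c (2 * (2 * k)) / c (2 * k) ^ 2 * ((2 * k : ℕ) : ℝ) ^ α - B| ≤ ε) :
    Tendsto (fun n : ℕ => c n / μ ^ n / (n : ℝ) ^ α) (atTop ⊓ 𝓟 {n | n % 2 = 0})
      (𝓝 (2 ^ α / B)) := by
  obtain ⟨D, N, hD, hc⟩ := hh_nc W α
  obtain ⟨b, hb⟩ : ∃ b : ℝ, b = Real.log B - 2 * α * Real.log 2 := ⟨_, rfl⟩
  obtain ⟨C, hC⟩ := hh_ap W hs α b
  have hlim := lim hD hc b hC (by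
    intro ε δ hε hδ
    obtain ⟨η, hη, hη2⟩ := Metric.continuousAt_iff.mp (Real.continuousAt_log hB.ne') ε hε
    filter_upwards [h (η / 2) δ (by positivity) hδ, eventually_ge_atTop 1] with m hm hm1
    obtain ⟨k, k1, k2, k3⟩ := hm
    refine ⟨k, k1, k2, ?_⟩
    have hk0 : (0 : ℝ) < ((2 * k : ℕ) : ℝ) := by exact_mod_cast (show 0 < 2 * k by omega)
    have hp1 := W.cpos (2 * (2 * k))
    have hp2 := W.cpos (2 * k)
    have h6 := hη2 (x := c (2 * (2 * k)) / c (2 * k) ^ 2 * ((2 * k : ℕ) : ℝ) ^ α) (by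
      rw [Real.dist_eq]
      linarith)
    rw [Real.dist_eq, Real.log_mul (by positivity) (by positivity), Real.log_rpow hk0] at h6
    rw [hh_dbl W α (show 1 ≤ k by omega), hb]
    rw [show Real.log (c (2 * (2 * k)) / c (2 * k) ^ 2) + α * Real.log ((2 * k : ℕ) : ℝ) -
      2 * α * Real.log 2 - (Real.log B - 2 * α * Real.log 2) =
      Real.log (c (2 * (2 * k)) / c (2 * k) ^ 2) + α * Real.log ((2 * k : ℕ) : ℝ) -
        Real.log B by ring]
    exact h6.le)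
  rw [Pool.Agent.R956.K3.par_iff (show 0 ≤ 1 by norm_num)]
  simp only [add_zero]
  have h3 : Tendsto (fun k : ℕ => Real.exp (hh c μ α k - α * Real.log 2)) atTop
      (𝓝 (Real.exp (-b - α * Real.log 2))) :=
    (Real.continuous_exp.tendsto _).comp (hlim.sub_const _)
  have e1 : Real.exp (-b - α * Real.log 2) = 2 ^ α / B := by
    rw [hb, show -(Real.log B - 2 * α * Real.log 2) - α * Real.log 2 =
      Real.log 2 * α - Real.log B by ring, Real.exp_sub, Real.exp_log hB,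
      Real.rpow_def_of_pos (by norm_num)]
  rw [e1] at h3
  refine h3.congr' ?_
  filter_upwards [eventually_ge_atTop 1] with k hk
  have hk0 : (0 : ℝ) < k := by exact_mod_cast hk
  have hr := W.pos (2 * k)
  unfold hh
  rw [show Real.log (c (2 * k) / μ ^ (2 * k)) - α * Real.log k - α * Real.log 2 =
    Real.log (c (2 * k) / μ ^ (2 * k)) - Real.log ((2 * k : ℕ) : ℝ) * α by
      push_cast
      rw [Real.log_mul (by norm_num) hk0.ne']
      ring, Real.exp_sub, Real.exp_log hr,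
    ← Real.rpow_def_of_pos (show (0 : ℝ) < ((2 * k : ℕ) : ℝ) by push_cast; linarith)]

/-- **form in the mean over windows** -/
theorem form_mean (W : Wk c μ) (hs : Slow c μ)
    (hr : Tendsto (fun k : ℕ => (c (2 * (2 * (k + 1))) / c (2 * (k + 1)) ^ 2) /
      (c (2 * (2 * k)) / c (2 * k) ^ 2)) atTop (𝓝 1)) {α B : ℝ} (hB : 0 < B)
    (h : ∀ δ : ℝ, 0 < δ → Tendsto (Pool.Agent.R93.KM.avg (fun k : ℕ =>
      c (2 * (2 * k)) / c (2 * k) ^ 2 * ((2 * k : ℕ) : ℝ) ^ α) δ) atTop (𝓝 B)) :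
    Tendsto (fun n : ℕ => c n / μ ^ n / (n : ℝ) ^ α) (atTop ⊓ 𝓟 {n | n % 2 = 0})
      (𝓝 (2 ^ α / B)) := by
  have hpos : ∀ k : ℕ, 0 < c (2 * (2 * k)) / c (2 * k) ^ 2 := fun k => by
    have hp1 := W.cpos (2 * (2 * k))
    have hp2 := W.cpos (2 * k)
    positivity
  have h2 : (0 : ℝ) < 2 ^ α := by positivity
  have e : ∀ k : ℕ, c (2 * (2 * k)) / c (2 * k) ^ 2 * ((2 * k : ℕ) : ℝ) ^ α =
      2 ^ α * (c (2 * (2 * k)) / c (2 * k) ^ 2 / (k : ℝ) ^ (-α)) := by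
    intro k
    push_cast
    rw [Real.mul_rpow (by norm_num) (Nat.cast_nonneg k), Real.rpow_neg (Nat.cast_nonneg k),
      div_inv_eq_mul]
    ring
  have h1 := Pool.Agent.R93.KM.u_ratio
    (y := fun k : ℕ => c (2 * (2 * k)) / c (2 * k) ^ 2)
    (Eventually.of_forall hpos) hr (-α)
  refine form_near W hs hB fun ε δ hε hδ => ?_
  have h3 := Pool.Agent.R93.KM.meets (u := fun k : ℕ =>
      c (2 * (2 * k)) / c (2 * k) ^ 2 * ((2 * k : ℕ) : ℝ) ^ α) (by
    filter_upwards [eventually_ge_atTop 1] with k hk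
    have hk0 : (0 : ℝ) < ((2 * k : ℕ) : ℝ) := by exact_mod_cast (show 0 < 2 * k by omega)
    have := hpos k
    positivity) (by
    refine h1.congr fun k => ?_
    simp only [e]
    rw [mul_div_mul_left _ _ h2.ne']) hB hε hδ (h δ hδ)
  filter_upwards [h3] with m hm
  obtain ⟨k, k1, k2, k3⟩ := hm
  exact ⟨k, k2, k3, k1⟩

end Pool.Agent.R93.Dbl
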