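import Mathlib

set_option autoImplicit false

/-!
Sequences of integer vectors without `2^k`-term subsequence summing to `0` modulo `2^k`:
Harborth's bound and the structure of the extremal sequences.
-/

namespace Pool.Agent.R93.EGZ

variable {d : ℕ}

/-- integer vectors -/
abbrev X (d : ℕ) := Fin d → ℤ

/-- the class modulo 2 -/
def cls (x : X d) : Fin d → ZMod 2 := fun i => (x i : ZMod 2)

/-- some `2^k` terms of `S` have sum divisible by `2^k` -/
def Z (k : ℕ) (S : Multiset (X d)) : Prop :=
  ∃ T ≤ S, Multiset.card T = 2 ^ k ∧ ∀ i, (2 ^ k : ℤ) ∣ T.sum i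

/-- number of terms in a class -/
def cnt (u : Fin d → ZMod 2) (S : Multiset (X d)) : ℕ := (S.map cls).count u

lemma cnt_add (u : Fin d → ZMod 2) (S T : Multiset (X d)) : cnt u (S + T) = cnt u S + cnt u T := by
  simp [cnt]

lemma cnt_cons (u : Fin d → ZMod 2) (x : X d) (S : Multiset (X d)) :
    cnt u (x ::ₘ S) = cnt u S + if u = cls x then 1 else 0 := by
  simp [cnt, Multiset.count_cons]

lemma sum_cnt (S : Multiset (X d)) : ∑ u, cnt u S = Multiset.card S := by
  unfold cnt
  rw [Multiset.sum_count_eq_card (fun a _ => Finset.mem_univ a), Multiset.card_map]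

lemma exists_of_cnt {u : Fin d → ZMod 2} {S : Multiset (X d)} (h : 0 < cnt u S) :
    ∃ x S', S = x ::ₘ S' ∧ cls x = u := by
  unfold cnt at h
  rw [Multiset.count_pos, Multiset.mem_map] at h
  obtain ⟨x, hx, hu⟩ := h
  obtain ⟨S', rfl⟩ := Multiset.exists_cons_of_mem hx
  exact ⟨x, S', rfl, hu⟩

/-- pairing off congruent terms -/
lemma pairing (n : ℕ) : ∀ S : Multiset (X d), Multiset.card S = n →
    ∃ (Q : Multiset (X d × X d)) (R : Multiset (X d)),
      S = Q.map Prod.fst + Q.map Prod.snd + R ∧ (∀ q ∈ Q, cls q.1 = cls q.2) ∧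
      ∀ u, cnt u R ≤ 1 := by
  induction n using Nat.strong_induction_on with
  | _ n ih =>
    intro S hS
    by_cases h : ∀ u, cnt u S ≤ 1
    · exact ⟨0, S, by simp, by simp, h⟩
    · push Not at h
      obtain ⟨u, hu⟩ := h
      obtain ⟨x, S1, rfl, hx⟩ := exists_of_cnt (by omega : 0 < cnt u S)
      rw [cnt_cons] at hu
      have h1 : 0 < cnt u S1 := by
        split_ifs at hu <;> omega
      obtain ⟨y, S2, rfl, hy⟩ := exists_of_cnt h1
      obtain ⟨Q, R, h2, h3, h4⟩ := ih (Multiset.card S2) (by simp at hS; omega) S2 rfl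
      refine ⟨(x, y) ::ₘ Q, R, ?_, ?_, h4⟩
      · rw [Multiset.map_cons, Multiset.map_cons, h2]
        simp only [Multiset.cons_add, Multiset.add_cons]
        exact Multiset.cons_swap _ _ _
      · intro q hq
        rcases Multiset.mem_cons.mp hq with rfl | hq
        · simp [hx, hy]
        · exact h3 q hq

/-- half of the sum of a pair -/
def half (q : X d × X d) : X d := fun i => (q.1 i + q.2 i) / 2

lemma dvd_of_cls {x y : X d} (h : cls x = cls y) (i : Fin d) : (2 : ℤ) ∣ x i - y i := by
  have h1 := congrFun h i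
  unfold cls at h1
  have h2 := (ZMod.intCast_eq_intCast_iff_dvd_sub (x i) (y i) 2).mp h1
  have h3 : (2 : ℤ) ∣ y i - x i := by exact_mod_cast h2
  have h4 := (dvd_neg (α := ℤ)).mpr h3
  rwa [neg_sub] at h4

lemma cls_of_dvd {x y : X d} (h : ∀ i, (2 : ℤ) ∣ x i - y i) : cls x = cls y := by
  funext i
  unfold cls
  rw [ZMod.intCast_eq_intCast_iff_dvd_sub]
  have h4 := (dvd_neg (α := ℤ)).mpr (h i)
  rw [neg_sub] at h4
  exact_mod_cast h4

lemma two_half {q : X d × X d} (h : cls q.1 = cls q.2) (i : Fin d) :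
    2 * half q i = q.1 i + q.2 i := by
  unfold half
  apply Int.mul_ediv_cancel'
  have h1 := dvd_of_cls h i
  have h2 : q.1 i + q.2 i = (q.1 i - q.2 i) + 2 * q.2 i := by ring
  rw [h2]
  exact dvd_add h1 (dvd_mul_right _ _)

lemma exists_of_le_map {α β : Type*} (f : α → β) (s : Multiset α) (T : Multiset β)
    (h : T ≤ s.map f) : ∃ t ≤ s, T = t.map f := by
  classical
  induction s using Multiset.induction_on generalizing T with
  | empty =>
    have : T = 0 := by simpa using h
    exact ⟨0, le_rfl, by simpa using this⟩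
  | cons a s ih =>
    rw [Multiset.map_cons] at h
    by_cases ha : f a ∈ T
    · obtain ⟨T', rfl⟩ := Multiset.exists_cons_of_mem ha
      obtain ⟨t, ht, rfl⟩ := ih T' ((Multiset.cons_le_cons_iff _).mp h)
      exact ⟨a ::ₘ t, Multiset.cons_le_cons _ ht, by simp⟩
    · obtain ⟨t, ht, rfl⟩ := ih T ((Multiset.le_cons_of_notMem ha).mp h)
      exact ⟨t, ht.trans (Multiset.le_cons_self _ _), rfl⟩

lemma sum_pairs (Q : Multiset (X d × X d)) (h : ∀ q ∈ Q, cls q.1 = cls q.2) (i : Fin d) :
    (Q.map Prod.fst + Q.map Prod.snd).sum i = 2 * (Q.map half).sum i := by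
  induction Q using Multiset.induction_on with
  | empty => simp
  | cons q Q ih =>
    have h1 := ih (fun q hq => h q (Multiset.mem_cons_of_mem hq))
    have h2 := two_half (h q (Multiset.mem_cons_self _ _)) i
    simp only [Multiset.map_cons, Multiset.sum_add, Multiset.sum_cons, Pi.add_apply] at h1 ⊢
    linarith

/-- a solution for the pairs gives a solution for the sequence -/
lemma Z_of_pairs {k : ℕ} {S R : Multiset (X d)} {Q : Multiset (X d × X d)}
    (hS : S = Q.map Prod.fst + Q.map Prod.snd + R) (hQ : ∀ q ∈ Q, cls q.1 = cls q.2)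
    (h : Z k (Q.map half)) : Z (k + 1) S := by
  obtain ⟨T, hT, hc, hd⟩ := h
  obtain ⟨Q', hQ', rfl⟩ := exists_of_le_map half Q T hT
  refine ⟨Q'.map Prod.fst + Q'.map Prod.snd, ?_, ?_, ?_⟩
  · rw [hS]
    exact (add_le_add (Multiset.map_le_map hQ') (Multiset.map_le_map hQ')).trans
      (Multiset.le_add_right _ _)
  · rw [Multiset.card_map] at hc
    rw [Multiset.card_add, Multiset.card_map, Multiset.card_map, hc]
    ring
  · intro i
    rw [sum_pairs Q' (fun q hq => hQ q (Multiset.mem_of_le hQ' hq)) i, pow_succ, mul_comm (2 ^ k) 2]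
    exact mul_dvd_mul_left 2 (hd i)

lemma card_le_of_cnt {R : Multiset (X d)} (h : ∀ u, cnt u R ≤ 1) : Multiset.card R ≤ 2 ^ d := by
  rw [← sum_cnt]
  calc ∑ u, cnt u R ≤ ∑ u : Fin d → ZMod 2, 1 := Finset.sum_le_sum (fun u _ => h u)
    _ = 2 ^ d := by simp [ZMod.card]

/-- **Harborth's bound.** -/
theorem harborth (k : ℕ) : ∀ S : Multiset (X d), 2 ^ d * (2 ^ k - 1) + 1 ≤ Multiset.card S →
    Z k S := by
  induction k with
  | zero =>
    intro S hS
    have h1 : 0 < Multiset.card S := by omega
    obtain ⟨x, hx⟩ := Multiset.card_pos_iff_exists_mem.mp h1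
    exact ⟨{x}, Multiset.singleton_le.mpr hx, by simp, by simp⟩
  | succ k ih =>
    intro S hS
    obtain ⟨Q, R, h1, h2, h3⟩ := pairing _ S rfl
    apply Z_of_pairs h1 h2
    apply ih
    have h4 := card_le_of_cnt h3
    have h5 : Multiset.card S = 2 * Multiset.card Q + Multiset.card R := by
      conv_lhs => rw [h1]
      simp only [Multiset.card_add, Multiset.card_map]
      ring
    rw [Multiset.card_map]
    obtain ⟨m, hm⟩ : ∃ m, 2 ^ k = m + 1 := ⟨2 ^ k - 1, by have := Nat.one_le_two_pow (n := k); omega⟩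
    have h6 : 2 ^ (k + 1) = 2 * m + 2 := by rw [pow_succ, hm]; ring
    rw [h6] at hS
    rw [hm]
    have h7 : 2 ^ d * (2 * m + 2 - 1) = 2 * (2 ^ d * m) + 2 ^ d := by
      have : 2 * m + 2 - 1 = 2 * m + 1 := by omega
      rw [this]; ring
    rw [h7, h5] at hS
    have h8 : 2 ^ d * (m + 1 - 1) = 2 ^ d * m := by simp
    rw [h8]
    omega

/-- a maximal pairing of an extremal sequence -/
lemma pairing_extremal {k : ℕ} {S R : Multiset (X d)} {Q : Multiset (X d × X d)}
    (hcard : Multiset.card S = 2 ^ d * (2 ^ (k + 1) - 1)) (hZ : ¬ Z (k + 1) S)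
    (hS : S = Q.map Prod.fst + Q.map Prod.snd + R) (hQ : ∀ q ∈ Q, cls q.1 = cls q.2)
    (hR : ∀ u, cnt u R ≤ 1) :
    Multiset.card (Q.map half) = 2 ^ d * (2 ^ k - 1) ∧ ¬ Z k (Q.map half) ∧ ∀ u, cnt u R = 1 := by
  have hZ' : ¬ Z k (Q.map half) := fun h => hZ (Z_of_pairs hS hQ h)
  have h1 : Multiset.card (Q.map half) < 2 ^ d * (2 ^ k - 1) + 1 := by
    by_contra hcon
    exact hZ' (harborth k _ (by omega))
  rw [Multiset.card_map] at h1 ⊢
  have h4 := card_le_of_cnt hR
  have h5 : Multiset.card S = 2 * Multiset.card Q + Multiset.card R := by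
    conv_lhs => rw [hS]
    simp only [Multiset.card_add, Multiset.card_map]
    ring
  obtain ⟨m, hm⟩ : ∃ m, 2 ^ k = m + 1 := ⟨2 ^ k - 1, by have := Nat.one_le_two_pow (n := k); omega⟩
  have h6 : 2 ^ (k + 1) = 2 * m + 2 := by rw [pow_succ, hm]; ring
  have h7 : 2 ^ d * (2 * m + 2 - 1) = 2 * (2 ^ d * m) + 2 ^ d := by
    have : 2 * m + 2 - 1 = 2 * m + 1 := by omega
    rw [this]; ring
  have h8 : 2 ^ d * (m + 1 - 1) = 2 ^ d * m := by simp
  rw [h6, h7, h5] at hcard
  rw [hm, h8] at h1 ⊢
  have h9 : Multiset.card R = 2 ^ d := by omega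
  refine ⟨by omega, hZ', ?_⟩
  -- all counts are one
  by_contra hcon
  push Not at hcon
  obtain ⟨u, hu⟩ := hcon
  have h10 : ∑ u, cnt u R < ∑ u : Fin d → ZMod 2, 1 :=
    Finset.sum_lt_sum (fun u _ => hR u) ⟨u, Finset.mem_univ u, lt_of_le_of_ne (hR u) hu⟩
  rw [sum_cnt, h9] at h10
  simp [ZMod.card] at h10

/-- **Structure of the extremal sequences** (Property D for `(ℤ/2^k)^d`). -/
theorem extremal (k : ℕ) : ∀ S : Multiset (X d), Multiset.card S = 2 ^ d * (2 ^ k - 1) → ¬ Z k S →
    (∀ u, cnt u S = 2 ^ k - 1) ∧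
      ∀ x ∈ S, ∀ y ∈ S, cls x = cls y → ∀ i, (2 ^ k : ℤ) ∣ x i - y i := by
  induction k with
  | zero =>
    intro S hS _
    have h0 : S = 0 := by
      rw [← Multiset.card_eq_zero, hS]; simp
    subst h0
    exact ⟨fun u => by simp [cnt], fun x hx => by simp at hx⟩
  | succ k ih =>
    intro S hcard hZ
    obtain ⟨Q, R, h1, h2, h3⟩ := pairing _ S rfl
    obtain ⟨hc, hz, hone⟩ := pairing_extremal hcard hZ h1 h2 h3
    -- equal classes of the members of pairs
    have hpair : ∀ u, ∀ Q : Multiset (X d × X d), (∀ q ∈ Q, cls q.1 = cls q.2) →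
        cnt u (Q.map Prod.snd) = cnt u (Q.map Prod.fst) := by
      intro u Q hQ
      unfold cnt
      rw [Multiset.map_map, Multiset.map_map]
      congr 1
      exact Multiset.map_congr rfl (fun q hq => (hQ q hq).symm)
    have hodd : ∀ u, cnt u S = 2 * cnt u (Q.map Prod.fst) + 1 := by
      intro u
      conv_lhs => rw [h1]
      rw [cnt_add, cnt_add, hpair u Q h2, hone u]
      ring
    -- second statement
    have hsecond : ∀ x ∈ S, ∀ y ∈ S, cls x = cls y → ∀ i, (2 ^ (k + 1) : ℤ) ∣ x i - y i := by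
      intro x hx y hy hxy i
      by_cases hne : x = y
      · rw [hne, sub_self]; exact dvd_zero _
      obtain ⟨S1, hS1⟩ := Multiset.exists_cons_of_mem hx
      have hy1 : y ∈ S1 := by
        rw [hS1] at hy
        rcases Multiset.mem_cons.mp hy with h | h
        · exact absurd h.symm hne
        · exact h
      obtain ⟨S2, hS2⟩ := Multiset.exists_cons_of_mem hy1
      have hcount : cnt (cls x) S = cnt (cls x) S2 + 2 := by
        rw [hS1, hS2, cnt_cons, cnt_cons, if_pos hxy, if_pos rfl]
      have h5 := hodd (cls x)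
      obtain ⟨z, S3, hS3, hz3⟩ := exists_of_cnt (by omega : 0 < cnt (cls x) S2)
      obtain ⟨Q', R', e1, e2, e3⟩ := pairing _ S3 rfl
      have hcount3 : cnt (cls x) S2 = cnt (cls x) S3 + 1 := by
        rw [hS3, cnt_cons, if_pos hz3.symm]
      have hR0 : cnt (cls x) R' = 0 := by
        have h6 : cnt (cls x) S3 = 2 * cnt (cls x) (Q'.map Prod.fst) + cnt (cls x) R' := by
          conv_lhs => rw [e1]
          rw [cnt_add, cnt_add, hpair _ Q' e2]
          ring
        have h7 := e3 (cls x)
        omega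
      have hRx : ∀ w : X d, cls w = cls x → ∀ u, cnt u (w ::ₘ R') ≤ 1 := by
        intro w hw u
        rw [cnt_cons]
        split_ifs with h8
        · rw [h8, hw, hR0]
        · have := e3 u; omega
      have hd1 : S = (((z, x) ::ₘ Q').map Prod.fst) + (((z, x) ::ₘ Q').map Prod.snd) + (y ::ₘ R') := by
        rw [hS1, hS2, hS3, e1, Multiset.map_cons, Multiset.map_cons]
        simp only [← Multiset.singleton_add]
        abel
      have hd2 : S = (((z, y) ::ₘ Q').map Prod.fst) + (((z, y) ::ₘ Q').map Prod.snd) + (x ::ₘ R') := by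
        rw [hS1, hS2, hS3, e1, Multiset.map_cons, Multiset.map_cons]
        simp only [← Multiset.singleton_add]
        abel
      have hq1 : ∀ q ∈ (z, x) ::ₘ Q', cls q.1 = cls q.2 := by
        intro q hq
        rcases Multiset.mem_cons.mp hq with rfl | hq
        · exact hz3
        · exact e2 q hq
      have hq2 : ∀ q ∈ (z, y) ::ₘ Q', cls q.1 = cls q.2 := by
        intro q hq
        rcases Multiset.mem_cons.mp hq with rfl | hq
        · exact hz3.trans hxy
        · exact e2 q hq
      obtain ⟨c1, z1, -⟩ := pairing_extremal hcard hZ hd1 hq1 (hRx y hxy.symm)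
      obtain ⟨c2, z2, -⟩ := pairing_extremal hcard hZ hd2 hq2 (hRx x rfl)
      obtain ⟨i1, i2⟩ := ih _ c1 z1
      obtain ⟨i3, i4⟩ := ih _ c2 z2
      rw [Multiset.map_cons] at i1 i2 i3 i4
      have hcls : cls (half (z, x)) = cls (half (z, y)) := by
        have h9 := i1 (cls (half (z, x)))
        have h10 := i3 (cls (half (z, x)))
        rw [cnt_cons] at h9 h10
        rw [if_pos rfl] at h9
        by_contra hcon
        rw [if_neg hcon] at h10
        omega
      have hab : (2 ^ k : ℤ) ∣ half (z, x) i - half (z, y) i := by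
        rcases Nat.lt_or_ge k 2 with hk | hk
        · interval_cases k
          · simp
          · rw [pow_one]; exact dvd_of_cls hcls i
        · have h9 := i1 (cls (half (z, x)))
          rw [cnt_cons, if_pos rfl] at h9
          have h11 : 4 ≤ 2 ^ k := by
            calc 4 = 2 ^ 2 := by norm_num
              _ ≤ 2 ^ k := Nat.pow_le_pow_right (by norm_num) hk
          obtain ⟨c, M, hM, hcM⟩ := exists_of_cnt
            (by omega : 0 < cnt (cls (half (z, x))) (Q'.map half))
          have hmem : c ∈ Q'.map half := by rw [hM]; exact Multiset.mem_cons_self _ _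
          have h12 := i2 _ (Multiset.mem_cons_self _ _) c (Multiset.mem_cons_of_mem hmem) hcM.symm i
          have h13 := i4 _ (Multiset.mem_cons_self _ _) c (Multiset.mem_cons_of_mem hmem)
            (hcls.symm.trans hcM.symm) i
          have h14 := dvd_sub h12 h13
          have h15 : half (z, x) i - c i - (half (z, y) i - c i) =
              half (z, x) i - half (z, y) i := by ring
          rwa [h15] at h14
      have t1 : 2 * half (z, x) i = z i + x i := two_half hz3 i
      have t2 : 2 * half (z, y) i = z i + y i := two_half (hz3.trans hxy) i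
      have t3 : x i - y i = 2 * (half (z, x) i - half (z, y) i) := by linarith
      rw [t3, pow_succ, mul_comm (2 ^ k) 2]
      exact mul_dvd_mul_left 2 hab
    refine ⟨?_, hsecond⟩
    intro u
    rw [hodd u]
    have hm1 := Nat.one_le_two_pow (n := k)
    have h6 : 2 ^ (k + 1) = 2 * 2 ^ k := by rw [pow_succ]; ring
    rcases Nat.eq_zero_or_pos k with hk | hk
    · subst hk
      rw [Multiset.card_map] at hc
      have hQ0 : Q = 0 := by
        rw [← Multiset.card_eq_zero, hc]; simp
      rw [hQ0]
      simp [cnt]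
    · obtain ⟨i1, _⟩ := ih _ hc hz
      have h7 : cnt u (Q.map half) = cnt u (Q.map Prod.fst) := by
        unfold cnt
        rw [Multiset.map_map, Multiset.map_map]
        congr 1
        refine Multiset.map_congr rfl (fun q hq => ?_)
        have m1 : q.1 ∈ S := by
          rw [h1]
          simp only [Multiset.mem_add, Multiset.mem_map]
          exact Or.inl (Or.inl ⟨q, hq, rfl⟩)
        have m2 : q.2 ∈ S := by
          rw [h1]
          simp only [Multiset.mem_add, Multiset.mem_map]
          exact Or.inl (Or.inr ⟨q, hq, rfl⟩)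
        change cls (half q) = cls q.1
        apply cls_of_dvd
        intro i
        obtain ⟨t, ht⟩ := hsecond q.2 m2 q.1 m1 (h2 q hq).symm i
        have h8 := two_half (h2 q hq) i
        have h9 : half q i - q.1 i = 2 ^ k * t := by
          have : 2 * (half q i - q.1 i) = 2 * (2 ^ k * t) := by
            have h10 : (2 : ℤ) ^ (k + 1) * t = 2 * (2 ^ k * t) := by rw [pow_succ]; ring
            linarith
          linarith
        rw [h9]
        exact dvd_mul_of_dvd_left (dvd_pow_self 2 hk.ne') t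
      have h8 := i1 u
      rw [h7] at h8
      omega

end Pool.Agent.R93.EGZ
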