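import Pool.Agent.R93.EGZ1

set_option autoImplicit false

/-!
The modified Erdos-Ginzburg-Ziv constant of `(ℤ/2^k)^d`.
-/

namespace Pool.Agent.R93.EGZ

variable {d : ℕ}

lemma sum_modEq {k : ℕ} (c : ℤ) (i : Fin d) (M : Multiset (X d))
    (h : ∀ y ∈ M, (2 ^ k : ℤ) ∣ y i - c) : (2 ^ k : ℤ) ∣ M.sum i - Multiset.card M * c := by
  induction M using Multiset.induction_on with
  | empty => simp
  | cons a M ih =>
    have h1 := ih (fun y hy => h y (Multiset.mem_cons_of_mem hy))
    have h2 := h a (Multiset.mem_cons_self _ _)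
    rw [Multiset.sum_cons, Multiset.card_cons, Pi.add_apply]
    have h3 : a i + M.sum i - ((Multiset.card M + 1 : ℕ) : ℤ) * c =
        (a i - c) + (M.sum i - Multiset.card M * c) := by push_cast; ring
    rw [h3]
    exact dvd_add h2 h1

lemma sum_filter_cls (S : Multiset (X d)) :
    ∑ u : Fin d → ZMod 2, S.filter (fun x => cls x = u) = S := by
  ext a
  rw [Multiset.count_sum']
  rw [Finset.sum_eq_single (cls a)]
  · rw [Multiset.count_filter, if_pos rfl]
  · intro u _ hu
    rw [Multiset.count_filter, if_neg (fun h => hu h.symm)]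
  · intro h; exact absurd (Finset.mem_univ _) h

lemma sum_finset_sum {ι : Type*} (s : Finset ι) (f : ι → Multiset (X d)) (i : Fin d) :
    (∑ u ∈ s, f u).sum i = ∑ u ∈ s, (f u).sum i := by
  have h : (∑ u ∈ s, f u).sum = ∑ u ∈ s, (f u).sum :=
    map_sum (Multiset.sumAddMonoidHom : Multiset (X d) →+ X d) f s
  rw [h, Finset.sum_apply]

lemma exists_submultiset_card {α : Type*} (S : Multiset α) (n : ℕ) (h : n ≤ Multiset.card S) :
    ∃ M ≤ S, Multiset.card M = n := by
  induction S using Quotient.inductionOn with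
  | h l =>
    refine ⟨(l.take n : List α), ?_, ?_⟩
    · exact Multiset.coe_le.mpr (List.take_sublist _ _).subperm
    · simp only [Multiset.coe_card, List.length_take]
      simpa using h

/-- An extremal sequence does not have sum zero modulo `2^k` if `k ≥ d ≥ 1`. -/
theorem zero_sum_case {k : ℕ} (hd : 1 ≤ d) (hk : d ≤ k) (S : Multiset (X d))
    (hcard : Multiset.card S = 2 ^ d * (2 ^ k - 1)) (hsum : ∀ i, (2 ^ k : ℤ) ∣ S.sum i) :
    Z k S := by
  by_contra hZ
  obtain ⟨h1, h2⟩ := extremal k S hcard hZ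
  have hk2 : 2 ≤ 2 ^ k := by
    calc 2 = 2 ^ 1 := by norm_num
      _ ≤ 2 ^ k := Nat.pow_le_pow_right (by norm_num) (hd.trans hk)
  -- representatives
  have hrep : ∀ u : Fin d → ZMod 2, ∃ x ∈ S, cls x = u := by
    intro u
    obtain ⟨x, S', hS', hx⟩ := exists_of_cnt (by rw [h1 u]; omega : 0 < cnt u S)
    exact ⟨x, by rw [hS']; exact Multiset.mem_cons_self _ _, hx⟩
  choose r hr1 hr2 using hrep
  have hcf : ∀ u, Multiset.card (S.filter (fun x => cls x = u)) = 2 ^ k - 1 := by
    intro u
    rw [← h1 u]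
    unfold cnt
    rw [Multiset.count_map, ← Multiset.countP_eq_card_filter, ← Multiset.countP_eq_card_filter]
    exact Multiset.countP_congr rfl (fun x _ => by simp [eq_comm])
  have hle : 2 ^ (k - d) ≤ 2 ^ k - 1 := by
    have h3 : 2 ^ (k - d) * 2 ≤ 2 ^ k := by
      rw [← pow_succ]
      exact Nat.pow_le_pow_right (by norm_num) (by omega)
    omega
  have hT : ∀ u, ∃ M ≤ S.filter (fun x => cls x = u), Multiset.card M = 2 ^ (k - d) := fun u =>
    exists_submultiset_card _ _ (by rw [hcf u]; exact hle)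
  choose T hT1 hT2 using hT
  apply hZ
  have hmod : ∀ u i, ∀ y ∈ S.filter (fun x => cls x = u), (2 ^ k : ℤ) ∣ y i - r u i := by
    intro u i y hy
    rw [Multiset.mem_filter] at hy
    exact h2 y hy.1 (r u) (hr1 u) (hy.2.trans (hr2 u).symm) i
  refine ⟨∑ u, T u, ?_, ?_, ?_⟩
  · rw [← sum_filter_cls S]
    exact Finset.sum_le_sum (fun u _ => hT1 u)
  · rw [Multiset.card_sum]
    simp only [hT2]
    rw [Finset.sum_const, Finset.card_univ]
    simp only [Fintype.card_pi, ZMod.card, Finset.prod_const, Finset.card_univ, Fintype.card_fin,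
      smul_eq_mul]
    rw [← pow_add]
    congr 1
    omega
  · intro i
    -- the sum over the representatives is divisible by `2^k`
    have e1 : (2 ^ k : ℤ) ∣ ∑ u, r u i := by
      have e2 : (2 ^ k : ℤ) ∣ S.sum i - (2 ^ k - 1) * ∑ u, r u i := by
        have e3 : S.sum i = ∑ u, (S.filter (fun x => cls x = u)).sum i := by
          rw [← sum_finset_sum, sum_filter_cls]
        rw [e3, Finset.mul_sum, ← Finset.sum_sub_distrib]
        apply Finset.dvd_sum
        intro u _
        have e4 := sum_modEq (r u i) i _ (hmod u i)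
        rw [hcf u] at e4
        have e5 : (((2 ^ k - 1 : ℕ)) : ℤ) = 2 ^ k - 1 := by
          push_cast [Nat.one_le_two_pow (n := k)]
          ring
        rwa [e5] at e4
      have e6 := dvd_sub e2 (hsum i)
      have e7 : S.sum i - (2 ^ k - 1) * ∑ u, r u i - S.sum i =
          ∑ u, r u i - 2 ^ k * ∑ u, r u i := by ring
      rw [e7] at e6
      have e8 := dvd_add e6 (dvd_mul_right (2 ^ k : ℤ) (∑ u, r u i))
      rwa [sub_add_cancel] at e8
    have e9 : (∑ u, T u).sum i = ∑ u, (T u).sum i := sum_finset_sum _ _ _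
    have e10 : (2 ^ k : ℤ) ∣ (∑ u, T u).sum i - 2 ^ (k - d) * ∑ u, r u i := by
      rw [e9, Finset.mul_sum, ← Finset.sum_sub_distrib]
      apply Finset.dvd_sum
      intro u _
      have e4 := sum_modEq (r u i) i (T u) (fun y hy => hmod u i y (Multiset.mem_of_le (hT1 u) hy))
      rw [hT2 u] at e4
      push_cast at e4
      exact e4
    have e11 := dvd_add e10 (dvd_mul_of_dvd_right e1 (2 ^ (k - d)))
    rwa [sub_add_cancel] at e11

/-! ### Translation to `ZMod (2^k)` -/

/-- the group -/
abbrev Gk (k d : ℕ) := Fin d → ZMod (2 ^ k)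

/-- integer representatives -/
def lift {k d : ℕ} (x : Gk k d) : X d := fun i => ((x i).val : ℤ)

lemma sum_lift {k : ℕ} (S : Multiset (Gk k d)) (i : Fin d) :
    (((S.map lift).sum i : ℤ) : ZMod (2 ^ k)) = S.sum i := by
  induction S using Multiset.induction_on with
  | empty => simp
  | cons a S ih =>
    rw [Multiset.map_cons, Multiset.sum_cons, Multiset.sum_cons, Pi.add_apply, Pi.add_apply]
    push_cast
    rw [ih]
    congr 1
    unfold lift
    simp

lemma dvd_iff_zmod {k : ℕ} (a : ℤ) : (2 ^ k : ℤ) ∣ a ↔ (a : ZMod (2 ^ k)) = 0 := by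
  rw [ZMod.intCast_zmod_eq_zero_iff_dvd]
  push_cast
  rfl

lemma of_Z {k : ℕ} {S : Multiset (Gk k d)} (h : Z k (S.map lift)) :
    ∃ T ≤ S, Multiset.card T = 2 ^ k ∧ T.sum = 0 := by
  obtain ⟨T, hT, hc, hs⟩ := h
  obtain ⟨T', hT', rfl⟩ := exists_of_le_map lift S T hT
  refine ⟨T', hT', by simpa using hc, ?_⟩
  funext i
  rw [← sum_lift, (dvd_iff_zmod _).mp (hs i)]
  rfl

theorem upper_harborth {k : ℕ} (S : Multiset (Gk k d))
    (hS : 2 ^ d * (2 ^ k - 1) + 1 ≤ Multiset.card S) :
    ∃ T ≤ S, Multiset.card T = 2 ^ k ∧ T.sum = 0 :=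
  of_Z (harborth k _ (by simpa using hS))

theorem upper_zero {k : ℕ} (hd : 1 ≤ d) (hk : d ≤ k) (S : Multiset (Gk k d))
    (hS : 2 ^ d * (2 ^ k - 1) ≤ Multiset.card S) (h0 : S.sum = 0) :
    ∃ T ≤ S, Multiset.card T = 2 ^ k ∧ T.sum = 0 := by
  rcases Nat.lt_or_ge (2 ^ d * (2 ^ k - 1)) (Multiset.card S) with h | h
  · exact upper_harborth S h
  · apply of_Z
    refine zero_sum_case hd hk _ (by simpa using le_antisymm h hS) (fun i => ?_)
    rw [dvd_iff_zmod, sum_lift, h0]
    rfl

/-! ### The lower bound -/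

/-- the cube points -/
def cube {k d : ℕ} (u : Fin d → Bool) : Gk k d := fun i => if u i then 1 else 0

/-- every point of the cube with multiplicity `2^k - 1` -/
def E (k d : ℕ) : Multiset (Gk k d) := (2 ^ k - 1) • (Finset.univ.val.map cube)

lemma card_E (k d : ℕ) : Multiset.card (E k d) = 2 ^ d * (2 ^ k - 1) := by
  unfold E
  rw [Multiset.card_nsmul, Multiset.card_map]
  simp [mul_comm]

lemma mem_E {k d : ℕ} {x : Gk k d} (hx : x ∈ E k d) : ∃ u, cube u = x := by
  unfold E at hx
  have h1 := Multiset.mem_of_mem_nsmul hx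
  rw [Multiset.mem_map] at h1
  obtain ⟨u, _, hu⟩ := h1
  exact ⟨u, hu⟩

lemma cube_inj {k d : ℕ} (hk : 1 ≤ k) : Function.Injective (cube : (Fin d → Bool) → Gk k d) := by
  intro u v h
  have hf : Fact (1 < 2 ^ k) := ⟨Nat.one_lt_two_pow (by omega)⟩
  funext i
  have h1 := congrFun h i
  unfold cube at h1
  cases hu : u i <;> cases hv : v i <;> simp [hu, hv] at h1 ⊢

lemma count_E {k d : ℕ} (hk : 1 ≤ k) (x : Gk k d) : (E k d).count x ≤ 2 ^ k - 1 := by
  unfold E
  rw [Multiset.count_nsmul]
  have h1 : (Finset.univ.val.map (cube : (Fin d → Bool) → Gk k d)).count x ≤ 1 :=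
    Multiset.nodup_iff_count_le_one.mp (Finset.univ.nodup.map (cube_inj hk)) x
  calc _ ≤ (2 ^ k - 1) * 1 := Nat.mul_le_mul_left _ h1
    _ = _ := by ring

lemma coord_sum {k d : ℕ} (T : Multiset (Gk k d)) (hT : ∀ x ∈ T, ∃ u, cube u = x) (i : Fin d) :
    T.sum i = ((T.countP (fun x => x i = 1) : ℕ) : ZMod (2 ^ k)) := by
  induction T using Multiset.induction_on with
  | empty => simp
  | cons a T ih =>
    have h1 := ih (fun x hx => hT x (Multiset.mem_cons_of_mem hx))
    obtain ⟨u, hu⟩ := hT a (Multiset.mem_cons_self _ _)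
    rw [Multiset.sum_cons, Pi.add_apply, h1, Multiset.countP_cons]
    push_cast
    rw [add_comm]
    congr 1
    subst hu
    unfold cube
    cases u i
    · by_cases h01 : (0 : ZMod (2 ^ k)) = 1
      · simp [h01]
      · simp [h01]
    · simp

/-- no `2^k` terms of `E` have sum zero -/
theorem no_zero_E {k d : ℕ} (hk : 1 ≤ k) (T : Multiset (Gk k d)) (hT : T ≤ E k d)
    (hc : Multiset.card T = 2 ^ k) : T.sum ≠ 0 := by
  intro h0
  have hf : Fact (1 < 2 ^ k) := ⟨Nat.one_lt_two_pow (by omega)⟩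
  have hcube : ∀ x ∈ T, ∃ u, cube u = x := fun x hx => mem_E (Multiset.mem_of_le hT hx)
  have hcoord : ∀ i, ∀ x ∈ T, ∀ y ∈ T, x i = y i := by
    intro i
    have h1 := coord_sum T hcube i
    rw [h0, Pi.zero_apply] at h1
    have h2 : 2 ^ k ∣ T.countP (fun x => x i = 1) := (ZMod.natCast_eq_zero_iff _ _).mp h1.symm
    have h3 : T.countP (fun x => x i = 1) ≤ 2 ^ k := (Multiset.countP_le_card _ _).trans hc.le
    have hval : ∀ x ∈ T, x i = 1 ∨ x i = 0 := by
      intro x hx
      obtain ⟨u, rfl⟩ := hcube x hx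
      unfold cube
      cases u i <;> simp
    rcases Nat.eq_zero_or_pos (T.countP (fun x => x i = 1)) with h4 | h4
    · rw [Multiset.countP_eq_zero] at h4
      intro x hx y hy
      rw [(hval x hx).resolve_left (h4 x hx), (hval y hy).resolve_left (h4 y hy)]
    · have h5 : T.countP (fun x => x i = 1) = Multiset.card T := by
        rw [hc]
        exact le_antisymm h3 (Nat.le_of_dvd h4 h2)
      rw [Multiset.countP_eq_card] at h5
      intro x hx y hy
      rw [h5 x hx, h5 y hy]
  have hpos : 0 < Multiset.card T := by rw [hc]; positivity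
  obtain ⟨x, hx⟩ := Multiset.card_pos_iff_exists_mem.mp hpos
  have hrep : T = Multiset.replicate (2 ^ k) x := by
    rw [Multiset.eq_replicate]
    exact ⟨hc, fun y hy => funext fun i => hcoord i y hy x hx⟩
  have h6 : T.count x = 2 ^ k := by rw [hrep, Multiset.count_replicate_self]
  have h7 := (Multiset.le_iff_count.mp hT x).trans (count_E hk x)
  have := Nat.one_le_two_pow (n := k)
  omega

/-- translates have the same property -/
theorem no_zero_translate {k d : ℕ} (hk : 1 ≤ k) (c : Gk k d) (S : Multiset (Gk k d))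
    (hS : S ≤ E k d) (T : Multiset (Gk k d)) (hT : T ≤ S.map (fun x => x + c))
    (hc : Multiset.card T = 2 ^ k) : T.sum ≠ 0 := by
  obtain ⟨T', hT', rfl⟩ := exists_of_le_map _ S T hT
  rw [Multiset.card_map] at hc
  have h1 := no_zero_E hk T' (hT'.trans hS) hc
  rw [Multiset.sum_map_add]
  simp only [Multiset.map_id', Multiset.map_const', Multiset.sum_replicate, hc]
  have h2 : (2 ^ k) • c = 0 := by
    funext i
    rw [Pi.smul_apply, nsmul_eq_mul, ZMod.natCast_self, zero_mul]
    rfl
  rw [h2, add_zero]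
  exact h1

lemma sum_E {k d : ℕ} (i : Fin d) :
    (E k d).sum i = ((2 ^ k - 1 : ℕ) : ZMod (2 ^ k)) * 2 ^ (d - 1) := by
  unfold E
  rw [Multiset.sum_nsmul, Pi.smul_apply, nsmul_eq_mul]
  congr 1
  have h1 : (Finset.univ.val.map (cube : (Fin d → Bool) → Gk k d)).sum i =
      ∑ u : Fin d → Bool, (if u i then (1 : ZMod (2 ^ k)) else 0) := by
    change (∑ u : Fin d → Bool, (cube u : Gk k d)) i = _
    rw [Finset.sum_apply]
    rfl
  rw [h1, Finset.sum_ite]
  simp only [Finset.sum_const, Finset.sum_const_zero, add_zero, nsmul_eq_mul, mul_one]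
  have h2 : (Finset.univ.filter (fun u : Fin d → Bool => u i = true)).card = 2 ^ (d - 1) := by
    have h3 : Finset.univ.filter (fun u : Fin d → Bool => u i = true) =
        Fintype.piFinset (fun j => if j = i then {true} else Finset.univ) := by
      ext u
      simp only [Finset.mem_filter, Finset.mem_univ, true_and, Fintype.mem_piFinset]
      constructor
      · intro h j
        by_cases hj : j = i
        · subst hj; simp [h]
        · simp [hj]
      · intro h
        simpa using h i
    rw [h3, Fintype.card_piFinset]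
    rw [Finset.prod_eq_mul_prod_sdiff_singleton_of_mem (Finset.mem_univ i)]
    simp only [if_true, Finset.card_singleton, one_mul]
    have h4 : ∀ j ∈ Finset.univ \ {i}, ((if j = i then ({true} : Finset Bool) else Finset.univ)).card = 2 := by
      intro j hj
      have : j ≠ i := by simpa using hj
      simp [this]
    rw [Finset.prod_congr rfl h4]
    rw [Finset.prod_const]
    congr 1
    rw [Finset.card_sdiff_of_subset (Finset.subset_univ _)]
    simp
  rw [h2]
  push_cast
  ring

end Pool.Agent.R93.EGZ
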