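import Pool.Agent.TH966.KS.Kn
import Pool.Agent.R93.KnotMean

/-!
# Lattice knots: averages of the counts over short windows of lengths
-/

set_option autoImplicit false

namespace Pool.Agent.R93.KM

open Filter Topology KN TH966.KS Pool.Agent.R956.K1

/-- the renormalised counts -/
noncomputable def RR (Q : List Dir → Prop) (β : ℝ) (n : ℕ) : ℝ :=
  pq Q (2 * n) / ((2 * n : ℝ) ^ β * gr Q ^ (2 * n))

lemma RR_eq (Q : List Dir → Prop) (β : ℝ) (n : ℕ) :
    RR Q β n = (2 : ℝ) ^ (-β) * (yq Q n / (n : ℝ) ^ β) := by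
  unfold RR yq
  rw [Real.mul_rpow (by norm_num) (Nat.cast_nonneg n), Real.rpow_neg (by norm_num)]
  field_simp

lemma avg_smul (u : ℕ → ℝ) (s δ : ℝ) (n : ℕ) :
    avg (fun k => s * u k) δ n = s * avg u δ n := by
  unfold avg
  rw [← Finset.mul_sum, mul_div_assoc]

lemma avg_RR (Q : List Dir → Prop) (β δ : ℝ) (n : ℕ) :
    avg (RR Q β) δ n = (2 : ℝ) ^ (-β) * avg (fun k => yq Q k / (k : ℝ) ^ β) δ n := by
  rw [← avg_smul]
  congr 1
  funext k
  exact RR_eq Q β k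

variable {Q : List Dir → Prop}

/-- polynomial bounds give Kesten's inequality and the ratio limit along all lengths -/
theorem both (hQ : KClass Q) (hne : ∃ w, SAP w ∧ Q w) {a C : ℝ}
    (h : ∀ᶠ n : ℕ in atTop, 0 < yq Q n ∧ |Real.log (yq Q n) - (a * Real.log n + 0)| ≤
      C * (1 + Real.log n)) :
    (∃ D, Kc (yq Q) D) ∧ Tendsto (fun k => yq Q (k + 1) / yq Q k) atTop (𝓝 1) := by
  obtain ⟨D, θ, k0, hD, hθ0, hθ1, hK⟩ := kes_yq Q hQ hne
  obtain ⟨g1, -, -⟩ := gr_bounds Q hQ hne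
  have hμ : 0 < gr Q := by linarith
  refine ⟨⟨D, kc_of hK (yq_nonneg Q hμ.le) hD hθ0 hθ1 h⟩, ?_⟩
  rw [Metric.tendsto_nhds]
  intro ε hε
  obtain ⟨δ, hδ0, hδ1, hr⟩ := class_ratio Q hQ hne (ε * gr Q ^ 2 / 2) (by positivity)
  filter_upwards [hr, sub_of_log h (show 0 < 1 - δ by linarith) (show 1 - δ < 1 by linarith),
    h] with j h1 h2 h3
  have hp : 0 < gr Q ^ (2 * j) := by positivity
  have h4 : ((1 - δ) * gr Q) ^ (2 * j) ≤ pq Q (2 * j) := by
    rw [mul_pow]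
    unfold yq at h2
    rwa [le_div_iff₀ hp] at h2
  have h5 := h1 h4
  have h6 : 0 < pq Q (2 * j) := by
    have := h3.1
    unfold yq at this
    exact (div_pos_iff_of_pos_right hp).1 this
  have h7 : yq Q (j + 1) / yq Q j - 1 =
      (pq Q (2 * j + 2) / pq Q (2 * j) - gr Q ^ 2) / gr Q ^ 2 := by
    unfold yq
    rw [show 2 * (j + 1) = 2 * j + 2 by ring, pow_add]
    field_simp
  rw [Real.dist_eq, h7, abs_div, abs_of_pos (show 0 < gr Q ^ 2 by positivity),
    div_lt_iff₀ (by positivity)]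
  refine h5.trans_lt ?_
  have : 0 < ε * gr Q ^ 2 := by positivity
  linarith

/-- averages between two constants -/
theorem poly_of_avg (hQ : KClass Q) (hne : ∃ w, SAP w ∧ Q w) {β δ A B : ℝ} (hδ : 0 < δ)
    (hA : 0 < A) (h : ∀ᶠ n : ℕ in atTop, A ≤ avg (RR Q β) δ n ∧ avg (RR Q β) δ n ≤ B) :
    (∀ᶠ n : ℕ in atTop, (2 : ℝ) ^ β * A ≤ avg (fun k => yq Q k / (k : ℝ) ^ β) δ n ∧
      avg (fun k => yq Q k / (k : ℝ) ^ β) δ n ≤ (2 : ℝ) ^ β * B) ∧
    ∃ C : ℝ, ∀ᶠ n : ℕ in atTop, 0 < yq Q n ∧ |Real.log (yq Q n) - (β * Real.log n + 0)| ≤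
      C * (1 + Real.log n) := by
  have h2 : (0 : ℝ) < (2 : ℝ) ^ β := Real.rpow_pos_of_pos (by norm_num) _
  have h1 : ∀ᶠ n : ℕ in atTop, (2 : ℝ) ^ β * A ≤ avg (fun k => yq Q k / (k : ℝ) ^ β) δ n ∧
      avg (fun k => yq Q k / (k : ℝ) ^ β) δ n ≤ (2 : ℝ) ^ β * B := by
    filter_upwards [h] with n hn
    rw [avg_RR, Real.rpow_neg (by norm_num)] at hn
    obtain ⟨g1, g2⟩ := hn
    rw [inv_mul_eq_div, le_div_iff₀ h2] at g1
    rw [inv_mul_eq_div, div_le_iff₀ h2] at g2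
    constructor <;> linarith
  obtain ⟨D, θ, k0, hD, hθ0, hθ1, hK⟩ := kes_yq Q hQ hne
  obtain ⟨g1, -, -⟩ := gr_bounds Q hQ hne
  exact ⟨h1, poly hK (yq_nonneg Q (by linarith)) hD hθ0 hθ1 hδ (by positivity) h1⟩

theorem bounds (hQ : KClass Q) (hne : ∃ w, SAP w ∧ Q w) {β δ A B : ℝ} (hδ : 0 < δ)
    (hA : 0 < A) (h : ∀ᶠ n : ℕ in atTop, A ≤ avg (RR Q β) δ n ∧ avg (RR Q β) δ n ≤ B) :
    ∃ A' B' : ℝ, 0 < A' ∧ 0 < B' ∧ ∀ᶠ n : ℕ in atTop, A' ≤ RR Q β n ∧ RR Q β n ≤ B' := by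
  obtain ⟨h1, C, hC⟩ := poly_of_avg hQ hne hδ hA h
  obtain ⟨⟨D, K⟩, hr⟩ := both hQ hne hC
  have h2 : (0 : ℝ) < (2 : ℝ) ^ β := Real.rpow_pos_of_pos (by norm_num) _
  have h3 : (0 : ℝ) < (2 : ℝ) ^ (-β) := Real.rpow_pos_of_pos (by norm_num) _
  obtain ⟨A', B', hA', hB', h4⟩ := avg_bounds K hr hδ (by positivity) h1
  refine ⟨(2 : ℝ) ^ (-β) * A', (2 : ℝ) ^ (-β) * B', by positivity, by positivity, ?_⟩
  filter_upwards [h4] with n hn
  rw [RR_eq]
  exact ⟨mul_le_mul_of_nonneg_left hn.1 h3.le, mul_le_mul_of_nonneg_left hn.2 h3.le⟩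

lemma tend_iff {β A : ℝ} {l : Filter ℕ} : Tendsto (RR Q β) l (𝓝 A) ↔
    Tendsto (fun k => yq Q k / (k : ℝ) ^ β) l (𝓝 ((2 : ℝ) ^ β * A)) := by
  have h2 : (0 : ℝ) < (2 : ℝ) ^ β := Real.rpow_pos_of_pos (by norm_num) _
  constructor
  · intro h
    refine (h.const_mul ((2 : ℝ) ^ β)).congr fun k => ?_
    rw [RR_eq, Real.rpow_neg (by norm_num), ← mul_assoc, mul_inv_cancel₀ h2.ne', one_mul]
  · intro h
    have h3 := h.const_mul ((2 : ℝ) ^ (-β))
    rw [Real.rpow_neg (by norm_num), ← mul_assoc, inv_mul_cancel₀ h2.ne', one_mul] at h3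
    refine h3.congr fun k => ?_
    rw [RR_eq, Real.rpow_neg (by norm_num)]

theorem form (hQ : KClass Q) (hne : ∃ w, SAP w ∧ Q w) {β A : ℝ} (hA : 0 < A)
    (h : ∀ δ : ℝ, 0 < δ → Tendsto (avg (RR Q β) δ) atTop (𝓝 A)) :
    Tendsto (RR Q β) atTop (𝓝 A) := by
  have h2 : (0 : ℝ) < (2 : ℝ) ^ β := Real.rpow_pos_of_pos (by norm_num) _
  have h1 : ∀ᶠ n : ℕ in atTop, A / 2 ≤ avg (RR Q β) 1 n ∧ avg (RR Q β) 1 n ≤ 2 * A := by
    filter_upwards [(h 1 one_pos).eventually_const_lt (show A / 2 < A by linarith),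
      (h 1 one_pos).eventually_lt_const (show A < 2 * A by linarith)] with n g1 g2
    exact ⟨g1.le, g2.le⟩
  obtain ⟨-, C, hC⟩ := poly_of_avg hQ hne one_pos (by positivity) h1
  obtain ⟨⟨D, K⟩, hr⟩ := both hQ hne hC
  rw [tend_iff]
  refine local_avg K hr (by positivity) fun δ hδ => ?_
  refine ((h δ hδ).const_mul ((2 : ℝ) ^ β)).congr fun n => ?_
  rw [avg_RR, Real.rpow_neg (by norm_num), ← mul_assoc, mul_inv_cancel₀ h2.ne', one_mul]

/-- the ratio in terms of the normalised counts -/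
lemma ratio_eq (hμ : 0 < gr Q) {n : ℕ} (h : 0 < yq Q n) :
    pq Q (2 * n + 2) / pq Q (2 * n) - gr Q ^ 2 = gr Q ^ 2 * (yq Q (n + 1) / yq Q n - 1) := by
  have hp : 0 < gr Q ^ (2 * n) := by positivity
  have h6 : 0 < pq Q (2 * n) := by
    unfold yq at h
    exact (div_pos_iff_of_pos_right hp).1 h
  unfold yq
  rw [show 2 * (n + 1) = 2 * n + 2 by ring, pow_add]
  field_simp

theorem ratio_form (hQ : KClass Q) (hne : ∃ w, SAP w ∧ Q w) {β A : ℝ} (hA : 0 < A)
    (h : Tendsto (RR Q β) atTop (𝓝 A)) :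
    Tendsto (fun n : ℕ => (pq Q (2 * n + 2) / pq Q (2 * n) - gr Q ^ 2) * √(n : ℝ)) atTop
      (𝓝 0) := by
  have h2 : (0 : ℝ) < (2 : ℝ) ^ β := Real.rpow_pos_of_pos (by norm_num) _
  obtain ⟨g1, -, -⟩ := gr_bounds Q hQ hne
  have hμ : 0 < gr Q := by linarith
  have hav : Tendsto (avg (RR Q β) 1) atTop (𝓝 A) := avg_tend 1 h
  have h1 : ∀ᶠ n : ℕ in atTop, A / 2 ≤ avg (RR Q β) 1 n ∧ avg (RR Q β) 1 n ≤ 2 * A := by
    filter_upwards [hav.eventually_const_lt (show A / 2 < A by linarith),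
      hav.eventually_lt_const (show A < 2 * A by linarith)] with n g1 g2
    exact ⟨g1.le, g2.le⟩
  obtain ⟨-, C, hC⟩ := poly_of_avg hQ hne one_pos (by positivity) h1
  obtain ⟨⟨D, K⟩, -⟩ := both hQ hne hC
  have h3 := (K.ratio_form (a := β) (A := (2 : ℝ) ^ β * A) (by positivity)
    (tend_iff.1 h)).const_mul (gr Q ^ 2)
  rw [mul_zero] at h3
  refine h3.congr' ?_
  filter_upwards [K.pos] with n hn
  rw [ratio_eq hμ hn]
  ring

theorem ratio_expo (hQ : KClass Q) (hne : ∃ w, SAP w ∧ Q w) {β : ℝ}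
    (h : Tendsto (fun n : ℕ => Real.log (pq Q (2 * n) / gr Q ^ (2 * n)) / Real.log (2 * n)) atTop
      (𝓝 β)) :
    Tendsto (fun n : ℕ => (pq Q (2 * n + 2) / pq Q (2 * n) - gr Q ^ 2) *
      √((n : ℝ) / Real.log n)) atTop (𝓝 0) := by
  obtain ⟨g1, -, -⟩ := gr_bounds Q hQ hne
  have hμ : 0 < gr Q := by linarith
  obtain ⟨D0, hD0, hmain⟩ := main_fix Q hQ hne
  have hl : ∀ᶠ n : ℕ in atTop, |Real.log (yq Q n) - (β * Real.log (2 * n) + 0)| ≤
      2 * (1 + Real.log n) := by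
    filter_upwards [Metric.tendsto_nhds.1 h 1 one_pos, eventually_ge_atTop 2] with n h4 hn
    have h51 : (2 : ℝ) ≤ n := by exact_mod_cast hn
    have h52 : 0 < Real.log (2 * n : ℝ) := Real.log_pos (by linarith)
    rw [Real.dist_eq] at h4
    change |Real.log (yq Q n) / Real.log (2 * n) - β| < 1 at h4
    have h6 : Real.log (yq Q n) - (β * Real.log (2 * n) + 0) =
        (Real.log (yq Q n) / Real.log (2 * n) - β) * Real.log (2 * n) := by
      field_simp
      ring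
    rw [h6, abs_mul, abs_of_pos h52]
    have h7 : Real.log (2 * n : ℝ) ≤ 1 + Real.log n := by
      have := Real.log_two_lt_d9
      rw [Real.log_mul (by norm_num) (by linarith)]
      linarith
    have h8 : |Real.log (yq Q n) / Real.log (2 * n) - β| * Real.log (2 * n) ≤
        1 * Real.log (2 * n) := mul_le_mul_of_nonneg_right h4.le h52.le
    linarith
  have h1 := hmain (fun n => 1 + Real.log n) (fun n => by
      have := Real.log_natCast_nonneg n
      linarith) sc_log.mono sc_log.two sc_log.small (fun j => j) tendsto_id 2 1 β 0 (by norm_num)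
    (by norm_num) (by
      filter_upwards [eventually_ge_atTop 1] with j hj
      have h5 : (1 : ℝ) ≤ j := by exact_mod_cast hj
      have h6 := Real.log_natCast_nonneg j
      have h7 : (1 : ℝ) ≤ √(j * (1 + Real.log j)) := by
        rw [Real.one_le_sqrt]
        nlinarith
      push_cast
      linarith) hl
  have hlog2 := Real.log_two_lt_d9
  have hlog2' := Real.log_two_gt_d9
  have h2 : ∀ᶠ n : ℕ in atTop, 0 < yq Q n ∧ |Real.log (yq Q n) - (β * Real.log n + 0)| ≤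
      (2 + |β|) * (1 + Real.log n) := by
    filter_upwards [h1, hl, eventually_ge_atTop 1] with n hn hn2 hn1
    have hn0 : (0 : ℝ) < n := by exact_mod_cast hn1
    refine ⟨hn.1, ?_⟩
    have e : Real.log (yq Q n) - (β * Real.log n + 0) =
        (Real.log (yq Q n) - (β * Real.log (2 * n) + 0)) + β * Real.log 2 := by
      rw [Real.log_mul (by norm_num) hn0.ne']
      ring
    rw [e]
    refine (abs_add_le _ _).trans ?_
    rw [abs_mul, abs_of_pos (show 0 < Real.log 2 by linarith)]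
    have h6 := Real.log_natCast_nonneg n
    have h7 := abs_nonneg β
    nlinarith
  obtain ⟨⟨D, K⟩, -⟩ := both hQ hne h2
  have h3 : Tendsto (fun k : ℕ => Real.log (yq Q k) / Real.log k) atTop (𝓝 β) := by
    have g2 : Tendsto (fun n : ℕ => Real.log (2 * n : ℝ) / Real.log n) atTop (𝓝 1) := by
      have g3 : Tendsto (fun n : ℕ => Real.log 2 / Real.log (n : ℝ) + 1) atTop (𝓝 (0 + 1)) :=
        ((Real.tendsto_log_atTop.comp tendsto_natCast_atTop_atTop).const_div_atTop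
          (Real.log 2)).add_const 1
      rw [zero_add] at g3
      refine g3.congr' ?_
      filter_upwards [eventually_ge_atTop 2] with n hn
      have h51 : (2 : ℝ) ≤ n := by exact_mod_cast hn
      have h52 : 0 < Real.log (n : ℝ) := Real.log_pos (by linarith)
      rw [Real.log_mul (by norm_num) (by linarith)]
      field_simp
    have g4 := h.mul g2
    rw [mul_one] at g4
    refine g4.congr' ?_
    filter_upwards [eventually_ge_atTop 2] with n hn
    have h51 : (2 : ℝ) ≤ n := by exact_mod_cast hn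
    have h52 : 0 < Real.log (2 * n : ℝ) := Real.log_pos (by linarith)
    change Real.log (yq Q n) / Real.log (2 * n) * (Real.log (2 * n) / Real.log n) = _
    field_simp
  have h4 := (K.ratio_expo h3).const_mul (gr Q ^ 2)
  rw [mul_zero] at h4
  refine h4.congr' ?_
  filter_upwards [K.pos] with n hn
  rw [ratio_eq hμ hn]
  ring

end Pool.Agent.R93.KM
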