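import Mathlib
import Pool.Agent.TH792.VeeLocal

/-! Local determination of labelled ∨-systems by matroid and ν-function, in all dimensions and
with collinear covectors allowed. -/

namespace Pool.Agent.R93.Vee44

open Module Submodule Pool.Agent.TH792.Vee Pool.Agent.TH792.VeeLink Pool.Agent.TH792.VeeB
open Pool.Agent.TH792.VeeMain
open scoped Topology

noncomputable section

open scoped Classical

variable {V : Type*} [AddCommGroup V] [Module ℝ V] {E : Type*} [Fintype E]

/-- The set of covectors of a labelled family `a : E → V^*`, as a finite set. -/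
def im (a : E → Dual ℝ V) : Finset (Dual ℝ V) := Finset.univ.image a

/-- Labelled ∨-systems: injective families of nonzero covectors spanning `V^*` whose image `A`
satisfies the ∨-condition for every plane `P` and every `α ∈ A ∩ P`. Collinear covectors are
allowed. Here `vee A γ` is `γ^∨` and `inter A P` is `A ∩ P`. -/
structure IsLabelled (a : E → Dual ℝ V) : Prop where
  injective : Function.Injective a
  ne_zero : ∀ e, a e ≠ 0
  span_eq_top : span ℝ (Set.range a) = ⊤
  vee_cond : ∀ P : Submodule ℝ (Dual ℝ V), finrank ℝ P = 2 → ∀ α ∈ inter (im a) P,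
    ∃ l : ℝ, ∑ β ∈ inter (im a) P, β (vee (im a) α) • vee (im a) β = l • vee (im a) α

/-- The matroid of `a` is connected: `E` is not a disjoint union of two nonempty sets whose
covectors have spans meeting only in `0`. -/
def Connected (a : E → Dual ℝ V) : Prop :=
  ∀ S : Set E, S.Nonempty → Sᶜ.Nonempty → ¬ Disjoint (span ℝ (a '' S)) (span ℝ (a '' Sᶜ))

/-- `a` and `b` induce the same matroid on `E`. -/
def SameMatroid (a b : E → Dual ℝ V) : Prop :=
  ∀ S : Set E, LinearIndepOn ℝ b S ↔ LinearIndepOn ℝ a S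

/-- `F` is a `2`-flat of the matroid of `a`. -/
def IsFlat (a : E → Dual ℝ V) (F : Set E) : Prop :=
  finrank ℝ (span ℝ (a '' F)) = 2 ∧ ∀ e, a e ∈ span ℝ (a '' F) → e ∈ F

/-- The number `ν` with `∑_{β ∈ A ∩ P} β(α^∨) β^∨ = ν α^∨`. -/
def nuAt (A : Finset (Dual ℝ V)) (P : Submodule ℝ (Dual ℝ V)) (α : Dual ℝ V) : ℝ :=
  Classical.epsilon (fun c => ∑ β ∈ inter A P, β (vee A α) • vee A β = c • vee A α)

/-- `a` and `b` have the same `ν`-function on the `2`-flats with at least three elements. -/
def SameNu (a b : E → Dual ℝ V) : Prop :=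
  ∀ F : Set E, IsFlat a F → 3 ≤ F.ncard → ∀ e ∈ F,
    nuAt (im b) (span ℝ (b '' F)) (b e) = nuAt (im a) (span ℝ (a '' F)) (a e)

/-- `a` is locally determined by its matroid and its `ν`-function: there is a neighbourhood
`{b | ∀ e, ∀ v ∈ T, |b e v - a e v| < ε}` of `a` such that every labelled ∨-system `b` in it with
the matroid and the `ν`-function of `a` is `g ∘ a` for some `g` in `GL(V^*)`. -/
def LocallyDetermined (a : E → Dual ℝ V) : Prop :=
  ∃ (T : Finset V) (ε : ℝ), 0 < ε ∧ ∀ b : E → Dual ℝ V, IsLabelled b → SameMatroid a b →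
    SameNu a b → (∀ e, ∀ v ∈ T, |b e v - a e v| < ε) → ∃ g : Dual ℝ V ≃ₗ[ℝ] Dual ℝ V,
      ∀ e, b e = g (a e)

/-! ### Matroid lemmas -/

lemma mem_span_of_basis {a b : E → Dual ℝ V} (h : SameMatroid a b) {B : Set E} {e : E}
    (hB : LinearIndepOn ℝ b B) (he : b e ∈ span ℝ (b '' B)) : a e ∈ span ℝ (a '' B) := by
  by_cases heB : e ∈ B
  · exact subset_span ⟨e, heB, rfl⟩
  by_contra hcon
  have h1 : LinearIndepOn ℝ a (insert e B) :=
    (linearIndepOn_insert heB).2 ⟨(h B).1 hB, hcon⟩
  have h2 := (h _).2 h1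
  exact ((linearIndepOn_insert heB).1 h2).2 he

lemma SameMatroid.symm {a b : E → Dual ℝ V} (h : SameMatroid a b) : SameMatroid b a :=
  fun S => (h S).symm

lemma exists_basis (b : E → Dual ℝ V) (S : Set E) :
    ∃ B ⊆ S, span ℝ (b '' B) = span ℝ (b '' S) ∧ LinearIndepOn ℝ b B := by
  obtain ⟨B, hBS, -, hspan, hind⟩ :=
    exists_linearIndepOn_extension (K := ℝ) (v := b) (s := ∅) (t := S)
      (linearIndepOn_empty ℝ b) (Set.empty_subset S)
  refine ⟨B, hBS, le_antisymm (span_mono (Set.image_mono hBS)) ?_, hind⟩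
  rw [span_le]; exact hspan

lemma span_basis {a b : E → Dual ℝ V} (h : SameMatroid a b) {B S : Set E} (hBS : B ⊆ S)
    (hB : LinearIndepOn ℝ b B) (hs : span ℝ (b '' B) = span ℝ (b '' S)) :
    span ℝ (a '' B) = span ℝ (a '' S) := by
  refine le_antisymm (span_mono (Set.image_mono hBS)) ?_
  rw [span_le]
  rintro _ ⟨e, he, rfl⟩
  refine mem_span_of_basis h hB ?_
  rw [hs]
  exact subset_span ⟨e, he, rfl⟩

lemma mem_span_iff {a b : E → Dual ℝ V} (h : SameMatroid a b) {S : Set E} {e : E}
    (he : b e ∈ span ℝ (b '' S)) : a e ∈ span ℝ (a '' S) := by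
  obtain ⟨B, hBS, hs, hB⟩ := exists_basis b S
  rw [← span_basis h hBS hB hs]
  rw [← hs] at he
  exact mem_span_of_basis h hB he

lemma Connected.of_same {a b : E → Dual ℝ V} (h : SameMatroid a b) (ha : Connected a) :
    Connected b := by
  intro S hS hS' hdis
  apply ha S hS hS'
  obtain ⟨B, hBS, hs, hB⟩ := exists_basis b S
  obtain ⟨C, hCS, hs', hC⟩ := exists_basis b Sᶜ
  rw [← hs, ← hs'] at hdis
  have hu : LinearIndepOn ℝ b (B ∪ C) := hB.union hC hdis
  have hu' := (h _).1 hu
  rw [← span_basis h hBS hB hs, ← span_basis h hCS hC hs']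
  have hBC : Disjoint B C :=
    Set.disjoint_of_subset hBS hCS disjoint_compl_right
  exact (linearIndepOn_union_iff hBC).1 hu' |>.2.2

lemma finrank_same {a b : E → Dual ℝ V} (h : SameMatroid a b) (S : Set E) :
    finrank ℝ (span ℝ (a '' S)) = finrank ℝ (span ℝ (b '' S)) := by
  obtain ⟨B, hBS, hs, hB⟩ := exists_basis b S
  rw [← span_basis h hBS hB hs, ← hs]
  have hBa : LinearIndepOn ℝ a B := (h B).1 hB
  have h1 := finrank_span_eq_card (R := ℝ) (b := fun x : B => a x) hBa
  have h2 := finrank_span_eq_card (R := ℝ) (b := fun x : B => b x) hB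
  rw [show Set.range (fun x : B => a x) = a '' B by rw [Set.image_eq_range]] at h1
  rw [show Set.range (fun x : B => b x) = b '' B by rw [Set.image_eq_range]] at h2
  rw [h1, h2]

/-! ### Sums over labelled families -/

lemma mem_im (a : E → Dual ℝ V) (e : E) : a e ∈ im a :=
  Finset.mem_image_of_mem _ (Finset.mem_univ _)

lemma coe_im (a : E → Dual ℝ V) : (im a : Set (Dual ℝ V)) = Set.range a := by
  ext β; simp [im]

lemma mem_inter {A : Finset (Dual ℝ V)} {P : Submodule ℝ (Dual ℝ V)} {β : Dual ℝ V} :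
    β ∈ inter A P ↔ β ∈ A ∧ β ∈ P := by
  simp [inter]

lemma sum_im {M : Type*} [AddCommMonoid M] {a : E → Dual ℝ V} (ha : Function.Injective a)
    (f : Dual ℝ V → M) : ∑ β ∈ im a, f β = ∑ e, f (a e) :=
  Finset.sum_image fun _ _ _ _ h => ha h

lemma sum_inter {M : Type*} [AddCommMonoid M] {a : E → Dual ℝ V} (ha : Function.Injective a)
    (P : Submodule ℝ (Dual ℝ V)) (f : Dual ℝ V → M) :
    ∑ β ∈ inter (im a) P, f β = ∑ e, if a e ∈ P then f (a e) else 0 := by
  rw [inter, Finset.sum_filter, sum_im ha]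

/-- the ∨-operator -/
def op (A : Finset (Dual ℝ V)) (P : Submodule ℝ (Dual ℝ V)) (v : V) : V :=
  ∑ β ∈ inter A P, β v • vee A β

lemma op_smul (A : Finset (Dual ℝ V)) (P : Submodule ℝ (Dual ℝ V)) (s : ℝ) (v : V) :
    op A P (s • v) = s • op A P v := by
  rw [op, op, Finset.smul_sum]
  refine Finset.sum_congr rfl fun β _ => ?_
  rw [map_smul, smul_eq_mul, mul_smul]

lemma nuAt_def (A : Finset (Dual ℝ V)) (P : Submodule ℝ (Dual ℝ V)) (α : Dual ℝ V) :
    nuAt A P α = Classical.epsilon (fun c => op A P (vee A α) = c • vee A α) := rfl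

variable [FiniteDimensional ℝ V]

lemma nu_eq_nuAt {A : Finset (Dual ℝ V)} (hA : IsVeeSystem A) {P : Submodule ℝ (Dual ℝ V)}
    (hP : finrank ℝ P = 2) (h3 : 2 < (inter A P).card) {α : Dual ℝ V} (hα : α ∈ inter A P) :
    nu A P = nuAt A P α := by
  obtain ⟨T, hT, hform⟩ := exists_veeE A hA.span_eq_top
  let R : Dual ℝ V →ₗ[ℝ] Dual ℝ V :=
    ∑ β ∈ inter A P, LinearMap.smulRight (β.comp (T : Dual ℝ V →ₗ[ℝ] V)) β
  have hR : ∀ γ, T (R γ) = ∑ β ∈ inter A P, β (vee A γ) • vee A β := by
    intro γ
    simp only [R, LinearMap.sum_apply, LinearMap.smulRight_apply, map_sum, map_smul]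
    refine Finset.sum_congr rfl fun β _ => ?_
    rw [hT, hT]; rfl
  have heig : ∀ β ∈ inter A P, ∃ c : ℝ, R β = c • β := by
    intro β hβ
    obtain ⟨c, hc⟩ := hA.vee_cond P hP β hβ
    refine ⟨c, T.injective ?_⟩
    rw [hR, hc, hT, map_smul]
  obtain ⟨x, hx, y, hy, z, hz, hxy, hxz, hyz⟩ := Finset.two_lt_card.1 h3
  have hInd : ∀ x ∈ inter A P, ∀ y ∈ inter A P, x ≠ y → Ind x y := by
    intro x hx y hy hxy
    exact ind_of_veeSystem hA (f := val A) Subtype.val_injective (fun i => i.2)
        ⟨x, (mem_inter.1 hx).1⟩ ⟨y, (mem_inter.1 hy).1⟩ (fun h => hxy (congrArg Subtype.val h))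
  have hspan : span ℝ {x, y} = P := by
    have : FiniteDimensional ℝ P := FiniteDimensional.of_finrank_pos (by omega)
    refine Submodule.eq_of_le_of_finrank_eq ?_ ?_
    · rw [span_le]
      intro w hw
      rcases hw with rfl | rfl
      · exact (mem_inter.1 hx).2
      · exact (mem_inter.1 hy).2
    · rw [fr2 (hInd x hx y hy hxy), hP]
  obtain ⟨p, hp⟩ := heig x hx
  obtain ⟨q, hq⟩ := heig y hy
  obtain ⟨r, hr⟩ := heig z hz
  have hpq : p = q := scalar3 R (hInd x hx y hy hxy) (hInd x hx z hz hxz) (hInd y hy z hz hyz)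
    (by rw [hspan]; exact (mem_inter.1 hz).2) hp hq hr
  subst hpq
  have hscal : ∀ γ ∈ P, R γ = p • γ := by
    intro γ hγ
    rw [← hspan] at hγ
    obtain ⟨s, t, rfl⟩ := Submodule.mem_span_pair.1 hγ
    rw [map_add, map_smul, map_smul, hp, hq]
    module
  have hex : ∃ c : ℝ, ∀ γ ∈ P, ∑ β ∈ inter A P, β (vee A γ) • vee A β = c • vee A γ := by
    refine ⟨p, fun γ hγ => ?_⟩
    rw [← hR, hscal γ hγ, hT, map_smul]
  have hspec : ∀ γ ∈ P, ∑ β ∈ inter A P, β (vee A γ) • vee A β = nu A P • vee A γ :=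
    Classical.epsilon_spec hex
  have h1 := hspec α (mem_inter.1 hα).2
  have h2 : ∑ β ∈ inter A P, β (vee A α) • vee A β = nuAt A P α • vee A α :=
    Classical.epsilon_spec
      (p := fun c => ∑ β ∈ inter A P, β (vee A α) • vee A β = c • vee A α) ⟨_, h1⟩
  rw [h1] at h2
  have hne : vee A α ≠ 0 := by
    rw [hT]
    intro h0
    exact hA.ne_zero α (mem_inter.1 hα).1 (T.map_eq_zero_iff.1 h0)
  exact smul_left_injective ℝ hne h2

/-! ### The positive part -/

omit [FiniteDimensional ℝ V] in
lemma isVeeSystem_im {b : E → Dual ℝ V} (hb : IsLabelled b)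
    (hind : ∀ e f, e ≠ f → LinearIndependent ℝ ![b e, b f]) : IsVeeSystem (im b) where
  ne_zero := by
    intro α hα
    obtain ⟨e, -, rfl⟩ := Finset.mem_image.1 hα
    exact hb.ne_zero e
  not_collinear := by
    intro α hα β hβ hne c hc
    obtain ⟨e, -, rfl⟩ := Finset.mem_image.1 hα
    obtain ⟨f, -, rfl⟩ := Finset.mem_image.1 hβ
    have hef : e ≠ f := fun h => hne (by rw [h])
    have := (LinearIndependent.pair_iff.1 (hind e f hef)) c (-1) (by rw [hc]; simp)
    norm_num at this
  span_eq_top := by rw [coe_im]; exact hb.span_eq_top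
  vee_cond := hb.vee_cond

omit [FiniteDimensional ℝ V] in
lemma isIrreducible_im {b : E → Dual ℝ V} (hb : Function.Injective b) (hc : Connected b) :
    IsIrreducible (im b) := by
  intro A₁ A₂ hu hd h1 h2 hcompl
  have hA1 : b '' (b ⁻¹' A₁) = A₁ := by
    rw [Set.image_preimage_eq_inter_range, ← coe_im, ← hu]
    exact Set.inter_eq_left.2 Set.subset_union_left
  have hpre : (b ⁻¹' A₁)ᶜ = b ⁻¹' A₂ := by
    ext e
    simp only [Set.mem_compl_iff, Set.mem_preimage]
    constructor
    · intro h
      have : b e ∈ A₁ ∪ A₂ := by rw [hu]; exact mem_im b e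
      exact this.resolve_left h
    · intro h h'
      exact Set.disjoint_left.1 hd h' h
  have hA2 : b '' (b ⁻¹' A₁)ᶜ = A₂ := by
    rw [hpre, Set.image_preimage_eq_inter_range, ← coe_im, ← hu]
    exact Set.inter_eq_left.2 Set.subset_union_right
  refine hc (b ⁻¹' A₁) ?_ ?_ ?_
  · rw [← Set.image_nonempty (f := b), hA1]; exact h1
  · rw [← Set.image_nonempty (f := b), hA2]; exact h2
  · rw [hA1, hA2]; exact hcompl.disjoint

omit [FiniteDimensional ℝ V] in
lemma noncoll_of_same {a b : E → Dual ℝ V} (h : SameMatroid a b)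
    (hind : ∀ e f, e ≠ f → LinearIndependent ℝ ![a e, a f]) :
    ∀ e f, e ≠ f → LinearIndependent ℝ ![b e, b f] := by
  intro e f hef
  have h1 : LinearIndepOn ℝ a {e, f} :=
    (LinearIndepOn.pair_iff a hef).2 (LinearIndependent.pair_iff.1 (hind e f hef))
  have h2 := (h _).2 h1
  exact LinearIndependent.pair_iff.2 ((LinearIndepOn.pair_iff b hef).1 h2)

theorem determined_of_three {a : E → Dual ℝ V} (ha : IsLabelled a) (hc : Connected a)
    (hn : 3 ≤ finrank ℝ V) (hind : ∀ e f, e ≠ f → LinearIndependent ℝ ![a e, a f]) :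
    LocallyDetermined a := by
  have hA := isVeeSystem_im ha hind
  have hirr := isIrreducible_im ha.injective hc
  let eA : E ≃ im a := Equiv.ofBijective (fun e => ⟨a e, mem_im a e⟩)
    ⟨fun e f h => ha.injective (congrArg Subtype.val h), by
      rintro ⟨β, hβ⟩
      obtain ⟨e, -, rfl⟩ := Finset.mem_image.1 hβ
      exact ⟨e, rfl⟩⟩
  have heA : ∀ e, ((eA e : im a) : Dual ℝ V) = a e := fun e => rfl
  have heA' : ∀ x : im a, a (eA.symm x) = x := by
    intro x
    rw [← heA, Equiv.apply_symm_apply]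
  let B := Module.finBasis ℝ V
  obtain ⟨ε, hε, hrig⟩ := Pool.Agent.TH792.VeeLocal.rigidity hn (im a) B _
    (Pool.Agent.TH792.VeeProj.matching_val (im a) hA hirr)
  refine ⟨Finset.univ.image B, ε, hε, ?_⟩
  intro b hb hmat hnu hclose
  have hindb := noncoll_of_same hmat hind
  have hB := isVeeSystem_im hb hindb
  have hirrB := isIrreducible_im hb.injective (hc.of_same hmat)
  let φ : im a → Dual ℝ V := fun x => b (eA.symm x)
  have himg : img (im a) φ = im b := by
    ext β
    constructor
    · intro h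
      obtain ⟨x, -, rfl⟩ := Finset.mem_image.1 h
      exact mem_im b _
    · intro h
      obtain ⟨e, -, rfl⟩ := Finset.mem_image.1 h
      exact Finset.mem_image.2 ⟨eA e, Finset.mem_univ _, by simp [φ]⟩
  have hmatch : IsMatching (im a) φ := by
    refine ⟨fun x y h => eA.symm.injective (hb.injective h), by rw [himg]; exact hB,
      by rw [himg]; exact hirrB, ?_, ?_⟩
    · intro s
      have h1 : LinearIndepOn ℝ φ s ↔ LinearIndepOn ℝ b (eA.symm '' s) := by
        rw [← linearIndepOn_equiv eA.symm]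
        rfl
      have h2 : LinearIndepOn ℝ (fun x : im a => (x : Dual ℝ V)) s ↔
          LinearIndepOn ℝ a (eA.symm '' s) := by
        rw [← linearIndepOn_equiv eA.symm]
        have : a ∘ eA.symm = fun x : im a => (x : Dual ℝ V) := by
          funext x; exact heA' x
        rw [this]
      rw [h1, h2]
      exact hmat _
    · intro P hP h3
      rw [himg]
      let F : Set E := {e | a e ∈ P}
      have hFim : φ '' {x : im a | (x : Dual ℝ V) ∈ P} = b '' F := by
        ext β
        constructor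
        · rintro ⟨x, hx, rfl⟩
          exact ⟨eA.symm x, by simpa [F, heA'] using hx, rfl⟩
        · rintro ⟨e, he, rfl⟩
          exact ⟨eA e, he, by simp [φ]⟩
      rw [hFim]
      have haF : a '' F = ((inter (im a) P : Finset (Dual ℝ V)) : Set (Dual ℝ V)) := by
        ext β
        simp only [Set.mem_image, Finset.mem_coe, mem_inter]
        constructor
        · rintro ⟨e, he, rfl⟩; exact ⟨mem_im a e, he⟩
        · rintro ⟨h1, h2⟩
          obtain ⟨e, -, rfl⟩ := Finset.mem_image.1 h1
          exact ⟨e, h2, rfl⟩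
      have hcard : F.ncard = (inter (im a) P).card := by
        rw [← Set.ncard_image_of_injective F ha.injective, haF, Set.ncard_coe_finset]
      obtain ⟨x, hx, y, hy, z, hz, hxy, hxz, hyz⟩ := Finset.two_lt_card.1 h3
      have hspan : span ℝ (a '' F) = P := by
        have : FiniteDimensional ℝ P := FiniteDimensional.of_finrank_pos (by omega)
        have hle : span ℝ (a '' F) ≤ P := by
          rw [span_le]
          rintro _ ⟨e, he, rfl⟩
          exact he
        refine Submodule.eq_of_le_of_finrank_le hle ?_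
        have hxyI : Ind x y := ind_of_veeSystem hA (f := val (im a)) Subtype.val_injective
          (fun i => i.2) ⟨x, (mem_inter.1 hx).1⟩ ⟨y, (mem_inter.1 hy).1⟩
          (fun h => hxy (congrArg Subtype.val h))
        rw [hP, ← fr2 hxyI]
        refine Submodule.finrank_mono (span_mono ?_)
        rw [haF]
        intro w hw
        rcases hw with rfl | rfl
        · exact hx
        · exact hy
      have hflat : IsFlat a F := by
        refine ⟨by rw [hspan, hP], fun e he => ?_⟩
        rw [hspan] at he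
        exact he
      have hrank : finrank ℝ (span ℝ (b '' F)) = 2 := by
        rw [← finrank_same hmat, hspan, hP]
      obtain ⟨e, -, hex⟩ := Finset.mem_image.1 (mem_inter.1 hx).1
      have heF : e ∈ F := by
        show a e ∈ P
        rw [hex]; exact (mem_inter.1 hx).2
      have hkey := hnu F hflat (by omega) e heF
      have hbcard : 2 < (inter (im b) (span ℝ (b '' F))).card := by
        have hsub : b '' F ⊆ ((inter (im b) (span ℝ (b '' F)) : Finset (Dual ℝ V)) :
            Set (Dual ℝ V)) := by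
          rintro _ ⟨g, hg, rfl⟩
          exact mem_inter.2 ⟨mem_im b g, subset_span ⟨g, hg, rfl⟩⟩
        have := Set.ncard_le_ncard hsub (Finset.finite_toSet _)
        rw [Set.ncard_image_of_injective F hb.injective, Set.ncard_coe_finset] at this
        omega
      rw [nu_eq_nuAt hB hrank hbcard (α := b e)
        (mem_inter.2 ⟨mem_im b e, subset_span ⟨e, heF, rfl⟩⟩), hkey, hspan,
        nu_eq_nuAt hA hP h3 (α := a e) (by rw [hex]; exact hx)]
  obtain ⟨g, hg⟩ := hrig φ hmatch (by
    intro x i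
    have := hclose (eA.symm x) (B i) (Finset.mem_image_of_mem _ (Finset.mem_univ i))
    rw [heA'] at this
    exact this)
  refine ⟨g, fun e => ?_⟩
  have := hg (eA e)
  simp only [φ, Equiv.symm_apply_apply] at this
  rw [this]
  rfl

end

end Pool.Agent.R93.Vee44
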