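import Mathlib
import Pool.Agent.R93.Vee44

/-! The negative part: dimension two and collinear covectors. -/

namespace Pool.Agent.R93.Vee44

open Module Submodule Pool.Agent.TH792.Vee Pool.Agent.TH792.VeeLink
open scoped Topology

noncomputable section

open scoped Classical

variable {V : Type*} [AddCommGroup V] [Module ℝ V] {E : Type*} [Fintype E]

/-! ### Dimension at most one -/

theorem determined_of_le_one [FiniteDimensional ℝ V] {a : E → Dual ℝ V} (ha : IsLabelled a)
    (hn : finrank ℝ V ≤ 1) (hind : ∀ e f, e ≠ f → LinearIndependent ℝ ![a e, a f]) :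
    LocallyDetermined a := by
  have hsub : ∀ e f : E, e = f := by
    intro e f
    by_contra hef
    have := (hind e f hef).fintype_card_le_finrank
    rw [Fintype.card_fin, Subspace.dual_finrank_eq] at this
    omega
  refine ⟨∅, 1, one_pos, ?_⟩
  intro b hb _ _ _
  by_cases hE : Nonempty E
  · obtain ⟨e⟩ := hE
    have h1 : span ℝ {a e} = ⊤ := by
      rw [← ha.span_eq_top]
      congr 1
      ext β
      constructor
      · intro h; rw [Set.mem_singleton_iff] at h; rw [h]; exact ⟨e, rfl⟩
      · rintro ⟨f, rfl⟩; rw [hsub f e]; rfl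
    have h2 : b e ∈ span ℝ {a e} := by rw [h1]; trivial
    obtain ⟨c, hc⟩ := mem_span_singleton.1 h2
    have hc0 : c ≠ 0 := by
      rintro rfl
      rw [zero_smul] at hc
      exact hb.ne_zero e hc.symm
    refine ⟨LinearEquiv.smulOfNeZero ℝ (Dual ℝ V) c hc0, fun f => ?_⟩
    rw [hsub f e, ← hc]
    rfl
  · exact ⟨LinearEquiv.refl ℝ _, fun e => absurd ⟨e⟩ hE⟩

/-! ### Scaling -/

lemma same_of_scale {a b : E → Dual ℝ V} {s : E → ℝ} (hs : ∀ e, s e ≠ 0)
    (hb : ∀ e, b e = s e • a e) : SameMatroid a b := by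
  intro S
  have key : ∀ (a b : E → Dual ℝ V) (s : E → ℝ), (∀ e, s e ≠ 0) → (∀ e, b e = s e • a e) →
      LinearIndepOn ℝ a S → LinearIndepOn ℝ b S := by
    intro a b s hs hb h
    have := LinearIndependent.units_smul (v := fun x : S => a x) h
      (fun x : S => Units.mk0 (s x) (hs x))
    have e : (fun x : S => Units.mk0 (s x) (hs x)) • (fun x : S => a x) =
        fun x : S => b x := by
      funext x
      rw [Pi.smul_apply', hb]
      rfl
    rw [e] at this
    exact this
  refine ⟨key b a (fun e => (s e)⁻¹) (fun e => inv_ne_zero (hs e)) (fun e => ?_),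
    key a b s hs hb⟩
  rw [hb, smul_smul, inv_mul_cancel₀ (hs e), one_smul]

lemma mem_of_scale {a b : E → Dual ℝ V} {s : E → ℝ} (hs : ∀ e, s e ≠ 0)
    (hb : ∀ e, b e = s e • a e) (P : Submodule ℝ (Dual ℝ V)) (e : E) : b e ∈ P ↔ a e ∈ P := by
  rw [hb, P.smul_mem_iff (hs e)]

lemma span_of_scale {a b : E → Dual ℝ V} {s : E → ℝ} (hs : ∀ e, s e ≠ 0)
    (hb : ∀ e, b e = s e • a e) (S : Set E) : span ℝ (b '' S) = span ℝ (a '' S) := by
  apply le_antisymm
  · rw [span_le]
    rintro _ ⟨e, he, rfl⟩
    rw [SetLike.mem_coe, mem_of_scale hs hb]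
    exact subset_span ⟨e, he, rfl⟩
  · rw [span_le]
    rintro _ ⟨e, he, rfl⟩
    rw [SetLike.mem_coe, ← mem_of_scale hs hb]
    exact subset_span ⟨e, he, rfl⟩

/-! ### Dimension two -/

lemma op_top [FiniteDimensional ℝ V] {b : E → Dual ℝ V} (hspan : span ℝ (Set.range b) = ⊤)
    (v : V) : op (im b) ⊤ v = v := by
  obtain ⟨T, hT, hform⟩ := exists_veeE (im b) (by rw [coe_im]; exact hspan)
  have h1 : inter (im b) ⊤ = im b := by
    ext β; simp [mem_inter]
  have h2 : ∑ β ∈ im b, β v • β = T.symm v := by
    ext w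
    have := hform (T.symm v) w
    rw [LinearEquiv.apply_symm_apply, form] at this
    rw [← this, LinearMap.sum_apply]
    rfl
  rw [op, h1]
  have h3 : ∑ β ∈ im b, β v • vee (im b) β = T (∑ β ∈ im b, β v • β) := by
    rw [map_sum]
    refine Finset.sum_congr rfl fun β _ => ?_
    rw [hT, map_smul]
  rw [h3, h2, LinearEquiv.apply_symm_apply]

lemma eq_top_of_two [FiniteDimensional ℝ V] (hn : finrank ℝ V = 2)
    {P : Submodule ℝ (Dual ℝ V)} (hP : finrank ℝ P = 2) : P = ⊤ := by
  apply Submodule.eq_top_of_finrank_eq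
  rw [hP, Subspace.dual_finrank_eq, hn]

theorem isLabelled_of_two [FiniteDimensional ℝ V] (hn : finrank ℝ V = 2) {b : E → Dual ℝ V}
    (hinj : Function.Injective b) (hne : ∀ e, b e ≠ 0) (hspan : span ℝ (Set.range b) = ⊤) :
    IsLabelled b := by
  refine ⟨hinj, hne, hspan, fun P hP α _ => ⟨1, ?_⟩⟩
  have hP' := eq_top_of_two hn hP
  subst hP'
  rw [one_smul]
  exact op_top hspan _

lemma vee_ne_zero [FiniteDimensional ℝ V] {A : Finset (Dual ℝ V)}
    (hA : span ℝ (A : Set (Dual ℝ V)) = ⊤) {α : Dual ℝ V} (hα : α ≠ 0) : vee A α ≠ 0 := by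
  obtain ⟨T, hT, -⟩ := exists_veeE A hA
  rw [hT]
  intro h0
  exact hα (T.map_eq_zero_iff.1 h0)

lemma nuAt_top [FiniteDimensional ℝ V] {b : E → Dual ℝ V} (hspan : span ℝ (Set.range b) = ⊤)
    {α : Dual ℝ V} (hα : α ≠ 0) : nuAt (im b) ⊤ α = 1 := by
  rw [nuAt_def, op_top hspan]
  have hne : vee (im b) α ≠ 0 := vee_ne_zero (by rw [coe_im]; exact hspan) hα
  have h1 : vee (im b) α = (Classical.epsilon fun c : ℝ => vee (im b) α = c • vee (im b) α) •
      vee (im b) α :=
    Classical.epsilon_spec (p := fun c : ℝ => vee (im b) α = c • vee (im b) α)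
      ⟨1, (one_smul _ _).symm⟩
  have h2 : (1 : ℝ) • vee (im b) α = (Classical.epsilon fun c : ℝ =>
      vee (im b) α = c • vee (im b) α) • vee (im b) α := by
    rw [one_smul]; exact h1
  exact (smul_left_injective ℝ hne h2).symm

lemma mem_span_rest [FiniteDimensional ℝ V] {a : E → Dual ℝ V} (ha : IsLabelled a)
    (hc : Connected a) (hn : 2 ≤ finrank ℝ V) (e : E) : a e ∈ span ℝ (a '' {e}ᶜ) := by
  have hne : ({e}ᶜ : Set E).Nonempty := by
    by_contra hemp
    rw [Set.not_nonempty_iff_eq_empty, Set.compl_empty_iff] at hemp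
    have h1 : Set.range a = {a e} := by
      rw [← Set.image_univ, ← hemp, Set.image_singleton]
    have h2 := ha.span_eq_top
    rw [h1] at h2
    have h3 := finrank_span_singleton (K := ℝ) (ha.ne_zero e)
    rw [h2, finrank_top, Subspace.dual_finrank_eq] at h3
    omega
  have h := hc {e} (Set.singleton_nonempty e) hne
  rw [Submodule.disjoint_def] at h
  push Not at h
  obtain ⟨z, hz1, hz2, hz0⟩ := h
  rw [Set.image_singleton] at hz1
  obtain ⟨c, rfl⟩ := mem_span_singleton.1 hz1
  have hc0 : c ≠ 0 := by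
    rintro rfl
    exact hz0 (zero_smul _ _)
  exact (Submodule.smul_mem_iff _ hc0).1 hz2

theorem not_determined_two [FiniteDimensional ℝ V] {a : E → Dual ℝ V} (ha : IsLabelled a)
    (hc : Connected a) (hn : finrank ℝ V = 2) : ¬ LocallyDetermined a := by
  rintro ⟨T, ε, hε, h⟩
  have hE : Nonempty E := by
    by_contra hemp
    rw [not_nonempty_iff] at hemp
    have h1 := ha.span_eq_top
    rw [Set.range_eq_empty, span_empty] at h1
    have h2 : finrank ℝ (Dual ℝ V) = 0 := by
      rw [← finrank_top ℝ (Dual ℝ V), ← h1, finrank_bot]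
    rw [Subspace.dual_finrank_eq] at h2
    omega
  obtain ⟨e₀⟩ := hE
  -- a small rescaling of `a e₀`
  have hx : ContinuousAt (fun t : ℝ => 1 + t) 0 := by fun_prop
  have hev : ∀ᶠ t : ℝ in 𝓝[>] 0, 0 < t ∧ (∀ g, g ≠ e₀ → (1 + t) • a e₀ ≠ a g) ∧
      ∀ v ∈ T, |(1 + t) * a e₀ v - a e₀ v| < ε := by
    refine Filter.Eventually.and self_mem_nhdsWithin (Filter.Eventually.filter_mono
      nhdsWithin_le_nhds (Filter.Eventually.and ?_ ?_))
    · rw [Filter.eventually_all]
      intro g
      by_cases hg : g = e₀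
      · exact Filter.Eventually.of_forall fun t h' => absurd hg h'
      obtain ⟨v, hv⟩ : ∃ v, a e₀ v ≠ a g v := by
        by_contra hcon
        push Not at hcon
        exact hg (ha.injective (LinearMap.ext hcon)).symm
      have hcv : ContinuousAt (fun t : ℝ => (1 + t) * a e₀ v) 0 := by fun_prop
      have := hcv.eventually_ne (y := a g v) (by simpa using hv)
      filter_upwards [this] with t ht _ heq
      apply ht
      have := congrArg (fun z : Dual ℝ V => z v) heq
      simpa using this
    · rw [Filter.eventually_all_finset]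
      intro v _
      have hcv : ContinuousAt (fun t : ℝ => |(1 + t) * a e₀ v - a e₀ v|) 0 := by fun_prop
      exact hcv.eventually_lt_const (by simpa using hε)
  obtain ⟨t, ht0, hinj, hclose⟩ := hev.exists
  let s : E → ℝ := fun e => if e = e₀ then 1 + t else 1
  have hs : ∀ e, s e ≠ 0 := by
    intro e
    simp only [s]
    split_ifs
    · linarith
    · exact one_ne_zero
  let b : E → Dual ℝ V := fun e => s e • a e
  have hb0 : b e₀ = (1 + t) • a e₀ := by simp [b, s]
  have hb : ∀ e, e ≠ e₀ → b e = a e := by intro e he; simp [b, s, he]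
  have hbinj : Function.Injective b := by
    intro e f hef
    by_cases he : e = e₀
    · subst he
      by_cases hf : f = e
      · exact hf.symm
      · rw [hb0, hb f hf] at hef
        exact absurd hef (hinj f hf)
    · by_cases hf : f = e₀
      · subst hf
        rw [hb0, hb e he] at hef
        exact absurd hef.symm (hinj e he)
      · rw [hb e he, hb f hf] at hef
        exact ha.injective hef
  have hbspan : span ℝ (Set.range b) = ⊤ := by
    rw [← Set.image_univ, span_of_scale hs (fun e => rfl), Set.image_univ, ha.span_eq_top]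
  have hbne : ∀ e, b e ≠ 0 := fun e => smul_ne_zero (hs e) (ha.ne_zero e)
  have hbl := isLabelled_of_two hn hbinj hbne hbspan
  obtain ⟨g, hg⟩ := h b hbl (same_of_scale hs fun e => rfl) (by
    intro F hF _ e _
    have h1 := eq_top_of_two hn hF.1
    rw [span_of_scale hs (fun e => rfl) F, h1, nuAt_top hbspan (hbne e),
      nuAt_top ha.span_eq_top (ha.ne_zero e)]) (by
    intro e v hv
    by_cases he : e = e₀
    · subst he
      rw [hb0]
      exact hclose v hv
    · rw [hb e he]; simpa using hε)
  have hmem := mem_span_rest ha hc (by omega) e₀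
  have hfix : ∀ z ∈ span ℝ (a '' {e₀}ᶜ), g z = z := by
    intro z hz
    have : span ℝ (a '' {e₀}ᶜ) ≤ LinearMap.eqLocus (g : Dual ℝ V →ₗ[ℝ] Dual ℝ V)
        LinearMap.id := by
      rw [span_le]
      rintro _ ⟨f, hf, rfl⟩
      have := hg f
      rw [hb f hf] at this
      exact this.symm
    exact this hz
  have h1 := hg e₀
  rw [hfix _ hmem, hb0, add_smul, one_smul, add_eq_left] at h1
  rcases smul_eq_zero.1 h1 with h2 | h2
  · exact (ne_of_gt ht0) h2
  · exact ha.ne_zero e₀ h2

/-! ### Collinear covectors -/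

lemma sum_rot {M : Type*} [AddCommGroup M] [Module ℝ M] {a b : E → Dual ℝ V} {e f : E}
    (hef : e ≠ f) {c x y : ℝ} (hc : a f = c • a e) (hc0 : c ≠ 0) (hx : x ≠ 0) (hy : y ≠ 0)
    (hxy : x ^ 2 + y ^ 2 = 1 + c ^ 2) (hbe : b e = x • a e) (hbf : b f = y • a e)
    (hb : ∀ g, g ≠ e → g ≠ f → b g = a g) (Q : Dual ℝ V → M)
    (hQ : ∀ (r : ℝ) z, r ≠ 0 → Q (r • z) = r ^ 2 • Q z) : ∑ g, Q (b g) = ∑ g, Q (a g) := by
  rw [← sub_eq_zero, ← Finset.sum_sub_distrib,
    Finset.sum_eq_add_of_mem e f (Finset.mem_univ e) (Finset.mem_univ f) hef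
      (fun g _ hg => by rw [hb g hg.1 hg.2, sub_self]), hbe, hbf, hc, hQ x _ hx, hQ y _ hy,
    hQ c _ hc0]
  have : x ^ 2 • Q (a e) - Q (a e) + (y ^ 2 • Q (a e) - c ^ 2 • Q (a e)) =
      (x ^ 2 + y ^ 2 - (1 + c ^ 2)) • Q (a e) := by module
  rw [this, hxy, sub_self, zero_smul]

theorem not_determined_coll [FiniteDimensional ℝ V] {a : E → Dual ℝ V} (ha : IsLabelled a)
    {e f : E} (hef : e ≠ f) (hdep : ¬ LinearIndependent ℝ ![a e, a f]) :
    ¬ LocallyDetermined a := by
  rintro ⟨T, ε, hε, h⟩
  obtain ⟨c, hc⟩ : ∃ c : ℝ, a f = c • a e := by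
    by_contra hcon
    push Not at hcon
    apply hdep
    rw [LinearIndependent.pair_iff]
    intro s t hst
    have ht : t = 0 := by
      by_contra ht
      apply hcon (-(s / t))
      have h1 : t • a f = -(s • a e) := by
        rw [eq_neg_iff_add_eq_zero, add_comm]; exact hst
      calc a f = t⁻¹ • (t • a f) := by rw [smul_smul, inv_mul_cancel₀ ht, one_smul]
        _ = -(s / t) • a e := by rw [h1, smul_neg, smul_smul, ← neg_smul]; congr 1; ring
    subst ht
    rw [zero_smul, add_zero] at hst
    exact ⟨(smul_eq_zero.1 hst).resolve_right (ha.ne_zero e), rfl⟩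
  have hc0 : c ≠ 0 := by
    rintro rfl
    rw [zero_smul] at hc
    exact ha.ne_zero f hc
  have hc1 : c ≠ 1 := by
    rintro rfl
    rw [one_smul] at hc
    exact hef (ha.injective hc).symm
  let x : ℝ → ℝ := fun t => Real.cos t - c * Real.sin t
  let y : ℝ → ℝ := fun t => Real.sin t + c * Real.cos t
  have hx : ContinuousAt x 0 := by fun_prop
  have hy : ContinuousAt y 0 := by fun_prop
  have hx0 : x 0 = 1 := by simp [x]
  have hy0 : y 0 = c := by simp [y]
  have hsepx : ∀ g, g ≠ e → g ≠ f → ∀ᶠ t : ℝ in 𝓝 0, x t • a e ≠ a g := by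
    intro g hge hgf
    obtain ⟨v, hv⟩ : ∃ v, a e v ≠ a g v := by
      by_contra hcon
      push Not at hcon
      exact hge (ha.injective (LinearMap.ext hcon)).symm
    have hcv : ContinuousAt (fun t : ℝ => x t * a e v) 0 := by fun_prop
    have := hcv.eventually_ne (y := a g v) (by simpa [hx0] using hv)
    filter_upwards [this] with t ht heq
    apply ht
    have := congrArg (fun z : Dual ℝ V => z v) heq
    simpa using this
  have hsepy : ∀ g, g ≠ e → g ≠ f → ∀ᶠ t : ℝ in 𝓝 0, y t • a e ≠ a g := by
    intro g hge hgf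
    obtain ⟨v, hv⟩ : ∃ v, a f v ≠ a g v := by
      by_contra hcon
      push Not at hcon
      exact hgf (ha.injective (LinearMap.ext hcon)).symm
    have hcv : ContinuousAt (fun t : ℝ => y t * a e v) 0 := by fun_prop
    have := hcv.eventually_ne (y := a g v) (by
      rw [hc] at hv
      simpa [hy0] using hv)
    filter_upwards [this] with t ht heq
    apply ht
    have := congrArg (fun z : Dual ℝ V => z v) heq
    simpa using this
  have hev : ∀ᶠ t : ℝ in 𝓝[>] 0, (0 < t ∧ t < Real.pi) ∧ (x t ≠ 0 ∧ y t ≠ 0 ∧ x t - y t ≠ 0) ∧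
      (∀ g, g ≠ e → g ≠ f → x t • a e ≠ a g ∧ y t • a e ≠ a g) ∧
      (∀ v ∈ T, |x t * a e v - a e v| < ε ∧ |y t * a e v - a f v| < ε) := by
    refine Filter.Eventually.and (Filter.Eventually.and self_mem_nhdsWithin
      (Filter.Eventually.filter_mono nhdsWithin_le_nhds (eventually_lt_nhds Real.pi_pos)))
      (Filter.Eventually.filter_mono nhdsWithin_le_nhds (Filter.Eventually.and ?_
        (Filter.Eventually.and ?_ ?_)))
    · refine (hx.eventually_ne (by rw [hx0]; exact one_ne_zero)).and
        ((hy.eventually_ne (by rw [hy0]; exact hc0)).and ?_)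
      have : ContinuousAt (fun t => x t - y t) 0 := hx.sub hy
      exact this.eventually_ne (by
        show x 0 - y 0 ≠ 0
        rw [hx0, hy0]
        exact sub_ne_zero.2 hc1.symm)
    · rw [Filter.eventually_all]
      intro g
      by_cases hge : g = e
      · exact Filter.Eventually.of_forall fun t h' => absurd hge h'
      by_cases hgf : g = f
      · exact Filter.Eventually.of_forall fun t _ h' => absurd hgf h'
      filter_upwards [hsepx g hge hgf, hsepy g hge hgf] with t h1 h2 _ _
      exact ⟨h1, h2⟩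
    · rw [Filter.eventually_all_finset]
      intro v _
      have h1 : ContinuousAt (fun t : ℝ => |x t * a e v - a e v|) 0 := by fun_prop
      have h2 : ContinuousAt (fun t : ℝ => |y t * a e v - a f v|) 0 := by fun_prop
      refine (h1.eventually_lt_const ?_).and (h2.eventually_lt_const ?_)
      · simpa [hx0] using hε
      · show |y 0 * a e v - a f v| < ε
        rw [hy0, hc]
        simpa using hε
  obtain ⟨t, ⟨ht0, htpi⟩, ⟨hxt, hyt, hxyt⟩, hsep, hclose⟩ := hev.exists
  have hsum : x t ^ 2 + y t ^ 2 = 1 + c ^ 2 := by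
    simp only [x, y]
    linear_combination (1 + c ^ 2) * Real.sin_sq_add_cos_sq t
  let s : E → ℝ := fun g => if g = e then x t else if g = f then y t / c else 1
  have hs : ∀ g, s g ≠ 0 := by
    intro g
    simp only [s]
    split_ifs
    · exact hxt
    · exact div_ne_zero hyt hc0
    · exact one_ne_zero
  let b : E → Dual ℝ V := fun g => s g • a g
  have hbs : ∀ g, b g = s g • a g := fun g => rfl
  have hbe : b e = x t • a e := by simp [b, s]
  have hbf : b f = y t • a e := by
    rw [hbs, hc, smul_smul]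
    congr 1
    simp only [s, if_neg hef.symm, if_true]
    field_simp
  have hb : ∀ g, g ≠ e → g ≠ f → b g = a g := by
    intro g hge hgf; simp [b, s, hge, hgf]
  have hbefne : b e ≠ b f := by
    rw [hbe, hbf]
    intro heq
    apply hxyt
    have h0 : (x t - y t) • a e = 0 := by
      ext v
      have := LinearMap.congr_fun heq v
      simp only [LinearMap.smul_apply, smul_eq_mul, LinearMap.zero_apply] at this ⊢
      linear_combination this
    exact (smul_eq_zero.1 h0).resolve_right (ha.ne_zero e)
  have hbinj : Function.Injective b := by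
    intro g k hgk
    by_cases hge : g = e
    · by_cases hke : k = e
      · rw [hge, hke]
      by_cases hkf : k = f
      · rw [hge, hkf] at hgk; exact absurd hgk hbefne
      · rw [hge, hbe, hb k hke hkf] at hgk
        exact absurd hgk (hsep k hke hkf).1
    by_cases hgf : g = f
    · by_cases hkf : k = f
      · rw [hgf, hkf]
      by_cases hke : k = e
      · rw [hgf, hke] at hgk; exact absurd hgk.symm hbefne
      · rw [hgf, hbf, hb k hke hkf] at hgk
        exact absurd hgk (hsep k hke hkf).2
    by_cases hke : k = e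
    · rw [hke, hbe, hb g hge hgf] at hgk
      exact absurd hgk.symm (hsep g hge hgf).1
    by_cases hkf : k = f
    · rw [hkf, hbf, hb g hge hgf] at hgk
      exact absurd hgk.symm (hsep g hge hgf).2
    rw [hb g hge hgf, hb k hke hkf] at hgk
    exact ha.injective hgk
  have hbspan : span ℝ (Set.range b) = ⊤ := by
    rw [← Set.image_univ, span_of_scale hs hbs, Set.image_univ, ha.span_eq_top]
  have hbne : ∀ g, b g ≠ 0 := fun g => smul_ne_zero (hs g) (ha.ne_zero g)
  -- equal forms
  have hformeq : form (im b) = form (im a) := by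
    funext u v
    rw [form, form, sum_im hbinj, sum_im ha.injective]
    exact sum_rot (M := ℝ) hef hc hc0 hxt hyt hsum hbe hbf hb (fun z => z u * z v) (by
      intro r z _
      simp only [LinearMap.smul_apply, smul_eq_mul]; ring)
  have hveeeq : vee (im b) = vee (im a) := by
    funext γ
    rw [vee, vee, hformeq]
  obtain ⟨T', hT', -⟩ := exists_veeE (im a) (by rw [coe_im]; exact ha.span_eq_top)
  have hopeq : ∀ P v, op (im b) P v = op (im a) P v := by
    intro P v
    rw [op, op, sum_inter hbinj, sum_inter ha.injective, hveeeq]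
    refine sum_rot hef hc hc0 hxt hyt hsum hbe hbf hb
      (fun z => if z ∈ P then z v • vee (im a) z else 0) ?_
    intro r z hr
    simp only [P.smul_mem_iff hr]
    split_ifs
    · rw [hT', hT', map_smul, LinearMap.smul_apply, smul_eq_mul, smul_smul, smul_smul]
      congr 1; ring
    · rw [smul_zero]
  have hveeb : ∀ g, vee (im b) (b g) = s g • vee (im a) (a g) := by
    intro g
    rw [hveeeq, hT', hT', hbs, map_smul]
  have hbl : IsLabelled b := by
    refine ⟨hbinj, hbne, hbspan, ?_⟩
    intro P hP α hα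
    obtain ⟨hα1, hα2⟩ := mem_inter.1 hα
    obtain ⟨g, -, rfl⟩ := Finset.mem_image.1 hα1
    rw [mem_of_scale hs hbs] at hα2
    obtain ⟨l, hl⟩ := ha.vee_cond P hP (a g) (mem_inter.2 ⟨mem_im a g, hα2⟩)
    refine ⟨l, ?_⟩
    show op (im b) P (vee (im b) (b g)) = _
    rw [hopeq, hveeb, op_smul]
    have hl' : op (im a) P (vee (im a) (a g)) = l • vee (im a) (a g) := hl
    rw [hl', smul_comm]
  obtain ⟨g, hg⟩ := h b hbl (same_of_scale hs hbs) (by
    intro F hF _ k _
    rw [span_of_scale hs hbs F, nuAt_def, nuAt_def]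
    congr 1
    funext d
    apply propext
    rw [hopeq, hveeb, op_smul, smul_comm d (s k)]
    exact smul_right_inj (hs k)) (by
    intro k v hv
    by_cases hke : k = e
    · rw [hke, hbe]; exact (hclose v hv).1
    by_cases hkf : k = f
    · rw [hkf, hbf]; exact (hclose v hv).2
    rw [hb k hke hkf]; simpa using hε)
  have h1 := hg e
  have h2 := hg f
  rw [hc, map_smul, ← h1, hbe, hbf, smul_smul] at h2
  have h3 : (y t - c * x t) • a e = 0 := by
    ext v
    have := LinearMap.congr_fun h2 v
    simp only [LinearMap.smul_apply, smul_eq_mul, LinearMap.zero_apply] at this ⊢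
    linear_combination this
  have h4 := (smul_eq_zero.1 h3).resolve_right (ha.ne_zero e)
  have h5 : (1 + c ^ 2) * Real.sin t = 0 := by
    simp only [x, y] at h4
    linear_combination h4
  have h6 := Real.sin_pos_of_pos_of_lt_pi ht0 htpi
  have h7 : 0 < (1 + c ^ 2) * Real.sin t := by positivity
  linarith

/-- The full classification. -/
theorem classification [FiniteDimensional ℝ V] {a : E → Dual ℝ V} (ha : IsLabelled a)
    (hc : Connected a) : LocallyDetermined a ↔
      (finrank ℝ V ≠ 2 ∧ ∀ e f, e ≠ f → LinearIndependent ℝ ![a e, a f]) := by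
  constructor
  · intro h
    refine ⟨fun hn => not_determined_two ha hc hn h, fun e f hef => ?_⟩
    by_contra hdep
    exact not_determined_coll ha hef hdep h
  · rintro ⟨hn, hind⟩
    rcases Nat.lt_or_ge (finrank ℝ V) 3 with h | h
    · exact determined_of_le_one ha (by omega) hind
    · exact determined_of_three ha hc h hind

end

end Pool.Agent.R93.Vee44
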