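import Mathlib

set_option autoImplicit false

/-!
Verified search: every sequence of nine elements of `F_2^4 × Z_3` has a nonempty zero-sum
subsequence.
-/

namespace Pool.Agent.R93.ZS

/-- the vector space `F_2^4` -/
abbrev V : Type := Fin 4 → ZMod 2

/-- the group `F_2^4 × Z_3` -/
abbrev G : Type := V × ZMod 3

/-- numbering of the group -/
def dec (k : ℕ) : G := (fun i => if k.testBit i then 1 else 0, ((k / 16 : ℕ) : ZMod 3))

/-- swap blocks -/
def sw (m s x : ℕ) : ℕ := Nat.lor (Nat.shiftLeft (Nat.land x m) s) (Nat.land (Nat.shiftRight x s) m)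

/-- rotate blocks by one -/
def rot (x : ℕ) : ℕ :=
  Nat.lor (Nat.shiftLeft (Nat.land x 4294967295) 16) (Nat.land (Nat.shiftRight x 32) 65535)

/-- bit test -/
def tb (x k : ℕ) : Bool := Nat.beq (Nat.land (Nat.shiftRight x k) 1) 1

/-- conditional application -/
def cond' (b : Bool) (f : ℕ → ℕ) (x : ℕ) : ℕ := bif b then f x else x

/-- rotation by `n` -/
def rots : ℕ → ℕ → ℕ
  | 0, x => x
  | n + 1, x => rot (rots n x)

/-- translation by `v + 16 w` -/
def tr (g x : ℕ) : ℕ :=
  rots (Nat.shiftRight g 4) (cond' (tb g 3) (sw 0x00FF00FF00FF 8) (cond' (tb g 2) (sw 0x0F0F0F0F0F0F 4)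
    (cond' (tb g 1) (sw 0x333333333333 2) (cond' (tb g 0) (sw 0x555555555555 1) x))))

/-- the number of the negative -/
def neg (g : ℕ) : ℕ := match Nat.shiftRight g 4 with
  | 0 => g
  | 1 => g + 16
  | _ => g - 16

def allT (f : ℕ → List ℕ → Bool) : List ℕ → Bool
  | [] => true
  | e :: es => f e (e :: es) && allT f es

def search : ℕ → ℕ → List ℕ → Bool
  | 0 => fun _ _ => false
  | left + 1 => fun reach l =>
    allT (fun e t => tb reach (neg e) || search left (Nat.lor reach (tr e reach)) t) l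

def els : List ℕ := List.range 48

def add1 (g r : ℕ) : ℕ := Nat.lor r (tr g r)

def init (w0 w1 w2 w3 : ℕ) : ℕ :=
  add1 (8 + 16 * w3) (add1 (4 + 16 * w2) (add1 (2 + 16 * w1) (add1 (1 + 16 * w0) 1)))

/-- all sorted weight patterns -/
theorem tall : ∀ w3 < 3, ∀ w2 < w3 + 1, ∀ w1 < w2 + 1, ∀ w0 < w1 + 1,
    search 5 (init w0 w1 w2 w3) els = true := by decide +kernel


end Pool.Agent.R93.ZS
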