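import Pool.Agent.R93.ZS0

set_option autoImplicit false

namespace Pool.Agent.R93.ZS

lemma tb_eq (x k : ℕ) : tb x k = x.testBit k := by
  unfold tb Nat.testBit
  have h : ∀ a : ℕ, Nat.land a 1 = a % 2 := fun a => Nat.and_one_is_mod a
  have h2 : (1 &&& x >>> k) = (x >>> k) % 2 := by rw [Nat.land_comm]; exact Nat.and_one_is_mod _
  rw [h, h2]
  change Nat.beq ((x >>> k) % 2) 1 = _
  rcases Nat.mod_two_eq_zero_or_one (x >>> k) with h3 | h3 <;> rw [h3] <;> rfl

/-- `f` is translation by `a` on bit masks (one direction) -/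
def OKtr (f : ℕ → ℕ) (a : G) : Prop :=
  ∀ x k, k < 48 → (f x).testBit k = true → ∃ j, j < 48 ∧ x.testBit j = true ∧ dec k = dec j + a

lemma OKtr.id : OKtr (fun x => x) 0 := fun x k hk h => ⟨k, hk, h, by simp⟩

lemma OKtr.comp {f g : ℕ → ℕ} {a b : G} (hf : OKtr f a) (hg : OKtr g b) :
    OKtr (fun x => g (f x)) (a + b) := by
  intro x k hk h
  obtain ⟨j, hj, h1, h2⟩ := hg _ _ hk h
  obtain ⟨i, hi, h3, h4⟩ := hf _ _ hj h1
  exact ⟨i, hi, h3, by rw [h2, h4, add_assoc]⟩

lemma OKtr.cond {f : ℕ → ℕ} {a : G} (hf : OKtr f a) (b : Bool) :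
    OKtr (cond' b f) (bif b then a else 0) := by
  cases b
  · exact OKtr.id
  · exact hf

lemma OKtr.sw (m s : ℕ) (a : G)
    (h2 : ∀ k < 48, m.testBit k = true → k + s < 48 ∧ dec k = dec (k + s) + a)
    (h3 : ∀ k < 48, s ≤ k → m.testBit (k - s) = true → dec k = dec (k - s) + a) :
    OKtr (sw m s) a := by
  intro x k hk hx
  have h1 : (ZS.sw m s x).testBit k = ((decide (k ≥ s) && ((x.testBit (k - s)) && (m.testBit (k - s)))) ||
      (x.testBit (s + k) && m.testBit k)) := by
    unfold ZS.sw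
    change (((x &&& m) <<< s) ||| ((x >>> s) &&& m)).testBit k = _
    rw [Nat.testBit_or, Nat.testBit_shiftLeft, Nat.testBit_and, Nat.testBit_and,
      Nat.testBit_shiftRight]
  rw [h1] at hx
  rw [Bool.or_eq_true, Bool.and_eq_true, Bool.and_eq_true, Bool.and_eq_true, decide_eq_true_iff] at hx
  rcases hx with ⟨h4, h5, h6⟩ | ⟨h4, h5⟩
  · exact ⟨k - s, by omega, h5, h3 k hk h4 h6⟩
  · exact ⟨k + s, (h2 k hk h5).1, by rw [add_comm]; exact h4, (h2 k hk h5).2⟩

lemma ok0 : OKtr (sw 0x555555555555 1) (Pi.single 0 1, 0) := OKtr.sw _ _ _ (by decide +kernel) (by decide +kernel)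
lemma ok1 : OKtr (sw 0x333333333333 2) (Pi.single 1 1, 0) := OKtr.sw _ _ _ (by decide +kernel) (by decide +kernel)
lemma ok2 : OKtr (sw 0x0F0F0F0F0F0F 4) (Pi.single 2 1, 0) := OKtr.sw _ _ _ (by decide +kernel) (by decide +kernel)
lemma ok3 : OKtr (sw 0x00FF00FF00FF 8) (Pi.single 3 1, 0) := OKtr.sw _ _ _ (by decide +kernel) (by decide +kernel)

lemma ok_rot : OKtr rot (0, 1) := by
  intro x k hk hx
  have h1 : (rot x).testBit k = ((decide (k ≥ 16) && ((x.testBit (k - 16)) &&
      ((4294967295 : ℕ).testBit (k - 16)))) ||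
      (x.testBit (32 + k) && (65535 : ℕ).testBit k)) := by
    unfold rot
    change (((x &&& 4294967295) <<< 16) ||| ((x >>> 32) &&& 65535)).testBit k = _
    rw [Nat.testBit_or, Nat.testBit_shiftLeft, Nat.testBit_and, Nat.testBit_and,
      Nat.testBit_shiftRight]
  rw [h1] at hx
  rw [Bool.or_eq_true, Bool.and_eq_true, Bool.and_eq_true, Bool.and_eq_true, decide_eq_true_iff] at hx
  have h2 : ∀ k < 48, (65535 : ℕ).testBit k = true → k + 32 < 48 ∧ dec k = dec (k + 32) + (0, 1) := by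
    decide +kernel
  have h3 : ∀ k < 48, 16 ≤ k → (4294967295 : ℕ).testBit (k - 16) = true →
      dec k = dec (k - 16) + (0, 1) := by
    decide +kernel
  rcases hx with ⟨h4, h5, h6⟩ | ⟨h4, h5⟩
  · exact ⟨k - 16, by omega, h5, h3 k hk h4 h6⟩
  · exact ⟨k + 32, (h2 k hk h5).1, by rw [add_comm]; exact h4, (h2 k hk h5).2⟩

lemma ok_rots (n : ℕ) : OKtr (rots n) (n • ((0, 1) : G)) := by
  induction n with
  | zero => rw [zero_smul]; exact OKtr.id
  | succ n ih => rw [succ_nsmul]; exact ih.comp ok_rot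

lemma ok_tr (g : ℕ) (hg : g < 48) : OKtr (tr g) (dec g) := by
  have h := ((((ok0.cond (tb g 0)).comp (ok1.cond (tb g 1))).comp (ok2.cond (tb g 2))).comp
    (ok3.cond (tb g 3))).comp (ok_rots (Nat.shiftRight g 4))
  have h2 : ∀ g < 48, dec g = ((bif tb g 0 then ((Pi.single 0 1, 0) : G) else 0) +
      (bif tb g 1 then ((Pi.single 1 1, 0) : G) else 0) +
      (bif tb g 2 then ((Pi.single 2 1, 0) : G) else 0) +
      (bif tb g 3 then ((Pi.single 3 1, 0) : G) else 0)) + (Nat.shiftRight g 4) • ((0, 1) : G) := by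
    decide +kernel
  rw [h2 g hg]
  exact h

lemma neg_spec : ∀ g < 48, neg g < 48 ∧ dec (neg g) + dec g = 0 := by decide +kernel

/-- the mask `reach` only contains sums of sub-multisets of `S` -/
def Sound (reach : ℕ) (S : Multiset G) : Prop :=
  ∀ k < 48, reach.testBit k = true → ∃ T ≤ S, T.sum = dec k

lemma Sound.step {reach : ℕ} {S : Multiset G} (h : Sound reach S) (g : ℕ) (hg : g < 48) :
    Sound (add1 g reach) (dec g ::ₘ S) := by
  intro k hk hb
  unfold add1 at hb
  change (reach ||| tr g reach).testBit k = true at hb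
  rw [Nat.testBit_or, Bool.or_eq_true] at hb
  rcases hb with hb | hb
  · obtain ⟨T, hT, hs⟩ := h k hk hb
    exact ⟨T, hT.trans (Multiset.le_cons_self _ _), hs⟩
  · obtain ⟨j, hj, h1, h2⟩ := ok_tr g hg _ _ hk hb
    obtain ⟨T, hT, hs⟩ := h j hj h1
    refine ⟨dec g ::ₘ T, Multiset.cons_le_cons _ hT, ?_⟩
    rw [Multiset.sum_cons, hs, h2, add_comm]

lemma allT_spec (f : ℕ → List ℕ → Bool) (l : List ℕ) (h : allT f l = true) (M : Multiset ℕ)
    (hM : ∀ x ∈ M, x ∈ l) (hne : M ≠ 0) :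
    ∃ e ∈ M, ∃ t : List ℕ, f e t = true ∧ (∀ x ∈ M, x ∈ t) ∧ t <:+ l := by
  induction l with
  | nil =>
    exfalso
    apply hne
    exact Multiset.eq_zero_of_forall_notMem fun x hx => by simpa using hM x hx
  | cons e es ih =>
    rw [allT, Bool.and_eq_true] at h
    by_cases he : e ∈ M
    · exact ⟨e, he, e :: es, h.1, hM, List.suffix_refl _⟩
    · have h2 : ∀ x ∈ M, x ∈ es := by
        intro x hx
        rcases List.mem_cons.mp (hM x hx) with h3 | h3
        · exact absurd (h3 ▸ hx) he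
        · exact h3
      obtain ⟨e', he', t, h3, h4, h5⟩ := ih h.2 h2
      exact ⟨e', he', t, h3, h4, h5.trans (List.suffix_cons _ _)⟩

lemma search_spec (left : ℕ) : ∀ (reach : ℕ) (l : List ℕ), (∀ x ∈ l, x < 48) →
    search left reach l = true → ∀ (S : Multiset G), Sound reach S → ∀ M : Multiset ℕ,
    Multiset.card M = left → (∀ x ∈ M, x ∈ l) →
    ∃ T ≤ S + M.map dec, T ≠ 0 ∧ T.sum = 0 := by
  induction left with
  | zero => intro reach l _ h; simp [search] at h
  | succ left ih =>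
    intro reach l hl h S hS M hM hMl
    have hne : M ≠ 0 := by
      intro h0; rw [h0] at hM; simp at hM
    obtain ⟨e, he, t, h1, h2, h3⟩ := allT_spec _ l h M hMl hne
    have he48 : e < 48 := hl e (hMl e he)
    obtain ⟨M', rfl⟩ := Multiset.exists_cons_of_mem he
    rw [Bool.or_eq_true] at h1
    rcases h1 with h1 | h1
    · rw [tb_eq] at h1
      obtain ⟨h4, h5⟩ := neg_spec e he48
      obtain ⟨T, hT, hs⟩ := hS _ h4 h1
      refine ⟨dec e ::ₘ T, ?_, Multiset.cons_ne_zero, ?_⟩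
      · rw [Multiset.map_cons, Multiset.add_cons]
        exact Multiset.cons_le_cons _ (hT.trans (Multiset.le_add_right _ _))
      · rw [Multiset.sum_cons, hs, add_comm]; exact h5
    · rw [Multiset.card_cons, Nat.add_right_cancel_iff] at hM
      have h6 := ih _ t (fun x hx => hl x (h3.subset hx)) h1 (dec e ::ₘ S) (hS.step e he48) M' hM
        (fun x hx => h2 x (Multiset.mem_cons_of_mem hx))
      obtain ⟨T, hT, h7, h8⟩ := h6
      refine ⟨T, ?_, h7, h8⟩
      rw [Multiset.map_cons, Multiset.add_cons, ← Multiset.cons_add]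
      exact hT

lemma sound_one : Sound 1 0 := by
  intro k hk h
  have h2 : ∀ k < 48, (1 : ℕ).testBit k = true → dec k = 0 := by decide +kernel
  exact ⟨0, le_rfl, by rw [h2 k hk h]; simp⟩

lemma dec_surj : ∀ x : G, ∃ k < 48, dec k = x := by
  have : ∀ x : G, ∃ k ∈ List.range 48, dec k = x := by decide +kernel
  intro x
  obtain ⟨k, hk, h⟩ := this x
  exact ⟨k, List.mem_range.mp hk, h⟩

/-- four unit vectors with sorted weights and five further elements -/
lemma sorted_case (w0 w1 w2 w3 : ℕ) (h3 : w3 < 3) (h2 : w2 < w3 + 1) (h1 : w1 < w2 + 1)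
    (h0 : w0 < w1 + 1) (M : Multiset G) (hM : Multiset.card M = 5) :
    ∃ T ≤ ({((Pi.single 0 1, (w0 : ZMod 3)) : G), ((Pi.single 1 1, (w1 : ZMod 3)) : G),
      ((Pi.single 2 1, (w2 : ZMod 3)) : G), ((Pi.single 3 1, (w3 : ZMod 3)) : G)} : Multiset G) + M,
      T ≠ 0 ∧ T.sum = 0 := by
  choose f hf1 hf2 using dec_surj
  have hs := (((sound_one.step (1 + 16 * w0) (by omega)).step (2 + 16 * w1) (by omega)).step
    (4 + 16 * w2) (by omega)).step (8 + 16 * w3) (by omega)
  have key := search_spec 5 _ els (by intro x hx; simpa [els] using hx)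
    (tall w3 h3 w2 h2 w1 h1 w0 h0) _ hs (M.map f) (by simpa using hM)
    (by intro x hx
        rw [Multiset.mem_map] at hx
        obtain ⟨y, _, rfl⟩ := hx
        simpa [els] using hf1 y)
  have e0 : ∀ w < 3, dec (1 + 16 * w) = ((Pi.single 0 1, (w : ZMod 3)) : G) := by decide +kernel
  have e1 : ∀ w < 3, dec (2 + 16 * w) = ((Pi.single 1 1, (w : ZMod 3)) : G) := by decide +kernel
  have e2 : ∀ w < 3, dec (4 + 16 * w) = ((Pi.single 2 1, (w : ZMod 3)) : G) := by decide +kernel
  have e3 : ∀ w < 3, dec (8 + 16 * w) = ((Pi.single 3 1, (w : ZMod 3)) : G) := by decide +kernel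
  rw [e0 w0 (by omega), e1 w1 (by omega), e2 w2 (by omega), e3 w3 (by omega)] at key
  have hmap : (M.map f).map dec = M := by
    rw [Multiset.map_map]
    conv_rhs => rw [← Multiset.map_id M]
    exact Multiset.map_congr rfl (fun x _ => hf2 x)
  rw [hmap] at key
  obtain ⟨T, hT, h4, h5⟩ := key
  refine ⟨T, hT.trans (le_of_eq ?_), h4, h5⟩
  congr 1
  simp only [Multiset.insert_eq_cons]
  rw [← Multiset.singleton_add, ← Multiset.singleton_add, ← Multiset.singleton_add,
    ← Multiset.singleton_add, ← Multiset.singleton_add, ← Multiset.singleton_add,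
    ← Multiset.singleton_add]
  abel

end Pool.Agent.R93.ZS
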