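import Pool.Agent.R93.ZS1

set_option autoImplicit false

/-!
Every sequence of nine elements of `F_2^4 × Z_3` has a nonempty zero-sum subsequence.
-/

namespace Pool.Agent.R93.ZS

open Module

lemma exists_submultiset_card {α : Type*} (S : Multiset α) (n : ℕ) (h : n ≤ Multiset.card S) :
    ∃ M ≤ S, Multiset.card M = n := by
  induction S using Quotient.inductionOn with
  | h l =>
    refine ⟨(l.take n : List α), ?_, ?_⟩
    · exact Multiset.coe_le.mpr (List.take_sublist _ _).subperm
    · simp only [Multiset.coe_card, List.length_take]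
      simpa using h

/-- The case of a basis with arbitrary weights and five further elements. -/
lemma basis_case (β : Basis (Fin 4) (ZMod 2) V) (wt : Fin 4 → ZMod 3) (M : Multiset G)
    (hM : Multiset.card M = 5) :
    ∃ T ≤ (Finset.univ.val.map fun i : Fin 4 => ((β i, wt i) : G)) + M, T ≠ 0 ∧ T.sum = 0 := by
  classical
  obtain ⟨σ, hσ⟩ : ∃ σ : Equiv.Perm (Fin 4), Monotone (fun i => (wt (σ i)).val) :=
    ⟨Tuple.sort (fun i => (wt i).val), Tuple.monotone_sort (fun i => (wt i).val)⟩
  let β' := β.reindex σ.symm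
  have hβ' : ∀ i, β' i = β (σ i) := by intro i; simp [β']
  let φ : V ≃ₗ[ZMod 2] V := β'.equivFun
  have hφ : ∀ i, φ (β (σ i)) = Pi.single i 1 := by
    intro i
    rw [← hβ']
    ext j
    simp [φ, Pi.single_apply, eq_comm]
  let Φ : G ≃+ G := AddEquiv.prodCongr φ.toAddEquiv (AddEquiv.refl _)
  have hΦ : ∀ x : G, Φ x = (φ x.1, x.2) := fun x => rfl
  obtain ⟨T, hT, hne, hs⟩ := sorted_case (wt (σ 0)).val (wt (σ 1)).val (wt (σ 2)).val (wt (σ 3)).val
    (ZMod.val_lt _) (Nat.lt_succ_of_le (hσ (by decide : (2 : Fin 4) ≤ 3)))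
    (Nat.lt_succ_of_le (hσ (by decide : (1 : Fin 4) ≤ 2)))
    (Nat.lt_succ_of_le (hσ (by decide : (0 : Fin 4) ≤ 1))) (M.map Φ) (by simpa using hM)
  have hL : (Finset.univ.val.map fun i : Fin 4 => ((β i, wt i) : G)) =
      {((β (σ 0), wt (σ 0)) : G), (β (σ 1), wt (σ 1)), (β (σ 2), wt (σ 2)), (β (σ 3), wt (σ 3))} := by
    have h1 : (Finset.univ : Finset (Fin 4)).val = (Finset.univ.map σ.toEmbedding).val := by
      rw [Finset.map_univ_equiv]
    rw [h1, Finset.map_val, Multiset.map_map]
    rfl
  refine ⟨T.map Φ.symm, ?_, ?_, ?_⟩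
  · rw [hL]
    have h2 : T.map Φ.symm ≤ _ := Multiset.map_le_map hT
    refine h2.trans (le_of_eq ?_)
    rw [Multiset.map_add, Multiset.map_map]
    have h3 : (M.map (Φ.symm ∘ Φ)) = M := by
      conv_rhs => rw [← Multiset.map_id M]
      exact Multiset.map_congr rfl (fun x _ => by simp)
    rw [h3]
    congr 1
    have h4 : ∀ i : Fin 4, Φ.symm ((Pi.single i 1, (((wt (σ i)).val : ℕ) : ZMod 3)) : G) =
        (β (σ i), wt (σ i)) := by
      intro i
      rw [AddEquiv.symm_apply_eq, hΦ, hφ]
      simp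
    simp only [Multiset.insert_eq_cons, Multiset.map_cons, Multiset.map_singleton, h4]
  · simpa using hne
  · have : (T.map Φ.symm).sum = Φ.symm T.sum := (map_multiset_sum Φ.symm T).symm
    rw [this, hs, map_zero]

/-- **Every sequence of at least nine elements of `F_2^4 × Z_3` has a nonempty zero-sum
subsequence.** -/
theorem nine (S : Multiset G) (hS : 9 ≤ Multiset.card S) : ∃ T ≤ S, T ≠ 0 ∧ T.sum = 0 := by
  classical
  obtain ⟨b, hb1, -, hb3, hb4⟩ := exists_linearIndepOn_id_extension
    (linearIndependent_empty (ZMod 2) V) (Set.empty_subset {v : V | ∃ x ∈ S, x.1 = v})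
  let B0 := Basis.extend hb4
  have hcard : Fintype.card (hb4.extend (Set.subset_univ b)) = 4 := by
    have h1 := Module.finrank_eq_card_basis B0
    rw [← h1]
    simp
  let β : Basis (Fin 4) (ZMod 2) V := B0.reindex (Fintype.equivFinOfCardEq hcard)
  have hβ : ∀ i, β i = ((Fintype.equivFinOfCardEq hcard).symm i : V) := by
    intro i; simp [β, B0]
  have hrange : ∀ v ∈ b, ∃ i, β i = v := by
    intro v hv
    have h1 : v ∈ hb4.extend (Set.subset_univ b) := Basis.subset_extend hb4 hv
    refine ⟨Fintype.equivFinOfCardEq hcard ⟨v, h1⟩, ?_⟩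
    rw [hβ]; simp
  -- the chosen elements
  have hb1' : ∀ v ∈ b, ∃ x : G, x ∈ S ∧ x.1 = v := fun v hv => hb1 hv
  choose! f hf1 hf2 using hb1'
  let wt : Fin 4 → ZMod 3 := fun i => if β i ∈ b then (f (β i)).2 else 0
  have hwt : ∀ i, β i ∈ b → ((β i, wt i) : G) = f (β i) := by
    intro i hi
    have : wt i = (f (β i)).2 := if_pos hi
    rw [this]
    exact Prod.ext (hf2 _ hi).symm rfl
  let I : Finset (Fin 4) := Finset.univ.filter (fun i => β i ∈ b)
  let P : Multiset G := I.val.map fun i => ((β i, wt i) : G)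
  have hinj : Function.Injective (fun i : Fin 4 => ((β i, wt i) : G)) := by
    intro i j hij
    exact β.injective (congrArg Prod.fst hij)
  have hPn : P.Nodup := I.nodup.map hinj
  have hPS : P ≤ S := by
    rw [Multiset.le_iff_subset hPn]
    intro x hx
    obtain ⟨i, hi, rfl⟩ := Multiset.mem_map.mp hx
    have hi' : β i ∈ b := (Finset.mem_filter.mp (Finset.mem_val.mp hi)).2
    rw [hwt i hi']
    exact hf1 _ hi'
  have hPc : Multiset.card P ≤ 4 := by
    simp only [P, Multiset.card_map, Finset.card_val]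
    exact (Finset.card_le_univ _).trans (by simp)
  obtain ⟨M, hM1, hM2⟩ := exists_submultiset_card (S - P) 5 (by
    rw [Multiset.card_sub hPS]; omega)
  obtain ⟨T, hT, hne, hsum⟩ := basis_case β wt M hM2
  refine ⟨T, ?_, hne, hsum⟩
  -- decompose `T`
  obtain ⟨T1, T2, h1, h2, rfl⟩ : ∃ T1 T2 : Multiset G,
      T1 ≤ (Finset.univ.val.map fun i : Fin 4 => ((β i, wt i) : G)) ∧ T2 ≤ M ∧ T = T1 + T2 := by
    refine ⟨T - (T ∩ M), T ∩ M, ?_, Multiset.inter_le_right, ?_⟩
    · rw [Multiset.sub_le_iff_le_add, Multiset.le_iff_count]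
      intro a
      have := Multiset.le_iff_count.mp hT a
      simp only [Multiset.count_add, Multiset.count_inter] at this ⊢
      omega
    · exact (tsub_add_cancel_of_le Multiset.inter_le_left).symm
  have hT1n : T1.Nodup := Multiset.nodup_of_le h1 (Finset.univ.nodup.map hinj)
  -- `T1` comes from a finset
  let J : Finset (Fin 4) := Finset.univ.filter (fun i => ((β i, wt i) : G) ∈ T1)
  have hT1 : T1 = J.val.map fun i => ((β i, wt i) : G) := by
    rw [Multiset.Nodup.ext hT1n (J.nodup.map hinj)]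
    intro x
    rw [Multiset.mem_map]
    constructor
    · intro hx
      obtain ⟨i, _, rfl⟩ := Multiset.mem_map.mp (Multiset.mem_of_le h1 hx)
      exact ⟨i, by simpa [J] using hx, rfl⟩
    · rintro ⟨i, hi, rfl⟩
      simpa [J] using hi
  have hspan : ∀ x ∈ S, x.1 ∈ Submodule.span (ZMod 2) b := fun x hx => hb3 ⟨x, hx, rfl⟩
  have hT2S : T2 ≤ S - P := h2.trans hM1
  have hT2 : (T2.map Prod.fst).sum ∈ Submodule.span (ZMod 2) b := by
    refine multiset_sum_mem _ (fun v hv => ?_)
    obtain ⟨x, hx, rfl⟩ := Multiset.mem_map.mp hv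
    exact hspan x (Multiset.mem_of_le (hT2S.trans (Multiset.sub_le_self _ _)) hx)
  have hJ : ∑ i ∈ J, β i ∈ Submodule.span (ZMod 2) b := by
    have h3 : (T1 + T2).map Prod.fst = J.val.map (fun i => β i) + T2.map Prod.fst := by
      rw [Multiset.map_add, hT1, Multiset.map_map]
      rfl
    have h4 : ((T1 + T2).map Prod.fst).sum = 0 := by
      have h5 : ((T1 + T2).map (AddMonoidHom.fst V (ZMod 3))).sum =
          AddMonoidHom.fst V (ZMod 3) (T1 + T2).sum := (map_multiset_sum _ _).symm
      rw [hsum, map_zero] at h5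
      exact h5
    rw [h3, Multiset.sum_add] at h4
    have h6 : ∑ i ∈ J, β i = - (T2.map Prod.fst).sum := eq_neg_of_add_eq_zero_left h4
    rw [h6]
    exact Submodule.neg_mem _ hT2
  have hJI : J ⊆ I := by
    intro i hi
    by_contra hnot
    have hib : β i ∉ b := fun h => hnot (Finset.mem_filter.mpr ⟨Finset.mem_univ _, h⟩)
    have hz : ∀ v ∈ Submodule.span (ZMod 2) b, β.coord i v = 0 := by
      intro v hv
      have hle : Submodule.span (ZMod 2) b ≤ LinearMap.ker (β.coord i) := by
        rw [Submodule.span_le]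
        intro u hu
        obtain ⟨j, rfl⟩ := hrange u hu
        have hji : j ≠ i := by rintro rfl; exact hib hu
        simp only [SetLike.mem_coe, LinearMap.mem_ker, Basis.coord_apply, Basis.repr_self]
        exact Finsupp.single_eq_of_ne hji.symm
      exact hle hv
    have h7 := hz _ hJ
    rw [map_sum] at h7
    have h8 : ∑ j ∈ J, β.coord i (β j) = 1 := by
      rw [Finset.sum_eq_single i]
      · simp
      · intro j _ hji
        simp only [Basis.coord_apply, Basis.repr_self]
        exact Finsupp.single_eq_of_ne hji.symm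
      · intro h; exact absurd hi h
    rw [h8] at h7
    exact one_ne_zero h7
  have hT1P : T1 ≤ P := by
    rw [hT1]
    exact Multiset.map_le_map (Finset.val_le_iff.mpr hJI)
  calc T1 + T2 ≤ P + (S - P) := add_le_add hT1P hT2S
    _ = S := add_tsub_cancel_of_le hPS

end Pool.Agent.R93.ZS
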